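import Pool.Agent.W_7d29a1_QM.DefsOW
import Pool.Agent.W_7d29a1_NR.MonG43
import Pool.Agent.W_7d29a1_NR.Cor11
import Pool.Agent.W_7d29a1_VT.Slab46
import Pool.Agent.W_7d29a1_SP.Rate74

/-!
Theorem OWN (helper74): from one tilt, one scale to the problem's own exponents.
-/

set_option autoImplicit false

namespace Pool.Agent.W_7d29a1_OW

open MeasureTheory ProbabilityTheory Filter Topology Pool.Agent.W_MP_7d29a1_pr
  Pool.Agent.W_7d29a1_h46 Pool.Agent.W_7d29a1_h46u Pool.Agent.W_7d29a1_D2.B35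
  Pool.Agent.W_7d29a1_Q29 Pool.Agent.W_7d29a1_R34 Pool.Agent.W_7d29a1_SP Pool.Agent.W_7d29a1_NR

namespace O74

/-- The numbers: the length `N = ⌊n ^ (1 / 16)⌋`. -/
lemma len74 (n₁ : ℕ) : ∀ᶠ n : ℕ in atTop, n₁ ≤ ⌊(n : ℝ) ^ (1 / 16 : ℝ)⌋₊ ∧
    (n : ℝ) ^ (1 / 32 : ℝ) ≤ (⌊(n : ℝ) ^ (1 / 16 : ℝ)⌋₊ : ℕ) ∧
    (4 * ⌊(n : ℝ) ^ (1 / 16 : ℝ)⌋₊) ^ 3 ≤ n ∧ 1 ≤ ⌊(n : ℝ) ^ (1 / 16 : ℝ)⌋₊ := by
  have t1 : Tendsto (fun n : ℕ => (n : ℝ) ^ (1 / 32 : ℝ)) atTop atTop :=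
    (tendsto_rpow_atTop (by norm_num)).comp tendsto_natCast_atTop_atTop
  filter_upwards [t1.eventually_ge_atTop (max (n₁ : ℝ) 2), eventually_ge_atTop 1] with n h1 h2
  have hn0 : (0 : ℝ) < n := by exact_mod_cast h2
  obtain ⟨x, hx⟩ : ∃ x : ℝ, x = (n : ℝ) ^ (1 / 32 : ℝ) := ⟨_, rfl⟩
  rw [← hx] at h1 ⊢
  have hx2 : 2 ≤ x := (le_max_right _ _).trans h1
  have hxn : (n₁ : ℝ) ≤ x := (le_max_left _ _).trans h1
  have e1 : (n : ℝ) ^ (1 / 16 : ℝ) = x ^ 2 := by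
    rw [hx, ← Real.rpow_natCast, ← Real.rpow_mul hn0.le]
    norm_num
  have e2 : (n : ℝ) = x ^ 32 := by
    rw [hx, ← Real.rpow_natCast, ← Real.rpow_mul hn0.le]
    norm_num
  rw [e1]
  obtain ⟨N, hN⟩ : ∃ N : ℕ, N = ⌊x ^ 2⌋₊ := ⟨_, rfl⟩
  rw [← hN]
  have hNle : (N : ℝ) ≤ x ^ 2 := by
    rw [hN]
    exact Nat.floor_le (by positivity)
  have hNgt : x ^ 2 < N + 1 := by
    rw [hN]
    exact Nat.lt_floor_add_one _
  have hxN : x ≤ N := by nlinarith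
  refine ⟨by exact_mod_cast hxn.trans hxN, hxN, ?_, ?_⟩
  · have h5 : (((4 * N) ^ 3 : ℕ) : ℝ) ≤ (n : ℝ) := by
      push_cast
      have hN0 : (0 : ℝ) ≤ N := Nat.cast_nonneg N
      have h6 : (4 * (N : ℝ)) ^ 3 ≤ (4 * x ^ 2) ^ 3 :=
        pow_le_pow_left₀ (by positivity) (by linarith) 3
      refine h6.trans ?_
      rw [e2]
      have h7 : (4 * x ^ 2) ^ 3 = 64 * x ^ 6 := by ring
      have h8 : x ^ 32 = x ^ 26 * x ^ 6 := by ring
      rw [h7, h8]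
      refine mul_le_mul_of_nonneg_right ?_ (by positivity)
      calc (64 : ℝ) ≤ 2 ^ 26 := by norm_num
        _ ≤ x ^ 26 := pow_le_pow_left₀ (by norm_num) hx2 26
    exact_mod_cast h5
  · have : (1 : ℝ) ≤ N := by linarith
    exact_mod_cast this

end O74

open O74 in
/-- **The core of theorem OWN.** -/
theorem ownD74 {d : ℕ} {ρ : Measure ℝ} [IsProbabilityMeasure ρ] (hd : 0 < d) (hρ : EM ρ)
    {β t : ℝ} (ht : t < 1) (hO : OneD d ρ β) (hM : MonP d ρ β t)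
    (hN : NrS d ρ β) : OwnD d ρ β := by
  obtain ⟨θ, hθ, hL⟩ := corL11 hd hρ hN
  obtain ⟨C₁, hC₁, hMon⟩ := hM
  intro g hg
  obtain ⟨c₁, hc₁, H⟩ := hO g hg
  obtain ⟨c, hc⟩ : ∃ c : ℝ, c = min (c₁ / 128) (1 / 64) := ⟨_, rfl⟩
  have hc0 : 0 < c := by
    rw [hc]
    exact lt_min (by linarith) (by norm_num)
  have hcc : c ≤ c₁ / 128 := by
    rw [hc]
    exact min_le_left _ _
  have hc64 : c ≤ 1 / 64 := by
    rw [hc]
    exact min_le_right _ _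
  refine ⟨c, hc0, fun h hgap => ?_⟩
  obtain ⟨n₁, hn₁⟩ := H h hgap
  obtain ⟨C, hC⟩ := hL h
  obtain ⟨θ', hθ'⟩ : ∃ θ' : ℝ, θ' = max θ (1 / 2) := ⟨_, rfl⟩
  have hθ'1 : θ' < 1 := by
    rw [hθ']
    exact max_lt hθ (by norm_num)
  have hθ'0 : 0 ≤ θ' := by
    rw [hθ']
    exact le_trans (by norm_num) (le_max_right _ _)
  have hθθ : θ ≤ θ' := by
    rw [hθ']
    exact le_max_left _ _
  have t1 : Tendsto (fun n : ℕ => (n : ℝ) ^ (c / 2)) atTop atTop :=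
    (tendsto_rpow_atTop (by positivity)).comp tendsto_natCast_atTop_atTop
  obtain ⟨n₂, hn₂⟩ := eventually_atTop.1 (((len74 n₁).and
    (WT41.subT41 ht C₁ (ε := c / 2) (by positivity))).and
    ((WT41.subT41 hθ'1 (2 * |C|) (ε := c / 2) (by positivity)).and
    (t1.eventually_ge_atTop (max 2 (2 * C₁)))))
  refine ⟨max n₂ 1, fun n hn hV => ?_⟩
  obtain ⟨⟨⟨hNn, hNr, hN3, hN1⟩, hs1⟩, hs2, hs3⟩ := hn₂ n ((le_max_left _ _).trans hn)
  obtain ⟨N, hNd⟩ : ∃ N : ℕ, N = ⌊(n : ℝ) ^ (1 / 16 : ℝ)⌋₊ := ⟨_, rfl⟩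
  rw [← hNd] at hNn hNr hN3 hN1
  have hn1 : 1 ≤ n := (le_max_right _ _).trans hn
  have hnr : (1 : ℝ) ≤ n := by exact_mod_cast hn1
  have hn0 : (0 : ℝ) < n := by linarith
  have h4N : 4 * N ≤ n := (Nat.le_self_pow (by norm_num) _).trans hN3
  have hnc : 1 ≤ (n : ℝ) ^ c := Real.one_le_rpow hnr hc0.le
  have hnc2 : 0 < (n : ℝ) ^ (c / 2) := Real.rpow_pos_of_pos hn0 _
  have h2 : 2 ≤ (n : ℝ) ^ (c / 2) := (le_max_left _ _).trans hs3
  have h2C : 2 * C₁ ≤ (n : ℝ) ^ (c / 2) := (le_max_right _ _).trans hs3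
  have e2 : (n : ℝ) ^ (2 * c) = ((n : ℝ) ^ c) ^ 2 := by
    rw [← Real.rpow_natCast, ← Real.rpow_mul hn0.le]
    congr 1
    push_cast
    ring
  have e3 : (n : ℝ) ^ (2 * c) = (n : ℝ) ^ (c / 2) * (n : ℝ) ^ (c / 2) * (n : ℝ) ^ c := by
    rw [← Real.rpow_add hn0, ← Real.rpow_add hn0]
    congr 1
    ring
  -- the variance up to `n`
  have hVk : ∀ k : ℕ, k ≤ n → Va ρ β h k ≤ (n : ℝ) ^ (2 * c) := by
    intro k hk
    refine (hMon h k n hk).trans ?_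
    rw [e3]
    have h5 : 0 ≤ Va ρ β h n := integral_nonneg fun _ => sq_nonneg _
    calc C₁ * Real.exp (C₁ * Real.log (n + 2) ^ t) * (Va ρ β h n + 1)
        ≤ C₁ * (n : ℝ) ^ (c / 2) * (2 * (n : ℝ) ^ c) := by
          refine mul_le_mul (mul_le_mul_of_nonneg_left hs1 (by linarith)) ?_ (by linarith)
            (by positivity)
          linarith
      _ = (2 * C₁) * (n : ℝ) ^ (c / 2) * (n : ℝ) ^ c := by ring
      _ ≤ _ := by
          refine mul_le_mul_of_nonneg_right ?_ (by linarith)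
          exact mul_le_mul_of_nonneg_right h2C hnc2.le
  -- the nonrandom fluctuation up to `4 N`
  have hEk : ∀ k : ℕ, k ≤ 4 * N → En ρ β h k ≤ (n : ℝ) ^ (2 * c) := by
    intro k hk
    rcases Nat.eq_zero_or_pos k with h0 | h0
    · rw [h0]
      have h6 : En ρ β h 0 = 0 := by
        unfold En
        rw [Rate74.A_zero74]
        push_cast
        ring
      rw [h6]
      exact Real.rpow_nonneg hn0.le _
    have hk3 : k ^ 3 ≤ n := (Nat.pow_le_pow_left hk 3).trans hN3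
    have h5 := hC k ((n : ℝ) ^ c) h0 (fun m hm => by
      rw [← e2]
      exact hVk m (hm.trans hk3)) (by linarith)
    refine h5.trans ?_
    have hk1 : (1 : ℝ) ≤ k := by exact_mod_cast h0
    have hkn : (k : ℝ) ≤ n := by exact_mod_cast hk.trans h4N
    have hl1 : 1 ≤ Real.log ((k : ℝ) + 2) := by
      rw [Real.le_log_iff_exp_le (by linarith)]
      have := Real.exp_one_lt_d9
      linarith
    have hl2 : Real.log ((k : ℝ) + 2) ≤ Real.log ((n : ℝ) + 2) :=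
      Real.log_le_log (by linarith) (by linarith)
    have hl3 : Real.log ((k : ℝ) + 2) ^ θ ≤ Real.log ((n : ℝ) + 2) ^ θ' :=
      (Real.rpow_le_rpow_of_exponent_le hl1 hθθ).trans
        (Real.rpow_le_rpow (by linarith) hl2 hθ'0)
    have hl4 : 1 ≤ Real.log ((n : ℝ) + 2) ^ θ' := Real.one_le_rpow (hl1.trans hl2) hθ'0
    have hl5 : 0 ≤ Real.log ((k : ℝ) + 2) ^ θ := Real.rpow_nonneg (by linarith) _
    have h6 : Real.exp (C * (1 + Real.log (k + 2) ^ θ)) ≤ (n : ℝ) ^ (c / 2) := by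
      refine (Real.exp_le_exp.2 ?_).trans hs2
      calc C * (1 + Real.log ((k : ℝ) + 2) ^ θ) ≤ |C| * (1 + Real.log ((k : ℝ) + 2) ^ θ) :=
            mul_le_mul_of_nonneg_right (le_abs_self C) (by linarith)
        _ ≤ |C| * (2 * Real.log ((n : ℝ) + 2) ^ θ') :=
            mul_le_mul_of_nonneg_left (by linarith) (abs_nonneg C)
        _ = 2 * |C| * Real.log ((n : ℝ) + 2) ^ θ' := by ring
    calc (1 + (n : ℝ) ^ c) * Real.exp (C * (1 + Real.log (k + 2) ^ θ))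
        ≤ ((n : ℝ) ^ (c / 2) * (n : ℝ) ^ c) * (n : ℝ) ^ (c / 2) := by
          refine mul_le_mul ?_ h6 (Real.exp_pos _).le (by positivity)
          nlinarith
      _ = _ := by
          rw [e3]
          ring
  -- the bound in terms of `N`
  have hN0 : (0 : ℝ) < N := by exact_mod_cast hN1
  have hpow : (n : ℝ) ^ (2 * c) ≤ (N : ℝ) ^ c₁ := by
    calc (n : ℝ) ^ (2 * c) ≤ (n : ℝ) ^ (1 / 32 * c₁) :=
          Real.rpow_le_rpow_of_exponent_le hnr (by linarith)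
      _ = ((n : ℝ) ^ (1 / 32 : ℝ)) ^ c₁ := by rw [Real.rpow_mul hn0.le]
      _ ≤ (N : ℝ) ^ c₁ := Real.rpow_le_rpow (Real.rpow_nonneg hn0.le _) hNr hc₁.le
  refine ⟨N, ?_, ?_, fun v => ?_⟩
  · refine le_trans (Real.rpow_le_rpow_of_exponent_le hnr (by linarith)) hNr
  · omega
  · refine (hn₁ N hNn (fun k hk => ⟨(hVk k (hk.trans h4N)).trans hpow,
      (hEk k hk).trans hpow⟩) v).trans_le ?_
    have hNr1 : (1 : ℝ) ≤ N := by exact_mod_cast hN1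
    refine integral_mono (W_7d29a1_VT.Slab46.int_PolT β h _)
      (W_7d29a1_VT.Slab46.int_PolT β h _) fun η => sub_le_sub_left (PolT_mono β h η
        (tube_mono v ?_)) 1
    exact Real.rpow_le_rpow_of_exponent_le hNr1 (by linarith)

end Pool.Agent.W_7d29a1_OW
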