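import Pool.Agent.W_7d29a1_QM.DefsOW
import Pool.Agent.W_7d29a1_PA.TrPA52

/-!
Theorem OWN (helper74) in the letters of the problem, from its core.
-/

set_option autoImplicit false

namespace Pool.Agent.W_7d29a1_OW

open MeasureTheory ProbabilityTheory Filter Topology Pool.Agent.W_MP_7d29a1_pr
  Pool.Agent.W_7d29a1_h46 Pool.Agent.W_7d29a1_h46u Pool.Agent.W_7d29a1_D2
  Pool.Agent.W_7d29a1_D2.B35 Pool.Agent.W_7d29a1_V Pool.Agent.W_7d29a1_VT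
  Pool.Agent.W_7d29a1_Q29 Pool.Agent.W_7d29a1_R34 Pool.Agent.W_7d29a1_SP
  Pool.Agent.W_7d29a1_SD Pool.Agent.W_7d29a1_PL Pool.Agent.W_7d29a1_WP Pool.Agent.W_7d29a1_PA

variable {Ω : Type*} [MeasurableSpace Ω] {μ : Measure Ω} [IsProbabilityMeasure μ] {d : ℕ}
  {ρ : Measure ℝ} [IsProbabilityMeasure ρ] {ω : ℕ × Site d → Ω → ℝ} {β : ℝ}

/-- **Theorem OWN**, very strong disorder, uniform in the gap. -/
theorem ownT74 (hd : 0 < d) (hω : IID μ ρ ω) (hρ : EM ρ) (hO : OwnD d ρ β) :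
    ∀ g : ℝ, 0 < g → ∃ c : ℝ, 0 < c ∧ ∀ h : Vec d,
      lam ρ β h + g ≤ Real.log (Phi h) + Real.log (∫ t, Real.exp (β * t) ∂ρ) →
        c ≤ chiT μ β ω h ∨ ∀ v : Vec d, 1 + c ≤ d * nuT μ β ω h v := by
  intro g hg
  obtain ⟨c, hc, H⟩ := hO g hg
  refine ⟨c / 2, by linarith, fun h hgap => ?_⟩
  obtain ⟨n₀, hn₀⟩ := H h hgap
  by_cases hE : ∀ᶠ n : ℕ in atTop, (n : ℝ) ^ c ≤ Va ρ β h n
  · exact Or.inl (chiT_ev52 hd hω hρ hc hE)
  right
  intro v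
  have hF : ∃ᶠ n : ℕ in atTop, Va ρ β h n < (n : ℝ) ^ c := by
    intro hcon
    exact hE (hcon.mono fun n hn => not_lt.1 hn)
  have h1 : 1 / (d : ℝ) + c ≤ nuT μ β ω h v := by
    refine nuT_fr52 hd hω (ε := 1 / 8) (by norm_num) ?_
    rw [frequently_atTop]
    intro M
    have ht : Tendsto (fun n : ℕ => (n : ℝ) ^ c) atTop atTop :=
      (tendsto_rpow_atTop hc).comp tendsto_natCast_atTop_atTop
    obtain ⟨n, ⟨hn, hn1⟩, hn2⟩ := ((hF.and_eventually (eventually_ge_atTop n₀)).and_eventually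
      (ht.eventually_ge_atTop (M : ℝ))).exists
    obtain ⟨N, hN1, -, hN2⟩ := hn₀ n hn1 hn.le
    exact ⟨N, by exact_mod_cast hn2.trans hN1, (hN2 v).le⟩
  have hd0 : (1 : ℝ) ≤ d := by exact_mod_cast hd
  have h2 : (d : ℝ) * (1 / (d : ℝ) + c) ≤ d * nuT μ β ω h v :=
    mul_le_mul_of_nonneg_left h1 (by linarith)
  have h3 : (d : ℝ) * (1 / (d : ℝ) + c) = 1 + d * c := by
    field_simp
  nlinarith

/-- **Theorem OWN**, very strong disorder. -/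
theorem ownV74 (hd : 0 < d) (hω : IID μ ρ ω) (hρ : EM ρ) (hO : OwnD d ρ β) (h : Vec d)
    (hV : VSD ρ β h) : 0 < chiT μ β ω h ∨ ∀ v : Vec d, 1 < d * nuT μ β ω h v := by
  have hV' : lam ρ β h < Real.log (Phi h) + Real.log (∫ t, Real.exp (β * t) ∂ρ) := hV
  obtain ⟨g, hg⟩ : ∃ g : ℝ, g = Real.log (Phi h) + Real.log (∫ t, Real.exp (β * t) ∂ρ) -
    lam ρ β h := ⟨_, rfl⟩
  obtain ⟨c, hc, H⟩ := ownT74 hd hω hρ hO g (by linarith)
  rcases H h (by linarith) with h1 | h1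
  · exact Or.inl (by linarith)
  · exact Or.inr fun v => by
      have := h1 v
      linarith

end Pool.Agent.W_7d29a1_OW
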