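import Mathlib

/-!
The relation `chi = 2 nu - 1` and the bounds for `nu` (helper75).
-/

namespace Pool.Agent.W_7d29a1_QM

/-- If `2 chi ≤ nu` and (`nu > 1 / 2` or `chi > 0`), then the relation `chi = 2 nu - 1` forces
`1 / 2 < nu ≤ 2 / 3` and `0 < chi ≤ 1 / 3`. -/
theorem rel75 {ν χ : ℝ} (h2 : 2 * χ ≤ ν) (hO : 1 / 2 < ν ∨ 0 < χ) (hR : χ = 2 * ν - 1) :
    1 / 2 < ν ∧ ν ≤ 2 / 3 ∧ 0 < χ ∧ χ ≤ 1 / 3 := by
  have h1 : 1 / 2 < ν := by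
    rcases hO with h | h <;> linarith
  exact ⟨h1, by linarith, by linarith, by linarith⟩

end Pool.Agent.W_7d29a1_QM
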