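import Pool.Agent.W_7d29a1_VT.VT46
import Pool.Agent.W_7d29a1_QM.Rel75

/-!
The relation `chi = 2 nu - 1` for the exponents of the problem, every tilt and every direction
(helper75).
-/

namespace Pool.Agent.W_7d29a1_QM

open MeasureTheory ProbabilityTheory Filter Topology Pool.Agent.W_MP_7d29a1_pr
  Pool.Agent.W_7d29a1_h46 Pool.Agent.W_7d29a1_h46u Pool.Agent.W_7d29a1_D2
  Pool.Agent.W_7d29a1_D2.B35 Pool.Agent.W_7d29a1_V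

variable {d : ℕ} {ρ : Measure ℝ} [IsProbabilityMeasure ρ] {Ω : Type*} [MeasurableSpace Ω]
  {μ : Measure Ω} [IsProbabilityMeasure μ] {ω : ℕ × Site d → Ω → ℝ} {β : ℝ} {h v : Vec d}

/-- If `nu(h, v) > 1 / 2` or `chi(h) > 0`, then `chi(h) = 2 nu(h, v) - 1` forces
`1 / 2 < nu(h, v) ≤ 2 / 3` and `0 < chi(h) ≤ 1 / 3`. -/
theorem relT75 (hd : 0 < d) (hω : IID μ ρ ω) (hρ : EM ρ)
    (hO : 1 / 2 < nuT μ β ω h v ∨ 0 < chiT μ β ω h)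
    (hR : chiT μ β ω h = 2 * nuT μ β ω h v - 1) :
    1 / 2 < nuT μ β ω h v ∧ nuT μ β ω h v ≤ 2 / 3 ∧ 0 < chiT μ β ω h ∧ chiT μ β ω h ≤ 1 / 3 :=
  rel75 (W_7d29a1_VT.VT_main46 hd hω hρ β h v) hO hR

/-- The same with the disjunction, for all tilts and directions. -/
theorem relAll75 (hd : 0 < d) (hω : IID μ ρ ω) (hρ : EM ρ)
    (hO : ∀ h v : Vec d, 1 / 2 < nuT μ β ω h v ∨ 0 < chiT μ β ω h) :
    ∀ h v : Vec d, (1 / 2 < nuT μ β ω h v ∨ 0 < chiT μ β ω h) ∧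
      (chiT μ β ω h = 2 * nuT μ β ω h v - 1 →
        1 / 2 < nuT μ β ω h v ∧ nuT μ β ω h v ≤ 2 / 3 ∧
          0 < chiT μ β ω h ∧ chiT μ β ω h ≤ 1 / 3) :=
  fun h v => ⟨hO h v, relT75 hd hω hρ (hO h v)⟩

end Pool.Agent.W_7d29a1_QM
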