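import Pool.Agent.W_7d29a1_QM.OneD74
import Pool.Agent.W_7d29a1_QM.Own74
import Pool.Agent.W_7d29a1_QM.OwnT74
import Pool.Agent.W_7d29a1_QM.RelT75
import Pool.Agent.W_7d29a1_PA.CorN43
import Pool.Agent.W_7d29a1_WP.FinX98
import Pool.Agent.W_7d29a1_NR.MonU44
import Pool.Agent.W_7d29a1_NR.NrAll86
import Pool.Agent.W_7d29a1_KZ.OwnN20
import Pool.Agent.W_7d29a1_Q29.Npf98

/-!
Theorem OWN (helper74), final form: every dimension, every law with exponential moments, every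
`β > 0`, every tilt and every direction.
-/

set_option autoImplicit false

namespace Pool.Agent.W_7d29a1_OW

open MeasureTheory ProbabilityTheory Filter Topology Pool.Agent.W_MP_7d29a1_pr
  Pool.Agent.W_7d29a1_h46 Pool.Agent.W_7d29a1_h46u Pool.Agent.W_7d29a1_D2
  Pool.Agent.W_7d29a1_D2.B35 Pool.Agent.W_7d29a1_V Pool.Agent.W_7d29a1_VT
  Pool.Agent.W_7d29a1_Q29 Pool.Agent.W_7d29a1_R34 Pool.Agent.W_7d29a1_SP

variable {Ω : Type*} [MeasurableSpace Ω] {μ : Measure Ω} [IsProbabilityMeasure μ] {d : ℕ}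
  {ρ : Measure ℝ} [IsProbabilityMeasure ρ] {ω : ℕ × Site d → Ω → ℝ} {β : ℝ}

/-- The core of theorem OWN, no hypothesis left. -/
theorem ownDAll74 (hd : 0 < d) (hρ : EM ρ) (hnc : ∀ c : ℝ, ρ {c} ≠ 1) (hβ : 0 < β) :
    OwnD d ρ β := by
  obtain ⟨t, -, ht1, hM⟩ := W_7d29a1_NR.monU44 (d := d) hd hρ hnc hβ
  exact ownD74 hd hρ ht1 (oneD74 hd (npb98 hd hρ hnc hβ)
    (W_7d29a1_PA.corE43 hd hρ (W_7d29a1_WP.corAll98 hd hρ hnc hβ))) hM
    (W_7d29a1_NR.nrAll86 hd hρ hnc hβ)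

/-- **THEOREM OWN**: `χ(h) > 0`, or `d ν(h, v) > 1` in every direction. -/
theorem ownF74 (hd : 0 < d) (hω : IID μ ρ ω) (hρ : EM ρ) (hnc : ∀ c : ℝ, ρ {c} ≠ 1)
    (hβ : 0 < β) (h : Vec d) :
    0 < chiT μ β ω h ∨ ∀ v : Vec d, 1 < d * nuT μ β ω h v := by
  by_cases hV : VSD ρ β h
  · exact ownV74 hd hω hρ (ownDAll74 hd hρ hnc hβ) h hV
  · refine Or.inr fun v => ?_
    have := W_7d29a1_KZ.ownN20 hd hω hρ hnc hβ h hV v
    linarith

/-- **`d = 2`**: `ν(h, v) > 1 / 2` or `χ(h) > 0`; the scaling relation would give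
`1 / 2 < ν(h, v) ≤ 2 / 3`. -/
theorem ownTwo74 (hd : d = 2) (hω : IID μ ρ ω) (hρ : EM ρ) (hnc : ∀ c : ℝ, ρ {c} ≠ 1)
    (hβ : 0 < β) : ∀ h v : Vec d, (1 / 2 < nuT μ β ω h v ∨ 0 < chiT μ β ω h) ∧
      (chiT μ β ω h = 2 * nuT μ β ω h v - 1 → 1 / 2 < nuT μ β ω h v ∧ nuT μ β ω h v ≤ 2 / 3 ∧
        0 < chiT μ β ω h ∧ chiT μ β ω h ≤ 1 / 3) := by
  have hd0 : 0 < d := by omega
  refine W_7d29a1_QM.relAll75 hd0 hω hρ fun h v => ?_
  rcases ownF74 hd0 hω hρ hnc hβ h with h1 | h1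
  · exact Or.inr h1
  · left
    have h2 := h1 v
    have h3 : (d : ℝ) = 2 := by
      rw [hd]
      norm_num
    have h4 : (1 : ℝ) < 2 * nuT μ β ω h v := by
      rw [← h3]
      exact h2
    linarith

end Pool.Agent.W_7d29a1_OW
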