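import Pool.Agent.W_7d29a1_QM.DefsCV
import Pool.Agent.W_7d29a1_KP.SinK95
import Pool.Agent.W_7d29a1_KP.EhrE68
import Pool.Agent.W_7d29a1_KP.TubE30
import Pool.Agent.W_7d29a1_KP.HalEU30

/-!
Theorem CURV for every law: the mean of the logarithm of the weight of the walks through one far
site, its median, and the tube (helper68).
-/

set_option autoImplicit false

namespace Pool.Agent.W_7d29a1_CV

open MeasureTheory ProbabilityTheory Filter Topology Pool.Agent.W_MP_7d29a1_pr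
  Pool.Agent.W_7d29a1_h46 Pool.Agent.W_7d29a1_h46u Pool.Agent.W_7d29a1_D2.B35
  Pool.Agent.W_7d29a1_Q29 Pool.Agent.W_7d29a1_R34 Pool.Agent.W_7d29a1_SP

/-- The mean at one far site. -/
theorem mv68 {d : ℕ} {ρ : Measure ℝ} [IsProbabilityMeasure ρ] (hd : 0 < d) (hρ : EM ρ) {β : ℝ}
    {h v : Vec d} {n i : ℕ} {R r W : ℝ} {y : Site d} {E : Set (Fin n → Step d)} (hr : 0 ≤ r)
    (hR : 0 ≤ R) (hcap : Cap ρ β h v r W) (hi : i ≤ n) (hE : E.Nonempty)
    (hy : ∀ s ∈ E, pos s i = y) (hRy : R < ‖emb y - (i : ℝ) • v‖) :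
    ∫ η, Real.log (ZT β h η E) ∂(law d ρ) ≤ n * lam ρ β h - (r * R - n * W) := by
  obtain ⟨w, hw⟩ : ∃ w : Vec d, w = emb y - (i : ℝ) • v := ⟨_, rfl⟩
  rw [← hw] at hRy
  have hw0 : 0 < ‖w‖ := hR.trans_lt hRy
  obtain ⟨k, hk⟩ : ∃ k : Vec d, k = (r / ‖w‖) • w := ⟨_, rfl⟩
  have hkn : ‖k‖ = r := by
    rw [hk, norm_smul, Real.norm_eq_abs, abs_of_nonneg (by positivity)]
    field_simp
  have hkw : inner ℝ k w = r * ‖w‖ := by
    rw [hk, real_inner_smul_left, real_inner_self_eq_norm_sq]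
    field_simp
  have hW : 0 ≤ W := by
    have h1 := hcap 0 (by rw [norm_zero]; exact hr)
    rw [add_zero, inner_zero_right, add_zero] at h1
    linarith
  have hc := hcap k hkn.le
  have iX1 : Integrable (fun η => X β (h + k) η i) (law d ρ) := (concU hd hρ β (h + k) i).1
  have iX2 : Integrable (fun η => X β h η (n - i)) (law d ρ) := (concU hd hρ β h (n - i)).1
  have iX3 : Integrable (fun η => X β h (sh i y η) (n - i)) (law d ρ) :=
    (mp_sh (ρ := ρ) i y).integrable_comp_of_integrable iX2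
  have e3 : ∫ η, X β h (sh i y η) (n - i) ∂(law d ρ) = A ρ β h (n - i) := by
    have h1 := integral_map (μ := law d ρ) (mp_sh (ρ := ρ) i y).measurable.aemeasurable
      (f := fun η => X β h η (n - i)) (measurable_X β h (n - i)).aestronglyMeasurable
    rw [(mp_sh (ρ := ρ) i y).map_eq] at h1
    exact h1.symm
  have hpt : ∀ η, Real.log (ZT β h η E) ≤
      X β (h + k) η i - inner ℝ k (emb y) + X β h (sh i y η) (n - i) := by
    intro η
    have h0 : 0 < ZT β h η E := W_7d29a1_KP.ztPos30 β h η hE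
    have h4 : PP β h η i y ≤ Real.exp (X β (h + k) η i - inner ℝ k (emb y)) := by
      have h5 : PP β (h + k) η i y ≤ Z β (h + k) η i := PP_le_Z _ _ _ _ _
      rw [PP_tilt, TubV_exp hd β (h + k) η i] at h5
      have h6 : PP β h η i y = Real.exp (-inner ℝ k (emb y)) *
          (Real.exp (inner ℝ k (emb y)) * PP β h η i y) := by
        rw [← mul_assoc, ← Real.exp_add]
        simp
      rw [h6]
      calc Real.exp (-inner ℝ k (emb y)) * (Real.exp (inner ℝ k (emb y)) * PP β h η i y) ≤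
          Real.exp (-inner ℝ k (emb y)) * Real.exp (X β (h + k) η i) :=
            mul_le_mul_of_nonneg_left h5 (Real.exp_pos _).le
        _ = Real.exp (X β (h + k) η i - inner ℝ k (emb y)) := by
            rw [← Real.exp_add]
            ring_nf
    have h5 : Z β h (sh i y η) (n - i) = Real.exp (X β h (sh i y η) (n - i)) :=
      TubV_exp hd β h (sh i y η) (n - i)
    have h6 := (W_7d29a1_KP.at95 β h η hi hy).trans
      (mul_le_mul_of_nonneg_right h4 (by rw [h5]; exact (Real.exp_pos _).le))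
    rw [h5, ← Real.exp_add] at h6
    have h7 := Real.log_le_log h0 h6
    rwa [Real.log_exp] at h7
  have iX4 : Integrable (fun η => X β (h + k) η i - inner ℝ k (emb y)) (law d ρ) :=
    iX1.sub (integrable_const _)
  have h1 : ∫ η, Real.log (ZT β h η E) ∂(law d ρ) ≤
      ∫ η, (X β (h + k) η i - inner ℝ k (emb y) + X β h (sh i y η) (n - i)) ∂(law d ρ) :=
    integral_mono (W_7d29a1_KP.intE68 hd hρ β h hE) (iX4.add iX3) hpt
  rw [integral_add iX4 iX3, e3, integral_sub iX1 (integrable_const _), integral_const,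
    probReal_univ, one_smul] at h1
  have h2 : ∫ η, X β (h + k) η i ∂(law d ρ) = A ρ β (h + k) i := rfl
  rw [h2] at h1
  have h3 := A_le_lam hd hρ β (h + k) i
  have h4 := A_le_lam hd hρ β h (n - i)
  rw [Nat.cast_sub hi] at h4
  have h5 : (i : ℝ) * lam ρ β (h + k) ≤ i * (lam ρ β h + inner ℝ v k + W) :=
    mul_le_mul_of_nonneg_left hc (Nat.cast_nonneg i)
  have h6 : inner ℝ k (emb y) = inner ℝ k w + i * inner ℝ v k := by
    rw [hw, inner_sub_right, inner_smul_right, real_inner_comm v k]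
    ring
  have h7 : (i : ℝ) * W ≤ n * W :=
    mul_le_mul_of_nonneg_right (by exact_mod_cast hi) hW
  have h8 : r * R ≤ r * ‖w‖ := mul_le_mul_of_nonneg_left hRy.le hr
  rw [h6, hkw] at h1
  linarith

/-- **One far site, every law**: one tilt, one length. -/
theorem sinQU68 {ρ : Measure ℝ} [IsProbabilityMeasure ρ] (hρ : EM ρ) (hnc : ∀ c : ℝ, ρ {c} ≠ 1)
    {β : ℝ} (hβ : 0 < β) : ∃ C : ℝ, 1 ≤ C ∧ ∀ (d : ℕ), 0 < d →
    ∀ (h v : Vec d) (n : ℕ) (P R r W : ℝ), 1 ≤ P → 0 ≤ r → 0 ≤ R → Fn ρ β h n ≤ P →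
      Cap ρ β h v r W → ∀ (i : ℕ) (y : Site d) (E : Set (Fin n → Step d)), i ≤ n → E.Nonempty →
      (∀ s ∈ E, pos s i = y) → R < ‖emb y - (i : ℝ) • v‖ →
      ∀ u : ℝ, n * lam ρ β h - (r * R - n * W) / C + C * P < u →
        (law d ρ).real {η | u ≤ Real.log (ZT β h η E)} < 1 / 2 := by
  obtain ⟨C, hC, H⟩ := W_7d29a1_KP.medU68 hρ hnc hβ
  refine ⟨C, hC, fun d hd h v n P R r W hP hr hR hF hcap i y E hi hE hy hRy u hu => ?_⟩
  have hC0 : 0 < C := by linarith
  have m1 := mv68 hd hρ hr hR hcap hi hE hy hRy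
  rcases le_total 0 (r * R - n * W) with h0 | h0
  · exact H d hd n h E P _ hE hP h0 hF m1 u hu
  · have hcap0 : Cap ρ β h v 0 0 := by
      intro k hk
      have h1 : k = 0 := norm_le_zero_iff.1 hk
      rw [h1, add_zero, inner_zero_right]
      linarith
    have m2 := mv68 hd hρ le_rfl hR hcap0 hi hE hy hRy
    refine H d hd n h E P 0 hE hP le_rfl hF (by linarith) u ?_
    have h1 : (r * R - n * W) / C ≤ 0 := div_nonpos_of_nonpos_of_nonneg h0 hC0.le
    rw [zero_div]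
    linarith

/-- **Leaf TUBQ, every law of the problem.** -/
theorem tubQU68 {d : ℕ} (hd : 0 < d) {ρ : Measure ℝ} [IsProbabilityMeasure ρ] (hρ : EM ρ)
    (hnc : ∀ c : ℝ, ρ {c} ≠ 1) {β : ℝ} (hβ : 0 < β) : TubQ d ρ β := by
  intro ε η hε hη
  obtain ⟨C₀, hC₀, HS⟩ := sinQU68 hρ hnc hβ
  obtain ⟨C, hC, H⟩ := W_7d29a1_KP.tubE30 hd hρ (W_7d29a1_KP.halEU30 hρ hnc hβ) hε hη
  have h00 : 0 < C₀ := by linarith
  refine ⟨C₀ * (C + C₀), by nlinarith, ?_⟩
  intro h v n P R r W hn hP hr hR _ hF hE hcap hex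
  have h1 := H h v n P R ((r * R - n * W) / C₀ - C₀ * P) hn hP hF hE
    (fun i y E hi hE' hy hRy u hu => HS d hd h v n P R r W hP hr hR hF hcap i y E hi hE' hy hRy u
      (by linarith)) hex
  have hn1 : 1 ≤ (n : ℝ) ^ η := Real.one_le_rpow (by exact_mod_cast hn) hη.le
  have h2 : (r * R - n * W) / C₀ ≤ (C + C₀) * (n : ℝ) ^ η * P := by
    have h3 : C₀ * P ≤ C₀ * P * (n : ℝ) ^ η := le_mul_of_one_le_right (by positivity) hn1
    calc (r * R - n * W) / C₀ ≤ C * (n : ℝ) ^ η * P + C₀ * P := by linarith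
      _ ≤ C * (n : ℝ) ^ η * P + C₀ * P * (n : ℝ) ^ η := by linarith
      _ = (C + C₀) * (n : ℝ) ^ η * P := by ring
  rw [div_le_iff₀ h00] at h2
  have h3 : (C + C₀) * (n : ℝ) ^ η * P * C₀ = C₀ * (C + C₀) * (n : ℝ) ^ η * P := by ring
  rw [h3] at h2
  linarith

end Pool.Agent.W_7d29a1_CV
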