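import Pool.Agent.W_7d29a1_QM.Curv74
import Pool.Agent.W_7d29a1_QM.SinU68
import Pool.Agent.W_7d29a1_QM.OwnF74
import Pool.Agent.W_7d29a1_PL.NuTr32
import Pool.Agent.W_7d29a1_D2.Defs46

/-!
Theorem CURV (helper74), final form: every dimension, every law with exponential moments, every
`β > 0`, every tilt; one exponent for all tilts with the same gap.
-/

set_option autoImplicit false

namespace Pool.Agent.W_7d29a1_CV

open MeasureTheory ProbabilityTheory Filter Topology Pool.Agent.W_MP_7d29a1_pr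
  Pool.Agent.W_7d29a1_h46 Pool.Agent.W_7d29a1_h46u Pool.Agent.W_7d29a1_D2
  Pool.Agent.W_7d29a1_D2.B35 Pool.Agent.W_7d29a1_Q29 Pool.Agent.W_7d29a1_R34
  Pool.Agent.W_7d29a1_SP Pool.Agent.W_7d29a1_OW

variable {Ω : Type*} [MeasurableSpace Ω] {μ : Measure Ω} [IsProbabilityMeasure μ] {d : ℕ}
  {ρ : Measure ℝ} [IsProbabilityMeasure ρ] {ω : ℕ × Site d → Ω → ℝ} {β : ℝ}

/-- **THEOREM CURV**, no hypothesis left. -/
theorem curvAll74 (hd : 0 < d) (hρ : EM ρ) (hnc : ∀ c : ℝ, ρ {c} ≠ 1) (hβ : 0 < β) :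
    CurvD d ρ β := by
  obtain ⟨t, -, ht1, hM⟩ := W_7d29a1_NR.monU44 (d := d) hd hρ hnc hβ
  exact curvD74 hd hρ ht1 (oneD74 hd (npb98 hd hρ hnc hβ)
    (W_7d29a1_PA.corE43 hd hρ (W_7d29a1_WP.corAll98 hd hρ hnc hβ))) hM
    (W_7d29a1_NR.nrAll86 hd hρ hnc hβ) (tubQU68 hd hρ hnc hβ)

/-- **THEOREM CURV** for the exponent of the problem. -/
theorem curvT74 (hd : 0 < d) (hω : IID μ ρ ω) (hρ : EM ρ) (hnc : ∀ c : ℝ, ρ {c} ≠ 1)
    (hβ : 0 < β) : ∀ g : ℝ, 0 < g → ∃ c : ℝ, 0 < c ∧ ∀ h : Vec d,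
      lam ρ β h + g ≤ Real.log (Phi h) + Real.log (∫ t, Real.exp (β * t) ∂ρ) →
        c ≤ chiT μ β ω h ∨ ∀ (v : Vec d) (p : ℝ), UpG (lam ρ β) h v p → p < d - c := by
  intro g hg
  obtain ⟨c, hc, hc1, H⟩ := curvAll74 (d := d) hd hρ hnc hβ g hg
  refine ⟨c / 2, by linarith, fun h hgap => ?_⟩
  rcases H h hgap with h1 | h1
  · exact Or.inl (W_7d29a1_PA.chiT_ev52 hd hω hρ hc h1)
  right
  intro v p hU
  by_contra hcon
  push Not at hcon
  have hdR : (1 : ℝ) ≤ d := by exact_mod_cast hd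
  obtain ⟨C, δ, hδ, hU⟩ := hU
  obtain ⟨k, hk, hlt⟩ := h1 v |C| (min δ 1) (lt_min hδ one_pos)
  have hkδ : ‖k‖ ≤ δ := hk.trans (min_le_left _ _)
  have hk1 : ‖k‖ ≤ 1 := hk.trans (min_le_right _ _)
  have h2 := hU k hkδ
  unfold gap at h2
  have h3 : C * ‖k‖ ^ p ≤ |C| * ‖k‖ ^ ((d : ℝ) - c) := by
    refine mul_le_mul (le_abs_self C) ?_ (Real.rpow_nonneg (norm_nonneg k) _) (abs_nonneg C)
    rcases eq_or_lt_of_le (norm_nonneg k) with h4 | h4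
    · rw [← h4, Real.zero_rpow (by linarith)]
      exact Real.rpow_nonneg le_rfl _
    · exact Real.rpow_le_rpow_of_exponent_ge h4 hk1 (by linarith)
  linarith

/-- **`d = 2`**, one exponent on every ball of tilts: `c ≤ χ(h)` for the exponent of the problem at
EVERY tilt `h` of the ball where the limiting free energy has growth exponent at least `2 - c`. -/
theorem curvTwo74 (hd : d = 2) (hω : IID μ ρ ω) (hρ : EM ρ) (hnc : ∀ c : ℝ, ρ {c} ≠ 1)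
    (hβ : 0 < β) (K : ℝ) : ∃ c : ℝ, 0 < c ∧ ∀ h v : Vec d, ‖h‖ ≤ K →
      ∀ p : ℝ, 2 - c ≤ p → UpG (lam ρ β) h v p → c ≤ chiT μ β ω h := by
  subst hd
  obtain ⟨g, hg, hgap⟩ := W_7d29a1_PL.gap32 (ρ := ρ) (β := β) hρ hnc hβ K
  obtain ⟨c, hc, H⟩ := curvT74 (d := 2) two_pos hω hρ hnc hβ g hg
  refine ⟨c, hc, fun h v hh p hp hU => ?_⟩
  rcases H h (hgap h hh) with h1 | h1
  · exact h1
  · exfalso
    have h2 := h1 v p hU
    push_cast at h2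
    linarith

end Pool.Agent.W_7d29a1_CV
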