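import Pool.Agent.W_7d29a1_QM.DefsCV
import Pool.Agent.W_7d29a1_KP.SinK95

/-!
Theorem CURV: the mean of the logarithm of the weight of the walks which are at one far site at one
time (from one other tilt, at which only the mean is needed), and leaf SINQ (helper95).
-/

set_option autoImplicit false

namespace Pool.Agent.W_7d29a1_CV

open MeasureTheory ProbabilityTheory Filter Topology Pool.Agent.W_MP_7d29a1_pr
  Pool.Agent.W_7d29a1_h46 Pool.Agent.W_7d29a1_h46u Pool.Agent.W_7d29a1_D2.B35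
  Pool.Agent.W_7d29a1_Q29 Pool.Agent.W_7d29a1_R34 Pool.Agent.W_7d29a1_SP Pool.Agent.W_7d29a1_KP

variable {d : ℕ} {ρ : Measure ℝ} {β : ℝ}

/-- The weight of a class of walks which are at `y` at the time `i`, with a changed tilt. -/
lemma up95 (hd : 0 < d) (h k : Vec d) (η : Env d) {n i : ℕ} (hi : i ≤ n) {y : Site d}
    {E : Set (Fin n → Step d)} (hne : E.Nonempty) (hE : ∀ s ∈ E, pos s i = y) :
    Real.log (ZT β h η E) ≤
      X β (h + k) η i - inner ℝ k (emb y) + X β h (sh i y η) (n - i) := by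
  have h0 := ZT_pos β h η hne
  have h1 := at95 β h η hi hE
  have h4 : PP β h η i y ≤ Real.exp (X β (h + k) η i - inner ℝ k (emb y)) := by
    have h5 : PP β (h + k) η i y ≤ Z β (h + k) η i := PP_le_Z _ _ _ _ _
    rw [PP_tilt, TubV_exp hd β (h + k) η i] at h5
    have h6 : PP β h η i y = Real.exp (-inner ℝ k (emb y)) *
        (Real.exp (inner ℝ k (emb y)) * PP β h η i y) := by
      rw [← mul_assoc, ← Real.exp_add]
      simp
    rw [h6]
    calc Real.exp (-inner ℝ k (emb y)) * (Real.exp (inner ℝ k (emb y)) * PP β h η i y) ≤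
        Real.exp (-inner ℝ k (emb y)) * Real.exp (X β (h + k) η i) :=
          mul_le_mul_of_nonneg_left h5 (Real.exp_pos _).le
      _ = Real.exp (X β (h + k) η i - inner ℝ k (emb y)) := by
          rw [← Real.exp_add]
          ring_nf
  have h6 : ZT β h η E ≤
      Real.exp (X β (h + k) η i - inner ℝ k (emb y) + X β h (sh i y η) (n - i)) := by
    refine h1.trans ?_
    rw [Real.exp_add, TubV_exp hd β h (sh i y η) (n - i)]
    exact mul_le_mul_of_nonneg_right h4 (Real.exp_pos _).le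
  have h7 := Real.log_le_log h0 h6
  rwa [Real.log_exp] at h7

/-- The mean of the logarithm of the weight of the walks which are at one far site at one time
(every law, every `β`). -/
theorem mean95 [IsProbabilityMeasure ρ] (hd : 0 < d) (hρ : EM ρ) {h v : Vec d} {n i : ℕ}
    {R r W : ℝ} (hr : 0 ≤ r) (hR : 0 ≤ R) (hcap : Cap ρ β h v r W) (hi : i ≤ n) {y : Site d}
    {E : Set (Fin n → Step d)} (hne : E.Nonempty) (hE : ∀ s ∈ E, pos s i = y)
    (hy : R < ‖emb y - (i : ℝ) • v‖)
    (hint : Integrable (fun η => Real.log (ZT β h η E)) (law d ρ)) :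
    ∫ η, Real.log (ZT β h η E) ∂(law d ρ) ≤ n * lam ρ β h - (r * R - n * W) := by
  obtain ⟨w, hw⟩ : ∃ w : Vec d, w = emb y - (i : ℝ) • v := ⟨_, rfl⟩
  rw [← hw] at hy
  have hw0 : 0 < ‖w‖ := lt_of_le_of_lt hR hy
  obtain ⟨k, hk⟩ : ∃ k : Vec d, k = (r / ‖w‖) • w := ⟨_, rfl⟩
  have hkn : ‖k‖ ≤ r := by
    rw [hk, norm_smul, Real.norm_eq_abs, abs_of_nonneg (div_nonneg hr hw0.le),
      div_mul_cancel₀ _ hw0.ne']
  have hkw : inner ℝ k w = r * ‖w‖ := by
    rw [hk, inner_smul_left, real_inner_self_eq_norm_sq]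
    simp only [conj_trivial]
    field_simp
  have hW : 0 ≤ W := by
    have h1 := hcap 0 (by rw [norm_zero]; exact hr)
    rw [add_zero, inner_zero_right] at h1
    linarith
  have i1 : Integrable (fun η => X β (h + k) η i) (law d ρ) := (concU hd hρ β (h + k) i).1
  have i2 : Integrable (fun η => X β h (sh i y η) (n - i)) (law d ρ) :=
    (mp_sh i y).integrable_comp_of_integrable (concU hd hρ β h (n - i)).1
  have i3 : Integrable (fun η => X β (h + k) η i - inner ℝ k (emb y)) (law d ρ) :=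
    i1.sub (integrable_const _)
  have h1 : ∫ η, Real.log (ZT β h η E) ∂(law d ρ) ≤
      ∫ η, ((X β (h + k) η i - inner ℝ k (emb y)) + X β h (sh i y η) (n - i)) ∂(law d ρ) :=
    integral_mono hint (i3.add i2) (fun η => up95 hd h k η hi hne hE)
  have e1 : ∫ η, ((X β (h + k) η i - inner ℝ k (emb y)) + X β h (sh i y η) (n - i)) ∂(law d ρ) =
      A ρ β (h + k) i - inner ℝ k (emb y) + A ρ β h (n - i) := by
    rw [integral_add i3 i2, integral_sh i y (measurable_X β h (n - i)),
      integral_sub i1 (integrable_const _), integral_const, probReal_univ, one_smul]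
    rfl
  have h2 : ∫ η, Real.log (ZT β h η E) ∂(law d ρ) ≤
      A ρ β (h + k) i - inner ℝ k (emb y) + A ρ β h (n - i) := h1.trans (le_of_eq e1)
  have h3 := A_le_lam hd hρ β (h + k) i
  have h4 := A_le_lam hd hρ β h (n - i)
  have h5 : (i : ℝ) * lam ρ β (h + k) ≤ i * (lam ρ β h + inner ℝ v k + W) :=
    mul_le_mul_of_nonneg_left (hcap k hkn) (Nat.cast_nonneg i)
  have h6 : (i : ℝ) * W ≤ n * W := mul_le_mul_of_nonneg_right (by exact_mod_cast hi) hW
  have h7 : r * R ≤ r * ‖w‖ := mul_le_mul_of_nonneg_left hy.le hr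
  have h8 : inner ℝ k (emb y) = r * ‖w‖ + i * inner ℝ v k := by
    have e2 : emb y = w + (i : ℝ) • v := by rw [hw]; abel
    rw [e2, inner_add_right, hkw, inner_smul_right, real_inner_comm k v]
  rw [Nat.cast_sub hi] at h4
  rw [h8] at h2
  have e3 : (i : ℝ) * (lam ρ β h + inner ℝ v k + W) = i * lam ρ β h + i * inner ℝ v k + i * W := by
    ring
  have e4 : ((n : ℝ) - i) * lam ρ β h = n * lam ρ β h - i * lam ρ β h := by ring
  rw [e3] at h5
  rw [e4] at h4
  linarith

/-- **SINQ.** -/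
theorem sinQ95 [IsProbabilityMeasure ρ] (hd : 0 < d) (hρ : EM ρ) (hK : KwE d ρ β) :
    SinQ d ρ β := by
  intro h v n R r W hr hR hcap i y E hi hne hE hy u hu
  obtain ⟨h1, h2⟩ := hK h n E hne
  exact h2 u ((mean95 hd hρ hr hR hcap hi hne hE hy h1).trans_lt hu)

end Pool.Agent.W_7d29a1_CV
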