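import Pool.Agent.W_7d29a1_QM.GamT42
import Pool.Agent.W_7d29a1_QM.SinU68
import Pool.Agent.W_7d29a1_KP.MainQ16
import Pool.Agent.W_7d29a1_NR.NrAll86

/-!
The wandering exponents against the exponent of the variance and the growth of the limiting free
energy: every law, every dimension, every tilt, every velocity. Closed forms.
-/

set_option autoImplicit false

namespace Pool.Agent.W_7d29a1_CV

open MeasureTheory ProbabilityTheory Filter Topology Pool.Agent.W_MP_7d29a1_pr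
  Pool.Agent.W_7d29a1_h46 Pool.Agent.W_7d29a1_h46u Pool.Agent.W_7d29a1_D2
  Pool.Agent.W_7d29a1_D2.B35 Pool.Agent.W_7d29a1_Q29 Pool.Agent.W_7d29a1_R34
  Pool.Agent.W_7d29a1_SP Pool.Agent.W_7d29a1_KL Pool.Agent.W_7d29a1_KP Pool.Agent.W_7d29a1_NR

variable {d : ℕ} {ρ : Measure ℝ} [IsProbabilityMeasure ρ] {β : ℝ} {Ω : Type*}
  [MeasurableSpace Ω] {μ : Measure Ω} [IsProbabilityMeasure μ] {ω : ℕ × Site d → Ω → ℝ}

/-- **Every tilt, every velocity, the exponent `ν` of the problem**: if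
`L (h + r) - L h - ⟨v, r⟩ ≤ C ‖r‖ ^ p` near `0`, `p ≥ 1`, then `p ν ≤ 1 + (p - 1) χ'`. -/
theorem upTU42 (hd : 0 < d) (hω : IID μ ρ ω) (hρ : EM ρ) (hnc : ∀ c : ℝ, ρ {c} ≠ 1)
    (hβ : 0 < β) (h v : Vec d) (p : ℝ) (hp : 1 ≤ p) (hU : UpG (lam ρ β) h v p) :
    p * nuT μ β ω h v ≤ 1 + (p - 1) * chiV μ β ω h :=
  upT42 hd hω hρ (nrAll86 hd hρ hnc hβ) (tubNQU16 hd hρ hnc hβ) h v hp hU

/-- The same at the growth exponent: `G ν ≤ 1 + (G - 1) χ'`. -/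
theorem gamTU42 (hd : 0 < d) (hω : IID μ ρ ω) (hρ : EM ρ) (hnc : ∀ c : ℝ, ρ {c} ≠ 1)
    (hβ : 0 < β) (h v : Vec d) : gam (lam ρ β) h v * nuT μ β ω h v ≤
      1 + (gam (lam ρ β) h v - 1) * chiV μ β ω h :=
  gamT42 hd hω hρ (nrAll86 hd hρ hnc hβ) (tubNQU16 hd hρ hnc hβ) h v

/-- Every tilt, every velocity, the exponent of the typical displacement. -/
theorem upVU42 (hd : 0 < d) (hω : IID μ ρ ω) (hρ : EM ρ) (hnc : ∀ c : ℝ, ρ {c} ≠ 1)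
    (hβ : 0 < β) (h v : Vec d) (p : ℝ) (hp : 1 ≤ p) (hU : UpG (lam ρ β) h v p) :
    p * nuP μ β ω h v ≤ 1 + (p - 1) * chiV μ β ω h :=
  upV42 hd hω hρ (nrAll86 hd hρ hnc hβ) (tubQU68 hd hρ hnc hβ) h v hp hU

/-- The same at the growth exponent: `G ν' ≤ 1 + (G - 1) χ'`. -/
theorem gamVU42 (hd : 0 < d) (hω : IID μ ρ ω) (hρ : EM ρ) (hnc : ∀ c : ℝ, ρ {c} ≠ 1)
    (hβ : 0 < β) (h v : Vec d) : gam (lam ρ β) h v * nuP μ β ω h v ≤
      1 + (gam (lam ρ β) h v - 1) * chiV μ β ω h :=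
  gamV42 hd hω hρ (nrAll86 hd hρ hnc hβ) (tubQU68 hd hρ hnc hβ) h v

end Pool.Agent.W_7d29a1_CV
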