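import Pool.Agent.W_7d29a1_SP.DefsSP

/-!
Theorem CURV (helper74): one tilt, one length, curvature of the limiting free energy at the tilt
only. Definitions and frozen statements of the leaves.
-/

set_option autoImplicit false

namespace Pool.Agent.W_7d29a1_CV

open MeasureTheory ProbabilityTheory Filter Topology Pool.Agent.W_MP_7d29a1_pr
  Pool.Agent.W_7d29a1_h46 Pool.Agent.W_7d29a1_h46u Pool.Agent.W_7d29a1_D2.B35
  Pool.Agent.W_7d29a1_Q29 Pool.Agent.W_7d29a1_R34 Pool.Agent.W_7d29a1_SP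

/-- In the ball of radius `r` around `h` the limiting free energy is at most its affine part with
slope `v` plus `W`. -/
def Cap {d : ℕ} (ρ : Measure ℝ) (β : ℝ) (h v : Vec d) (r W : ℝ) : Prop :=
  ∀ k : Vec d, ‖k‖ ≤ r → lam ρ β (h + k) ≤ lam ρ β h + inner ℝ v k + W

section Leaves

variable (d : ℕ) (ρ : Measure ℝ) (β : ℝ)

/-- KWE (laws in `GC`): the median of the logarithm of the weight of a set of walks is at most its
mean. -/
def KwE : Prop := ∀ (h : Vec d) (n : ℕ) (E : Set (Fin n → Step d)), E.Nonempty →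
  Integrable (fun η => Real.log (ZT β h η E)) (law d ρ) ∧
  ∀ u : ℝ, ∫ η, Real.log (ZT β h η E) ∂(law d ρ) < u →
    (law d ρ).real {η | u ≤ Real.log (ZT β h η E)} < 1 / 2

/-- SINQ (from `KwE`): the walks which are at one far site at one time. -/
def SinQ : Prop := ∀ (h v : Vec d) (n : ℕ) (R r W : ℝ), 0 ≤ r → 0 ≤ R → Cap ρ β h v r W →
  ∀ (i : ℕ) (y : Site d) (E : Set (Fin n → Step d)), i ≤ n → E.Nonempty →
    (∀ s ∈ E, pos s i = y) → R < ‖emb y - (i : ℝ) • v‖ →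
    ∀ u : ℝ, n * lam ρ β h - (r * R - n * W) < u →
      (law d ρ).real {η | u ≤ Real.log (ZT β h η E)} < 1 / 2

/-- TUBQ (from `SinQ` and the halving lemma for sets of walks): one tilt, one length. -/
def TubQ : Prop := ∀ ε η : ℝ, 0 < ε → 0 < η → ∃ C : ℝ, 1 ≤ C ∧
  ∀ (h v : Vec d) (n : ℕ) (P R r W : ℝ), 1 ≤ n → 1 ≤ P → 0 ≤ r → 0 ≤ R → 0 ≤ W →
    Fn ρ β h n ≤ P → En ρ β h n ≤ P → Cap ρ β h v r W →
    ε < ∫ η, (1 - PolT β h η (tube d n v R)) ∂(law d ρ) →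
      r * R ≤ n * W + C * (n : ℝ) ^ η * P

/-- CURVD: at every tilt with the gap `g`, the variance is at least `n ^ c` at all large `n`, or the
limiting free energy is not below any `L(h) + ⟨v, k⟩ + M |k| ^ (d - c)` near `h`. (For `d = 2`: it
is infinitely curved at `h`.) -/
def CurvD : Prop := ∀ g : ℝ, 0 < g → ∃ c : ℝ, 0 < c ∧ c ≤ 1 ∧ ∀ h : Vec d,
  lam ρ β h + g ≤ Real.log (Phi h) + Real.log (∫ t, Real.exp (β * t) ∂ρ) →
    (∀ᶠ n : ℕ in atTop, (n : ℝ) ^ c ≤ Va ρ β h n) ∨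
    ∀ (v : Vec d) (M δ : ℝ), 0 < δ → ∃ k : Vec d, ‖k‖ ≤ δ ∧
      lam ρ β h + inner ℝ v k + M * ‖k‖ ^ ((d : ℝ) - c) < lam ρ β (h + k)

end Leaves

end Pool.Agent.W_7d29a1_CV
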