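import Pool.Agent.W_7d29a1_NR.Law84

/-!
The median of the free energy is at most its mean (laws in `GC`).
-/

namespace Pool.Agent.W_7d29a1_QM.Kw74

open MeasureTheory ProbabilityTheory Filter Topology Pool.Agent.W_MP_7d29a1_pr
  Pool.Agent.W_7d29a1_h46 Pool.Agent.W_7d29a1_h46u Pool.Agent.W_7d29a1_D2.B35
  Pool.Agent.W_7d29a1_Q29 Pool.Agent.W_7d29a1_R34 Pool.Agent.W_7d29a1_SP Pool.Agent.W_7d29a1_NR

lemma Phi_zero74 : Ehr.Phi 0 = 1 / 2 := by
  have := A84.Phi_add 0
  rw [neg_zero] at this
  linarith

/-- A variable whose upper tail at `s + t` dominates its lower tail at `s - t` has mean at least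
`s`. -/
lemma mean_ge {Ω : Type*} [MeasurableSpace Ω] {P : Measure Ω} [IsProbabilityMeasure P] {Y : Ω → ℝ}
    (hm : Measurable Y) (hi : Integrable Y P) {s : ℝ}
    (h : ∀ t : ℝ, 0 < t → P {w | Y w ≤ s - t} ≤ P {w | s + t < Y w}) : s ≤ ∫ w, Y w ∂P := by
  have m1 : Measurable fun w => max (Y w - s) 0 := (hm.sub_const s).max measurable_const
  have m2 : Measurable fun w => max (s - Y w) 0 := (measurable_const.sub hm).max measurable_const
  have i1 : Integrable (fun w => max (Y w - s) 0) P := (hi.sub (integrable_const s)).pos_part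
  have i2 : Integrable (fun w => max (s - Y w) 0) P := ((integrable_const s).sub hi).pos_part
  have l1 := lintegral_eq_lintegral_meas_lt P (f := fun w => max (Y w - s) 0)
    (Eventually.of_forall fun w => le_max_right _ _) m1.aemeasurable
  have l2 := lintegral_eq_lintegral_meas_le P (f := fun w => max (s - Y w) 0)
    (Eventually.of_forall fun w => le_max_right _ _) m2.aemeasurable
  have l3 : ∫⁻ w, ENNReal.ofReal (max (s - Y w) 0) ∂P ≤
      ∫⁻ w, ENNReal.ofReal (max (Y w - s) 0) ∂P := by
    rw [l1, l2]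
    refine setLIntegral_mono' measurableSet_Ioi fun t ht => ?_
    have ht0 : 0 < t := ht
    refine le_trans (measure_mono fun w hw => ?_) ((h t ht0).trans (measure_mono fun w hw => ?_))
    · have h1 : t ≤ max (s - Y w) 0 := hw
      show Y w ≤ s - t
      rcases le_max_iff.1 h1 with h2 | h2 <;> linarith
    · have h1 : s + t < Y w := hw
      show t < max (Y w - s) 0
      exact lt_max_of_lt_left (by linarith)
  have e1 := ofReal_integral_eq_lintegral_ofReal i1
    (Eventually.of_forall fun w => le_max_right (Y w - s) 0)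
  have e2 := ofReal_integral_eq_lintegral_ofReal i2
    (Eventually.of_forall fun w => le_max_right (s - Y w) 0)
  rw [← e1, ← e2] at l3
  have l4 := (ENNReal.ofReal_le_ofReal_iff
    (integral_nonneg fun w => le_max_right (Y w - s) 0)).1 l3
  have e3 : ∫ w, Y w ∂P - s =
      ∫ w, max (Y w - s) 0 ∂P - ∫ w, max (s - Y w) 0 ∂P := by
    rw [← integral_sub i1 i2]
    have : ∀ w, max (Y w - s) 0 - max (s - Y w) 0 = Y w - s := by
      intro w
      rcases le_total (Y w) s with h1 | h1
      · rw [max_eq_right (by linarith), max_eq_left (by linarith)]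
        ring
      · rw [max_eq_left (by linarith), max_eq_right (by linarith)]
        ring
    simp only [this]
    rw [integral_sub hi (integrable_const s)]
    simp
  linarith

variable {d : ℕ} {ρ : Measure ℝ} [IsProbabilityMeasure ρ]

/-- Ehrhard for the free energy itself. -/
lemma luckX (hd : 0 < d) (hG : GC ρ) {β : ℝ} (hβ : 0 ≤ β) (h : Vec d) (m : ℕ) {a b s0 s1 t : ℝ}
    (ht : 0 ≤ t) (h0 : Ehr.Phi a ≤ (law d ρ).real {η | X β h η m ≤ s0})
    (h1 : (law d ρ).real {η | X β h η m ≤ s1} ≤ Ehr.Phi b) :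
    (law d ρ).real {η | X β h η m ≤ s1 + t * (s1 - s0)} ≤ Ehr.Phi (b + t * (b - a)) := by
  have e : ∀ η : Env d, L84.WD β h 0 m {(0 : Site d)} (fun _ => 1) η = X β h η m := by
    intro η
    unfold L84.WD
    rw [Finset.sum_singleton, one_mul]
    have : sh 0 (0 : Site d) η = η := by
      funext p
      unfold sh
      simp
    rw [this, Real.log_exp]
  have key := L84.luckW84 (ρ := ρ) hd hG hβ h 0 m (D := {(0 : Site d)}) (Finset.singleton_nonempty _)
    (w := fun _ => 1) (fun _ _ => one_pos) (a := a) (b := b) (s0 := s0) (s1 := s1) ht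
  simp only [e] at key
  exact key h0 h1

/-- **The median is at most the mean.** -/
theorem kw74 (hd : 0 < d) (hG : GC ρ) (hρ : EM ρ) {β : ℝ} (hβ : 0 ≤ β) (h : Vec d) (m : ℕ) {u : ℝ}
    (hu : 0 < u) : (law d ρ).real {η | A ρ β h m + u ≤ X β h η m} < 1 / 2 := by
  by_contra hcon
  push Not at hcon
  have mX := measurable_X (d := d) β h m
  have iX : Integrable (fun η => X β h η m) (law d ρ) := (concU hd hρ β h m).1
  have key : A ρ β h m + u / 2 ≤ ∫ η, X β h η m ∂(law d ρ) := by
    refine mean_ge mX iX fun t ht => ?_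
    rcases eq_or_ne ((law d ρ) {η | X β h η m ≤ A ρ β h m + u / 2 - t}) 0 with h0 | h0
    · rw [h0]
      exact bot_le
    have hp : 0 < (law d ρ).real {η | X β h η m ≤ A ρ β h m + u / 2 - t} :=
      ENNReal.toReal_pos h0 (measure_ne_top _ _)
    have h1 : (law d ρ).real {η | X β h η m ≤ A ρ β h m + u / 2} ≤ Ehr.Phi 0 := by
      rw [Phi_zero74]
      have h2 : (law d ρ).real {η | A ρ β h m + u ≤ X β h η m}ᶜ =
          1 - (law d ρ).real {η | A ρ β h m + u ≤ X β h η m} :=
        probReal_compl_eq_one_sub (measurableSet_le measurable_const mX)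
      have h3 : (law d ρ).real {η | X β h η m ≤ A ρ β h m + u / 2} ≤
          (law d ρ).real {η | A ρ β h m + u ≤ X β h η m}ᶜ := by
        refine measureReal_mono fun η hη => ?_
        have hη' : X β h η m ≤ A ρ β h m + u / 2 := hη
        show ¬ (A ρ β h m + u ≤ X β h η m)
        push Not
        linarith
      linarith
    have h4 : (law d ρ).real {η | X β h η m ≤ A ρ β h m + u / 2 - t} < 1 := by
      have h5 : (law d ρ).real {η | X β h η m ≤ A ρ β h m + u / 2 - t} ≤
          (law d ρ).real {η | X β h η m ≤ A ρ β h m + u / 2} := by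
        refine measureReal_mono fun η hη => ?_
        have hη' : X β h η m ≤ A ρ β h m + u / 2 - t := hη
        show X β h η m ≤ A ρ β h m + u / 2
        linarith
      rw [Phi_zero74] at h1
      linarith
    obtain ⟨a, ha⟩ := Ehr.exists_Phi hp h4
    have h6 := luckX (ρ := ρ) hd hG hβ h m (a := a) (b := 0)
      (s0 := A ρ β h m + u / 2 - t) (s1 := A ρ β h m + u / 2) (t := 1) zero_le_one ha.le h1
    have e1 : A ρ β h m + u / 2 + 1 * (A ρ β h m + u / 2 - (A ρ β h m + u / 2 - t)) =
        A ρ β h m + u / 2 + t := by ring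
    have e2 : (0 : ℝ) + 1 * (0 - a) = -a := by ring
    rw [e1, e2] at h6
    have h7 := A84.Phi_add a
    have h8 : (law d ρ).real {η | X β h η m ≤ A ρ β h m + u / 2 + t}ᶜ =
        1 - (law d ρ).real {η | X β h η m ≤ A ρ β h m + u / 2 + t} :=
      probReal_compl_eq_one_sub (measurableSet_le mX measurable_const)
    have h9 : {η : Env d | X β h η m ≤ A ρ β h m + u / 2 + t}ᶜ =
        {η | A ρ β h m + u / 2 + t < X β h η m} := by
      ext η
      simp only [Set.mem_compl_iff, Set.mem_ofPred_eq, not_le]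
    rw [h9] at h8
    have h10 : (law d ρ).real {η | X β h η m ≤ A ρ β h m + u / 2 - t} ≤
        (law d ρ).real {η | A ρ β h m + u / 2 + t < X β h η m} := by
      rw [h8, ← ha]
      linarith
    exact (ENNReal.toReal_le_toReal (measure_ne_top _ _) (measure_ne_top _ _)).1 h10
  have : ∫ η, X β h η m ∂(law d ρ) = A ρ β h m := rfl
  linarith

/-- The free energy is below its mean plus `u` with probability at least one half. -/
theorem kw74' (hd : 0 < d) (hG : GC ρ) (hρ : EM ρ) {β : ℝ} (hβ : 0 ≤ β) (h : Vec d) (m : ℕ) {u : ℝ}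
    (hu : 0 < u) : 1 / 2 ≤ (law d ρ).real {η | X β h η m ≤ A ρ β h m + u} := by
  have h1 := kw74 (ρ := ρ) hd hG hρ hβ h m hu
  have h2 : (law d ρ).real {η | A ρ β h m + u ≤ X β h η m}ᶜ =
      1 - (law d ρ).real {η | A ρ β h m + u ≤ X β h η m} :=
    probReal_compl_eq_one_sub (measurableSet_le measurable_const (measurable_X β h m))
  have h3 : (law d ρ).real {η | A ρ β h m + u ≤ X β h η m}ᶜ ≤
      (law d ρ).real {η | X β h η m ≤ A ρ β h m + u} := by
    refine measureReal_mono fun η hη => ?_
    have hη' : ¬ (A ρ β h m + u ≤ X β h η m) := hη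
    push Not at hη'
    exact hη'.le
  linarith

end Pool.Agent.W_7d29a1_QM.Kw74
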