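import Pool.Agent.W_7d29a1_QM.DefsCV
import Pool.Agent.W_7d29a1_QM.Kw74
import Pool.Agent.W_7d29a1_V.ConcV16

/-!
Leaf KWE of theorem CURV (helper74): the median of the logarithm of the weight of a set of walks is
at most its mean (laws in `GC`).
-/

set_option autoImplicit false

namespace Pool.Agent.W_7d29a1_CV

open MeasureTheory ProbabilityTheory Filter Topology Pool.Agent.W_MP_7d29a1_pr
  Pool.Agent.W_7d29a1_h46 Pool.Agent.W_7d29a1_h46u Pool.Agent.W_7d29a1_D2.B35
  Pool.Agent.W_7d29a1_Q29 Pool.Agent.W_7d29a1_R34 Pool.Agent.W_7d29a1_SP Pool.Agent.W_7d29a1_NR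
  Pool.Agent.W_7d29a1_V

namespace K74

/-- **Kwapien**, abstract form. -/
lemma kwAbs {Ω : Type*} [MeasurableSpace Ω] {P : Measure Ω} [IsProbabilityMeasure P] {W : Ω → ℝ}
    (hW : Measurable W) (hi : Integrable W P)
    (hl : ∀ a b s0 s1 t : ℝ, 0 ≤ t → Ehr.Phi a ≤ P.real {ω | W ω ≤ s0} →
      P.real {ω | W ω ≤ s1} ≤ Ehr.Phi b →
      P.real {ω | W ω ≤ s1 + t * (s1 - s0)} ≤ Ehr.Phi (b + t * (b - a)))
    {u : ℝ} (hu : ∫ ω, W ω ∂P < u) : P.real {ω | u ≤ W ω} < 1 / 2 := by
  by_contra hcon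
  push Not at hcon
  obtain ⟨m, hm⟩ : ∃ m : ℝ, m = (∫ ω, W ω ∂P + u) / 2 := ⟨_, rfl⟩
  have hmu : m < u := by rw [hm]; linarith
  have hmI : ∫ ω, W ω ∂P < m := by rw [hm]; linarith
  have key : m ≤ ∫ ω, W ω ∂P := by
    refine W_7d29a1_QM.Kw74.mean_ge hW hi fun t ht => ?_
    rcases eq_or_ne (P {ω | W ω ≤ m - t}) 0 with h0 | h0
    · rw [h0]
      exact bot_le
    have hp : 0 < P.real {ω | W ω ≤ m - t} := ENNReal.toReal_pos h0 (measure_ne_top _ _)
    have h1 : P.real {ω | W ω ≤ m} ≤ Ehr.Phi 0 := by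
      rw [W_7d29a1_QM.Kw74.Phi_zero74]
      have h2 : P.real {ω | u ≤ W ω}ᶜ = 1 - P.real {ω | u ≤ W ω} :=
        probReal_compl_eq_one_sub (measurableSet_le measurable_const hW)
      have h3 : P.real {ω | W ω ≤ m} ≤ P.real {ω | u ≤ W ω}ᶜ := by
        refine measureReal_mono fun ω hω => ?_
        have hω' : W ω ≤ m := hω
        show ¬ (u ≤ W ω)
        push Not
        linarith
      linarith
    have h4 : P.real {ω | W ω ≤ m - t} < 1 := by
      have h5 : P.real {ω | W ω ≤ m - t} ≤ P.real {ω | W ω ≤ m} := by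
        refine measureReal_mono fun ω hω => ?_
        have hω' : W ω ≤ m - t := hω
        show W ω ≤ m
        linarith
      rw [W_7d29a1_QM.Kw74.Phi_zero74] at h1
      linarith
    obtain ⟨a, ha⟩ := Ehr.exists_Phi hp h4
    have h6 := hl a 0 (m - t) m 1 zero_le_one ha.le h1
    have e1 : m + 1 * (m - (m - t)) = m + t := by ring
    have e2 : (0 : ℝ) + 1 * (0 - a) = -a := by ring
    rw [e1, e2] at h6
    have h7 := A84.Phi_add a
    have h8 : P.real {ω | W ω ≤ m + t}ᶜ = 1 - P.real {ω | W ω ≤ m + t} :=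
      probReal_compl_eq_one_sub (measurableSet_le hW measurable_const)
    have h9 : {ω | W ω ≤ m + t}ᶜ = {ω | m + t < W ω} := by
      ext ω
      simp only [Set.mem_compl_iff, Set.mem_ofPred_eq, not_le]
    rw [h9] at h8
    have h10 : P.real {ω | W ω ≤ m - t} ≤ P.real {ω | m + t < W ω} := by
      rw [h8, ← ha]
      linarith
    exact (ENNReal.toReal_le_toReal (measure_ne_top _ _) (measure_ne_top _ _)).1 h10
  linarith

variable {d : ℕ} {ρ : Measure ℝ}

lemma ztPos74 {n : ℕ} (β : ℝ) (h : Vec d) (η : Env d) {E : Set (Fin n → Step d)}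
    (hE : E.Nonempty) : 0 < ZT β h η E := by
  classical
  obtain ⟨s, hs⟩ := hE
  unfold ZT
  refine Finset.sum_pos' (fun w _ => ?_) ⟨s, Finset.mem_univ _, ?_⟩
  · split_ifs
    · exact (Real.exp_pos _).le
    · exact le_rfl
  · rw [if_pos hs]
    exact Real.exp_pos _

/-- The weight of a set of walks as a free energy of a finite family. -/
lemma ls74 {n : ℕ} (β : ℝ) (h : Vec d) (E : Set (Fin n → Step d)) [Fintype {s // s ∈ E}]
    (η : Env d) : Real.log (ZT β h η E) =
      L84.LS β (fun z : {s // s ∈ E} => inner ℝ h (emb (pos z.1 n)))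
        (fun z (i : Fin n) => ((i : ℕ) + 1, pos z.1 ((i : ℕ) + 1))) η := by
  classical
  unfold L84.LS
  congr 1
  have h1 : ∑ z : {s // s ∈ E}, Real.exp (inner ℝ h (emb (pos z.1 n)) +
      β * ∑ i : Fin n, η ((i : ℕ) + 1, pos z.1 ((i : ℕ) + 1))) =
      ∑ s ∈ (Finset.univ : Finset (Fin n → Step d)).filter (fun s => s ∈ E),
        Real.exp (inner ℝ h (emb (pos s n)) +
          β * ∑ i : Fin n, η ((i : ℕ) + 1, pos s ((i : ℕ) + 1))) := by
    symm
    exact Finset.sum_subtype _ (fun s => by simp) _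
  rw [h1, Finset.sum_filter]
  unfold ZT wgt energy
  refine Finset.sum_congr rfl fun w _ => ?_
  rfl

lemma meas74 {n : ℕ} (β : ℝ) (h : Vec d) (E : Set (Fin n → Step d)) :
    Measurable fun η : Env d => Real.log (ZT β h η E) := by
  classical
  have : Fintype {s // s ∈ E} := Fintype.ofFinite _
  simp only [ls74 β h E]
  exact L84.measurable_LS β _ _

/-- Integrability. -/
lemma integ74 [IsProbabilityMeasure ρ] (hd : 0 < d) (hρ : EM ρ) {n : ℕ} (β : ℝ) (h : Vec d)
    {E : Set (Fin n → Step d)} (hE : E.Nonempty) :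
    Integrable (fun η => Real.log (ZT β h η E)) (law d ρ) := by
  classical
  obtain ⟨s, hs⟩ := hE
  have i1 : Integrable (fun η : Env d => inner ℝ h (emb (pos s n)) + β * energy η s) (law d ρ) :=
    (integrable_const _).add ((ConcV16.int_energy (d := d) hρ s).1.const_mul β)
  have i2 : Integrable (fun η : Env d => X β h η n) (law d ρ) := (concU hd hρ β h n).1
  refine (i1.abs.add i2.abs).mono' (meas74 β h E).aestronglyMeasurable
    (Eventually.of_forall fun η => ?_)
  rw [Real.norm_eq_abs]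
  have h1 : Real.exp (inner ℝ h (emb (pos s n)) + β * energy η s) ≤ ZT β h η E := by
    have h3 := Finset.single_le_sum (f := fun w : Fin n → Step d => if w ∈ E then wgt β h η w else 0)
      (s := Finset.univ) (fun w _ => by
        show (0 : ℝ) ≤ if w ∈ E then wgt β h η w else 0
        split_ifs
        · exact (wgt_pos _ _ _ _).le
        · exact le_rfl) (Finset.mem_univ s)
    rw [if_pos hs] at h3
    exact h3
  have h2 : ZT β h η E ≤ Z β h η n := by
    unfold Z ZT
    refine Finset.sum_le_sum fun w _ => ?_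
    rw [if_pos (Set.mem_univ w)]
    split_ifs
    · exact le_rfl
    · exact (wgt_pos _ _ _ _).le
  have h3 := Real.log_le_log (Real.exp_pos _) h1
  rw [Real.log_exp] at h3
  have h4 := Real.log_le_log (ztPos74 β h η ⟨s, hs⟩) h2
  have h5 : Real.log (Z β h η n) = X β h η n := rfl
  rw [h5] at h4
  show |Real.log (ZT β h η E)| ≤ |inner ℝ h (emb (pos s n)) + β * energy η s| + |X β h η n|
  have h6 := neg_abs_le (inner ℝ h (emb (pos s n)) + β * energy η s)
  have h7 := le_abs_self (X β h η n)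
  have h8 := abs_nonneg (inner ℝ h (emb (pos s n)) + β * energy η s)
  have h9 := abs_nonneg (X β h η n)
  rw [abs_le]
  constructor <;> linarith

end K74

open K74 in
/-- **KWE.** -/
theorem kwE74 {d : ℕ} {ρ : Measure ℝ} [IsProbabilityMeasure ρ] (hd : 0 < d) (hρ : EM ρ)
    (hG : GC ρ) {β : ℝ} (hβ : 0 ≤ β) : KwE d ρ β := by
  classical
  intro h n E hE
  refine ⟨integ74 hd hρ β h hE, fun u hu => ?_⟩
  have : Fintype {s // s ∈ E} := Fintype.ofFinite _
  have : Nonempty {s // s ∈ E} := hE.to_subtype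
  refine kwAbs (meas74 β h E) (integ74 hd hρ β h hE) (fun a b s0 s1 t ht h0 h1 => ?_) hu
  simp only [ls74 β h E] at h0 h1 ⊢
  exact L84.luckS84 hG hβ _ _ ht h0 h1

end Pool.Agent.W_7d29a1_CV
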