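import Pool.Agent.W_7d29a1_PL.BudP91
import Pool.Agent.W_7d29a1_SW.DefsW
import Pool.Agent.W_7d29a1_Q29.Brid72
import Pool.Agent.W_7d29a1_R34.Piece13

/-!
The budget at one length, in every dimension, from balls of radius `w` with `w ^ d ≤ K n` and the
variance (helper21).
-/

set_option autoImplicit false

namespace Pool.Agent.W_7d29a1_QM

open MeasureTheory ProbabilityTheory Filter Topology Pool.Agent.W_MP_7d29a1_pr
  Pool.Agent.W_7d29a1_h46 Pool.Agent.W_7d29a1_h46u Pool.Agent.W_7d29a1_D2.B35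
  Pool.Agent.W_7d29a1_Q29 Pool.Agent.W_7d29a1_R34 Pool.Agent.W_7d29a1_SP Pool.Agent.W_7d29a1_SD
  Pool.Agent.W_7d29a1_SW Pool.Agent.W_7d29a1_PL

variable {d : ℕ}

/-- The number of the sites of a ball, every dimension. -/
lemma card_bal21 (v : Vec d) (t : ℕ) {w : ℝ} (hw : 1 ≤ w) :
    ((bal v t w).card : ℝ) ≤ 3 ^ d * w ^ d := by
  classical
  have h1 : bal v t w ⊆ ballW ((t : ℝ) • v) w := by
    intro y hy
    exact mem_ballW (Finset.mem_filter.1 hy).2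
  have h2 : ((bal v t w).card : ℝ) ≤ ((ballW ((t : ℝ) • v) w).card : ℝ) := by
    exact_mod_cast Finset.card_le_card h1
  have h3 := card_ballW (d := d) ((t : ℝ) • v) (w := w) (by linarith)
  have h4 : (2 * w + 1) ^ d ≤ (3 * w) ^ d := pow_le_pow_left₀ (by positivity) (by linarith) d
  have h5 : (3 * w) ^ d = 3 ^ d * w ^ d := mul_pow _ _ _
  linarith

open Classical in
/-- **The budget at one length**, every dimension. -/
theorem bdD21 {ρ : Measure ℝ} [IsProbabilityMeasure ρ] (hd : 0 < d) {β C₀ : ℝ} (hC₀ : 0 ≤ C₀)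
    {h v : Vec d} {n : ℕ} (hn : 10 ≤ n) {K w : ℝ} (hK : 1 ≤ K) (hw : 1 ≤ w)
    (hNP : ∑ t ∈ Finset.Icc 1 n, St ρ β h n t ≤ C₀ * Va ρ β h n)
    (hloc : ∀ t : ℕ, t ≤ n → ∫ η, (1 - ∑ y ∈ bal v t w, Qt β h n t y η) ∂(law d ρ) ≤ 1 / 8)
    (hvar : Va ρ β h n ≤ K) (hwn : w ^ d ≤ K * n) :
    Bd ρ β h n (2 * Real.log K + (2 * Real.log 2 + Real.log (3 ^ d * (200 * (C₀ + 1))))) 1 := by
  intro I B θ D hB hD hJ
  have hnR : (10 : ℝ) ≤ n := by exact_mod_cast hn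
  have hn0 : (0 : ℝ) < n := by linarith
  have hV0 : 0 < (C₀ + 1) * K := by positivity
  have hV : ∑ t ∈ Finset.Icc 1 n, St ρ β h n t ≤ (C₀ + 1) * K := by
    refine hNP.trans ?_
    have h1 : C₀ * Va ρ β h n ≤ C₀ * K := mul_le_mul_of_nonneg_left hvar hC₀
    linarith
  have hT := B91.timeT91 hn (fun t => St ρ β h n t) (fun t => St_nonneg13 ρ β h n t) hV0 hV
  set T : Finset ℕ := (Finset.range n).filter (fun t => (n : ℝ) / 1000 ≤ t ∧
    (n : ℝ) / 20 ≤ t ∧ St ρ β h n t ≤ 200 * ((C₀ + 1) * K) / n) with hTd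
  have hN0 : 0 ≤ (3 : ℝ) ^ d * w ^ d := by positivity
  have h1 := B91.budT91 (ρ := ρ) hd (β := β) (h := h) (n := n) (by omega) (N := 3 ^ d * w ^ d)
    (x := 200 * ((C₀ + 1) * K) / n) T (Finset.filter_subset _ _) hT (fun t => bal v t w)
    (fun t _ => card_bal21 v t hw) (fun t ht => (Finset.mem_filter.1 ht).2.2.2)
    (fun t ht => hloc t (Finset.mem_range.1 (Finset.mem_filter.1 ht).1).le) hN0 I B θ D hB hJ
  have h3d : (1 : ℝ) ≤ 3 ^ d := one_le_pow₀ (by norm_num)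
  obtain ⟨c, hc⟩ : ∃ c : ℝ, c = 3 ^ d * (200 * (C₀ + 1)) := ⟨_, rfl⟩
  have hc1 : 1 ≤ c := by
    rw [hc]
    nlinarith
  have hY : 1 ≤ c * K ^ 2 := by nlinarith
  have hNx : 3 ^ d * w ^ d * (200 * ((C₀ + 1) * K) / n) ≤ c * K ^ 2 := by
    have h2 : 3 ^ d * w ^ d * (200 * ((C₀ + 1) * K) / n) =
        (3 ^ d * (200 * (C₀ + 1)) * K / n) * w ^ d := by ring
    rw [h2, ← hc]
    have h3 : (c * K / n) * w ^ d ≤ (c * K / n) * (K * n) :=
      mul_le_mul_of_nonneg_left hwn (by positivity)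
    have h4 : (c * K / n) * (K * n) = c * K ^ 2 := by
      field_simp
    linarith
  have h2 := B91.logB91 hD I.card hY hNx
  have h3 : Real.log (c * K ^ 2) = Real.log c + 2 * Real.log K := by
    rw [Real.log_mul (by linarith) (by positivity), Real.log_pow]
    push_cast
    ring
  rw [h3] at h2
  rw [← hc]
  linarith

end Pool.Agent.W_7d29a1_QM
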