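import Pool.Agent.W_7d29a1_QM.DefsCV
import Pool.Agent.W_7d29a1_QM.Own74
import Pool.Agent.W_7d29a1_UC.TrC19

/-!
Theorem CURV (helper74): the final step, from the core at one scale and the tube at one length.
-/

set_option autoImplicit false

namespace Pool.Agent.W_7d29a1_CV

open MeasureTheory ProbabilityTheory Filter Topology Pool.Agent.W_MP_7d29a1_pr
  Pool.Agent.W_7d29a1_h46 Pool.Agent.W_7d29a1_h46u Pool.Agent.W_7d29a1_D2.B35
  Pool.Agent.W_7d29a1_Q29 Pool.Agent.W_7d29a1_R34 Pool.Agent.W_7d29a1_SP Pool.Agent.W_7d29a1_NR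
  Pool.Agent.W_7d29a1_OW Pool.Agent.W_7d29a1_OW.O74

/-- A small variance at one length: the fluctuations at all lengths up to `4 N`,
`N = ⌊n ^ (1 / 16)⌋`. -/
theorem small74 {d : ℕ} {ρ : Measure ℝ} [IsProbabilityMeasure ρ] (hd : 0 < d) (hρ : EM ρ)
    {β t : ℝ} (ht : t < 1) (hM : MonP d ρ β t) (hN : NrS d ρ β) {c₁ : ℝ} (hc₁ : 0 < c₁) :
    ∃ c : ℝ, 0 < c ∧ c ≤ 1 / 64 ∧ ∀ (h : Vec d) (n₁ : ℕ), ∃ n₀ : ℕ, ∀ n : ℕ, n₀ ≤ n →
      Va ρ β h n ≤ (n : ℝ) ^ c → n₁ ≤ ⌊(n : ℝ) ^ (1 / 16 : ℝ)⌋₊ ∧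
        ∀ k : ℕ, k ≤ 4 * ⌊(n : ℝ) ^ (1 / 16 : ℝ)⌋₊ →
          Va ρ β h k ≤ ((⌊(n : ℝ) ^ (1 / 16 : ℝ)⌋₊ : ℕ) : ℝ) ^ c₁ ∧
          En ρ β h k ≤ ((⌊(n : ℝ) ^ (1 / 16 : ℝ)⌋₊ : ℕ) : ℝ) ^ c₁ := by
  obtain ⟨θ, hθ, hL⟩ := corL11 hd hρ hN
  obtain ⟨C₁, hC₁, hMon⟩ := hM
  obtain ⟨c, hc⟩ : ∃ c : ℝ, c = min (c₁ / 128) (1 / 64) := ⟨_, rfl⟩
  have hc0 : 0 < c := by
    rw [hc]
    exact lt_min (by linarith) (by norm_num)
  have hcc : c ≤ c₁ / 128 := by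
    rw [hc]
    exact min_le_left _ _
  have hc64 : c ≤ 1 / 64 := by
    rw [hc]
    exact min_le_right _ _
  refine ⟨c, hc0, hc64, fun h n₁ => ?_⟩
  obtain ⟨C, hC⟩ := hL h
  obtain ⟨θ', hθ'⟩ : ∃ θ' : ℝ, θ' = max θ (1 / 2) := ⟨_, rfl⟩
  have hθ'1 : θ' < 1 := by
    rw [hθ']
    exact max_lt hθ (by norm_num)
  have hθ'0 : 0 ≤ θ' := by
    rw [hθ']
    exact le_trans (by norm_num) (le_max_right _ _)
  have hθθ : θ ≤ θ' := by
    rw [hθ']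
    exact le_max_left _ _
  have t1 : Tendsto (fun n : ℕ => (n : ℝ) ^ (c / 2)) atTop atTop :=
    (tendsto_rpow_atTop (by positivity)).comp tendsto_natCast_atTop_atTop
  obtain ⟨n₂, hn₂⟩ := eventually_atTop.1 (((len74 n₁).and
    (WT41.subT41 ht C₁ (ε := c / 2) (by positivity))).and
    ((WT41.subT41 hθ'1 (2 * |C|) (ε := c / 2) (by positivity)).and
    (t1.eventually_ge_atTop (max 2 (2 * C₁)))))
  refine ⟨max n₂ 1, fun n hn hV => ?_⟩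
  obtain ⟨⟨⟨hNn, hNr, hN3, hN1⟩, hs1⟩, hs2, hs3⟩ := hn₂ n ((le_max_left _ _).trans hn)
  obtain ⟨N, hNd⟩ : ∃ N : ℕ, N = ⌊(n : ℝ) ^ (1 / 16 : ℝ)⌋₊ := ⟨_, rfl⟩
  rw [← hNd] at hNn hNr hN3 hN1
  have hn1 : 1 ≤ n := (le_max_right _ _).trans hn
  have hnr : (1 : ℝ) ≤ n := by exact_mod_cast hn1
  have hn0 : (0 : ℝ) < n := by linarith
  have h4N : 4 * N ≤ n := (Nat.le_self_pow (by norm_num) _).trans hN3
  have hnc : 1 ≤ (n : ℝ) ^ c := Real.one_le_rpow hnr hc0.le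
  have hnc2 : 0 < (n : ℝ) ^ (c / 2) := Real.rpow_pos_of_pos hn0 _
  have h2 : 2 ≤ (n : ℝ) ^ (c / 2) := (le_max_left _ _).trans hs3
  have h2C : 2 * C₁ ≤ (n : ℝ) ^ (c / 2) := (le_max_right _ _).trans hs3
  have e2 : (n : ℝ) ^ (2 * c) = ((n : ℝ) ^ c) ^ 2 := by
    rw [← Real.rpow_natCast, ← Real.rpow_mul hn0.le]
    congr 1
    push_cast
    ring
  have e3 : (n : ℝ) ^ (2 * c) = (n : ℝ) ^ (c / 2) * (n : ℝ) ^ (c / 2) * (n : ℝ) ^ c := by
    rw [← Real.rpow_add hn0, ← Real.rpow_add hn0]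
    congr 1
    ring
  -- the variance up to `n`
  have hVk : ∀ k : ℕ, k ≤ n → Va ρ β h k ≤ (n : ℝ) ^ (2 * c) := by
    intro k hk
    refine (hMon h k n hk).trans ?_
    rw [e3]
    have h5 : 0 ≤ Va ρ β h n := integral_nonneg fun _ => sq_nonneg _
    calc C₁ * Real.exp (C₁ * Real.log (n + 2) ^ t) * (Va ρ β h n + 1)
        ≤ C₁ * (n : ℝ) ^ (c / 2) * (2 * (n : ℝ) ^ c) := by
          refine mul_le_mul (mul_le_mul_of_nonneg_left hs1 (by linarith)) ?_ (by linarith)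
            (by positivity)
          linarith
      _ = (2 * C₁) * (n : ℝ) ^ (c / 2) * (n : ℝ) ^ c := by ring
      _ ≤ _ := by
          refine mul_le_mul_of_nonneg_right ?_ (by linarith)
          exact mul_le_mul_of_nonneg_right h2C hnc2.le
  -- the nonrandom fluctuation up to `4 N`
  have hEk : ∀ k : ℕ, k ≤ 4 * N → En ρ β h k ≤ (n : ℝ) ^ (2 * c) := by
    intro k hk
    rcases Nat.eq_zero_or_pos k with h0 | h0
    · rw [h0]
      have h6 : En ρ β h 0 = 0 := by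
        unfold En
        rw [Rate74.A_zero74]
        push_cast
        ring
      rw [h6]
      exact Real.rpow_nonneg hn0.le _
    have hk3 : k ^ 3 ≤ n := (Nat.pow_le_pow_left hk 3).trans hN3
    have h5 := hC k ((n : ℝ) ^ c) h0 (fun m hm => by
      rw [← e2]
      exact hVk m (hm.trans hk3)) (by linarith)
    refine h5.trans ?_
    have hk1 : (1 : ℝ) ≤ k := by exact_mod_cast h0
    have hkn : (k : ℝ) ≤ n := by exact_mod_cast hk.trans h4N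
    have hl1 : 1 ≤ Real.log ((k : ℝ) + 2) := by
      rw [Real.le_log_iff_exp_le (by linarith)]
      have := Real.exp_one_lt_d9
      linarith
    have hl2 : Real.log ((k : ℝ) + 2) ≤ Real.log ((n : ℝ) + 2) :=
      Real.log_le_log (by linarith) (by linarith)
    have hl3 : Real.log ((k : ℝ) + 2) ^ θ ≤ Real.log ((n : ℝ) + 2) ^ θ' :=
      (Real.rpow_le_rpow_of_exponent_le hl1 hθθ).trans
        (Real.rpow_le_rpow (by linarith) hl2 hθ'0)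
    have hl4 : 1 ≤ Real.log ((n : ℝ) + 2) ^ θ' := Real.one_le_rpow (hl1.trans hl2) hθ'0
    have hl5 : 0 ≤ Real.log ((k : ℝ) + 2) ^ θ := Real.rpow_nonneg (by linarith) _
    have h6 : Real.exp (C * (1 + Real.log (k + 2) ^ θ)) ≤ (n : ℝ) ^ (c / 2) := by
      refine (Real.exp_le_exp.2 ?_).trans hs2
      calc C * (1 + Real.log ((k : ℝ) + 2) ^ θ) ≤ |C| * (1 + Real.log ((k : ℝ) + 2) ^ θ) :=
            mul_le_mul_of_nonneg_right (le_abs_self C) (by linarith)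
        _ ≤ |C| * (2 * Real.log ((n : ℝ) + 2) ^ θ') :=
            mul_le_mul_of_nonneg_left (by linarith) (abs_nonneg C)
        _ = 2 * |C| * Real.log ((n : ℝ) + 2) ^ θ' := by ring
    calc (1 + (n : ℝ) ^ c) * Real.exp (C * (1 + Real.log (k + 2) ^ θ))
        ≤ ((n : ℝ) ^ (c / 2) * (n : ℝ) ^ c) * (n : ℝ) ^ (c / 2) := by
          refine mul_le_mul ?_ h6 (Real.exp_pos _).le (by positivity)
          nlinarith
      _ = _ := by
          rw [e3]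
          ring
  -- the bound in terms of `N`
  have hN0 : (0 : ℝ) < N := by exact_mod_cast hN1
  have hpow : (n : ℝ) ^ (2 * c) ≤ (N : ℝ) ^ c₁ := by
    calc (n : ℝ) ^ (2 * c) ≤ (n : ℝ) ^ (1 / 32 * c₁) :=
          Real.rpow_le_rpow_of_exponent_le hnr (by linarith)
      _ = ((n : ℝ) ^ (1 / 32 : ℝ)) ^ c₁ := by rw [Real.rpow_mul hn0.le]
      _ ≤ (N : ℝ) ^ c₁ := Real.rpow_le_rpow (Real.rpow_nonneg hn0.le _) hNr hc₁.le
  rw [← hNd]
  exact ⟨hNn, fun k hk => ⟨(hVk k (hk.trans h4N)).trans hpow, (hEk k hk).trans hpow⟩⟩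

/-- **CURVD**, from the core at one scale, MON, NR and the tube at one length. -/
theorem curvD74 {d : ℕ} {ρ : Measure ℝ} [IsProbabilityMeasure ρ] (hd : 0 < d) (hρ : EM ρ)
    {β t : ℝ} (ht : t < 1) (hO : OneD d ρ β) (hM : MonP d ρ β t) (hN : NrS d ρ β)
    (hT : TubQ d ρ β) : CurvD d ρ β := by
  intro g hg
  obtain ⟨c₁, hc₁, H⟩ := hO g hg
  obtain ⟨C, hC1, hT⟩ := hT (1 / 9) (c₁ / 16) (by norm_num) (by positivity)
  obtain ⟨c₀, hc₀, hc₀64, hS⟩ := small74 hd hρ ht hM hN (c₁ := c₁ / 16) (by positivity)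
  have hdR : (1 : ℝ) ≤ d := by exact_mod_cast hd
  have hd0 : (0 : ℝ) < d := by linarith
  obtain ⟨c, hc⟩ : ∃ c : ℝ, c = min c₀ (c₁ / (2 + c₁)) := ⟨_, rfl⟩
  have hc0 : 0 < c := by
    rw [hc]
    exact lt_min hc₀ (by positivity)
  have hcc₀ : c ≤ c₀ := by
    rw [hc]
    exact min_le_left _ _
  have hcc₁ : c ≤ c₁ / (2 + c₁) := by
    rw [hc]
    exact min_le_right _ _
  have hc1 : c ≤ 1 := by linarith
  refine ⟨c, hc0, hc1, fun h hgap => ?_⟩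
  by_cases hE : ∀ᶠ n : ℕ in atTop, (n : ℝ) ^ c ≤ Va ρ β h n
  · exact Or.inl hE
  right
  intro v M δ hδ
  by_contra hcon
  push Not at hcon
  have hF : ∃ᶠ n : ℕ in atTop, Va ρ β h n < (n : ℝ) ^ c := by
    intro hc'
    exact hE (hc'.mono fun n hn => not_lt.1 hn)
  obtain ⟨n₂, hn₂⟩ := H h hgap
  obtain ⟨M', hM'⟩ : ∃ M' : ℝ, M' = max M 0 := ⟨_, rfl⟩
  have hM0 : 0 ≤ M' := by
    rw [hM']
    exact le_max_right _ _
  have hMM : M ≤ M' := by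
    rw [hM']
    exact le_max_left _ _
  -- the length
  have t1 : Tendsto (fun n : ℕ => (n : ℝ) ^ (c₁ / 4)) atTop atTop :=
    (tendsto_rpow_atTop (by positivity)).comp tendsto_natCast_atTop_atTop
  have t2 : Tendsto (fun n : ℕ => (n : ℝ) ^ (-(1 / (d : ℝ) + c₁ / 2))) atTop (𝓝 0) :=
    (tendsto_rpow_neg_atTop (by positivity)).comp tendsto_natCast_atTop_atTop
  obtain ⟨N₁, hN₁⟩ := eventually_atTop.1 ((t1.eventually_ge_atTop (M' + C + 1)).and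
    (t2.eventually (gt_mem_nhds hδ)))
  obtain ⟨n₀, hn₀⟩ := hS h (max N₁ (max n₂ 1))
  obtain ⟨n, hnV, hnn⟩ := (hF.and_eventually (eventually_ge_atTop (max n₀ 1))).exists
  have hn1 : (1 : ℝ) ≤ n := by exact_mod_cast (le_max_right _ _).trans hnn
  obtain ⟨hNbig, hsm⟩ := hn₀ n ((le_max_left _ _).trans hnn)
    (hnV.le.trans (Real.rpow_le_rpow_of_exponent_le hn1 hcc₀))
  obtain ⟨N, hNd⟩ : ∃ N : ℕ, N = ⌊(n : ℝ) ^ (1 / 16 : ℝ)⌋₊ := ⟨_, rfl⟩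
  rw [← hNd] at hNbig hsm
  have hNN₁ : N₁ ≤ N := (le_max_left _ _).trans hNbig
  have hNn₂ : n₂ ≤ N := (le_max_left _ _).trans ((le_max_right _ _).trans hNbig)
  have hN1' : 1 ≤ N := (le_max_right _ _).trans ((le_max_right _ _).trans hNbig)
  have hN1 : (1 : ℝ) ≤ N := by exact_mod_cast hN1'
  have hN0 : (0 : ℝ) < N := by linarith
  obtain ⟨hbig, hrδ⟩ := hN₁ N hNN₁
  obtain ⟨r, hr⟩ : ∃ r : ℝ, r = (N : ℝ) ^ (-(1 / (d : ℝ) + c₁ / 2)) := ⟨_, rfl⟩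
  rw [← hr] at hrδ
  have hr0 : 0 < r := by
    rw [hr]
    exact Real.rpow_pos_of_pos hN0 _
  have hex := hn₂ N hNn₂ (fun k hk => ⟨(hsm k hk).1.trans
    (Real.rpow_le_rpow_of_exponent_le hN1 (by linarith)), (hsm k hk).2.trans
    (Real.rpow_le_rpow_of_exponent_le hN1 (by linarith))⟩) v
  obtain ⟨P, hP⟩ : ∃ P : ℝ, P = (N : ℝ) ^ (c₁ / 16) := ⟨_, rfl⟩
  have hP1 : 1 ≤ P := by
    rw [hP]
    exact Real.one_le_rpow hN1 (by positivity)
  obtain ⟨hVN, hEN⟩ := hsm N (by omega)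
  rw [← hP] at hVN hEN
  have hFN : Fn ρ β h N ≤ P := by
    have h1 := Pool.Agent.W_7d29a1_UC.fn_sq19 (β := β) hd hρ h N
    have h2 : Fn ρ β h N ^ 2 ≤ P ^ 2 := h1.trans (hVN.trans (by nlinarith))
    exact (pow_le_pow_iff_left₀ (integral_nonneg fun _ => abs_nonneg _) (by linarith)
      two_ne_zero).1 h2
  have hdc : 0 ≤ (d : ℝ) - c := by linarith
  have hcap : Cap ρ β h v r (M' * r ^ ((d : ℝ) - c)) := by
    intro k hk
    have h1 := hcon k (hk.trans hrδ.le)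
    have h2 : M * ‖k‖ ^ ((d : ℝ) - c) ≤ M' * r ^ ((d : ℝ) - c) :=
      mul_le_mul hMM (Real.rpow_le_rpow (norm_nonneg k) hk hdc)
        (Real.rpow_nonneg (norm_nonneg k) _) hM0
    linarith
  have key := hT h v N P ((N : ℝ) ^ (1 / (d : ℝ) + c₁)) r (M' * r ^ ((d : ℝ) - c)) hN1' hP1
    hr0.le (Real.rpow_nonneg hN0.le _) (by positivity) hFN hEN hcap (by linarith)
  -- the numbers
  have e1 : r * (N : ℝ) ^ (1 / (d : ℝ) + c₁) = (N : ℝ) ^ (c₁ / 4) * (N : ℝ) ^ (c₁ / 4) := by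
    rw [hr, ← Real.rpow_add hN0, ← Real.rpow_add hN0]
    congr 1
    ring
  have e2 : (N : ℝ) * (M' * r ^ ((d : ℝ) - c)) ≤ M' := by
    have h1 : (N : ℝ) * r ^ ((d : ℝ) - c) ≤ 1 := by
      rw [hr, ← Real.rpow_mul hN0.le]
      nth_rewrite 1 [← Real.rpow_one (N : ℝ)]
      rw [← Real.rpow_add hN0]
      refine Real.rpow_le_one_of_one_le_of_nonpos hN1 ?_
      have h2 : 1 + -(1 / (d : ℝ) + c₁ / 2) * ((d : ℝ) - c) =
          c * (1 / (d : ℝ) + c₁ / 2) - d * c₁ / 2 := by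
        field_simp
        ring
      rw [h2]
      have h3 : 1 / (d : ℝ) ≤ 1 := by
        rw [div_le_iff₀ hd0]
        linarith
      have h4 : c * (2 + c₁) ≤ c₁ := by
        rwa [le_div_iff₀ (by linarith)] at hcc₁
      have h5 : c * (1 / (d : ℝ) + c₁ / 2) ≤ c * (1 + c₁ / 2) :=
        mul_le_mul_of_nonneg_left (by linarith) hc0.le
      have h6 : c₁ ≤ d * c₁ := le_mul_of_one_le_left hc₁.le hdR
      linarith
    calc (N : ℝ) * (M' * r ^ ((d : ℝ) - c)) = M' * ((N : ℝ) * r ^ ((d : ℝ) - c)) := by ring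
      _ ≤ M' * 1 := mul_le_mul_of_nonneg_left h1 hM0
      _ = M' := mul_one _
  have e3 : C * (N : ℝ) ^ (c₁ / 16) * P ≤ C * (N : ℝ) ^ (c₁ / 4) := by
    rw [hP, mul_assoc, ← Real.rpow_add hN0]
    exact mul_le_mul_of_nonneg_left (Real.rpow_le_rpow_of_exponent_le hN1 (by linarith))
      (by linarith)
  obtain ⟨x, hx⟩ : ∃ x : ℝ, x = (N : ℝ) ^ (c₁ / 4) := ⟨_, rfl⟩
  rw [← hx] at e1 e3 hbig
  rw [e1] at key
  nlinarith

end Pool.Agent.W_7d29a1_CV
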