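import Pool.Agent.W_7d29a1_SP.DefsSP

/-!
Theorem OWN (helper74): literals. At every tilt of very strong disorder, in every dimension: the
variance of the free energy grows like a power of `n` at ALL large `n`, or the polymer leaves the
tube of radius `N ^ (1 / d + c)` around any direction at infinitely many lengths `N`.
-/

set_option autoImplicit false

namespace Pool.Agent.W_7d29a1_OW

open MeasureTheory ProbabilityTheory Filter Topology Pool.Agent.W_MP_7d29a1_pr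
  Pool.Agent.W_7d29a1_h46 Pool.Agent.W_7d29a1_h46u Pool.Agent.W_7d29a1_D2.B35
  Pool.Agent.W_7d29a1_Q29 Pool.Agent.W_7d29a1_R34 Pool.Agent.W_7d29a1_SP

section

variable (d : ℕ) (ρ : Measure ℝ) (β : ℝ)

/-- ONED: one tilt, one scale. Small variances and small nonrandom fluctuations up to `4 n` force
the polymer of length `n` out of every tube of radius `n ^ (1 / d + c)`. (`c` depends on the gap
`g` only.) -/
def OneD : Prop := ∀ g : ℝ, 0 < g → ∃ c : ℝ, 0 < c ∧ ∀ h : Vec d,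
  lam ρ β h + g ≤ Real.log (Phi h) + Real.log (∫ t, Real.exp (β * t) ∂ρ) →
  ∃ n₀ : ℕ, ∀ n : ℕ, n₀ ≤ n →
    (∀ k : ℕ, k ≤ 4 * n → Va ρ β h k ≤ (n : ℝ) ^ c ∧ En ρ β h k ≤ (n : ℝ) ^ c) →
    ∀ v : Vec d,
      1 / 8 < ∫ η, (1 - PolT β h η (tube d n v ((n : ℝ) ^ (1 / (d : ℝ) + c)))) ∂(law d ρ)

/-- OWND: the core of theorem OWN. If the variance is `≤ n ^ c` at ONE large `n`, the polymer of
some length `N` between `n ^ c` and `n` leaves every tube of radius `N ^ (1 / d + c)`. -/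
def OwnD : Prop := ∀ g : ℝ, 0 < g → ∃ c : ℝ, 0 < c ∧ ∀ h : Vec d,
  lam ρ β h + g ≤ Real.log (Phi h) + Real.log (∫ t, Real.exp (β * t) ∂ρ) →
  ∃ n₀ : ℕ, ∀ n : ℕ, n₀ ≤ n → Va ρ β h n ≤ (n : ℝ) ^ c →
    ∃ N : ℕ, (n : ℝ) ^ c ≤ N ∧ N ≤ n ∧ ∀ v : Vec d,
      1 / 8 < ∫ η, (1 - PolT β h η (tube d N v ((N : ℝ) ^ (1 / (d : ℝ) + c)))) ∂(law d ρ)

end

end Pool.Agent.W_7d29a1_OW
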