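import Pool.Agent.W_7d29a1_NR.Del11

/-!
The gain of a concatenation is at most the random fluctuation of the LONG length, up to a
subpolynomial factor (helper44): the text of helper11 with the median below the mean.
-/

set_option autoImplicit false

namespace Pool.Agent.W_7d29a1_QM

open MeasureTheory ProbabilityTheory Filter Topology Pool.Agent.W_MP_7d29a1_pr
  Pool.Agent.W_7d29a1_h46 Pool.Agent.W_7d29a1_h46u Pool.Agent.W_7d29a1_D2.B35
  Pool.Agent.W_7d29a1_Q29 Pool.Agent.W_7d29a1_R34 Pool.Agent.W_7d29a1_SP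
  Pool.Agent.W_7d29a1_NR Pool.Agent.W_7d29a1_NR.Del11

/-- The split with a past at which `X_k` is at most its mean plus one. -/
def SplQ44 (d : ℕ) (ρ : Measure ℝ) (β : ℝ) : Prop := ∀ (h : Vec d) (k m : ℕ),
  ∃ (w : Site d → ℝ) (δ : ℝ), (∀ y, 0 ≤ w y) ∧ (∀ y, w y ≤ 1) ∧ ∑ y ∈ boxF d k, w y = 1 ∧
    Integrable (gain d ρ β h m (boxF d k) w) (law d ρ) ∧
    A ρ β h (k + m) - A ρ β h k - A ρ β h m - 1 ≤ δ ∧
    ∫ η, |gain d ρ β h m (boxF d k) w η - δ| ∂(law d ρ) ≤ 2 * Fn ρ β h (k + m)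

/-- The gain of a concatenation against the long length only. -/
def DelQ44 (d : ℕ) (ρ : Measure ℝ) (β : ℝ) : Prop := ∃ C : ℝ, 1 ≤ C ∧ ∀ (h : Vec d) (k m : ℕ),
  A ρ β h (k + m) - A ρ β h k - A ρ β h m ≤
    C * (Fn ρ β h (k + m) + 1) * Real.exp (C * Real.log (k + 2) ^ (2 / 3 : ℝ))

/-- **DELQ**, from TRA, the split and the median below the mean. -/
theorem delQ44 {d : ℕ} {ρ : Measure ℝ} [IsProbabilityMeasure ρ] {β : ℝ}
    (hM : ∀ (h : Vec d) (m : ℕ) (u : ℝ), 0 < u →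
      (law d ρ).real {η | A ρ β h m + u ≤ X β h η m} < 1 / 2)
    (hT : TraP d ρ β) (hS : SplQ44 d ρ β) : DelQ44 d ρ β := by
  classical
  have hA := A84.cA_pos
  have l2 : 0 < Real.log 2 := Real.log_pos (by norm_num)
  obtain ⟨C₂, hC₂⟩ : ∃ C₂ : ℝ, C₂ = 9 + 1 / A84.cA := ⟨_, rfl⟩
  have hC₂1 : 9 ≤ C₂ := by
    rw [hC₂]
    have : 0 ≤ 1 / A84.cA := by positivity
    linarith
  obtain ⟨C₁, hC₁⟩ : ∃ C₁ : ℝ, C₁ = (3 * d + 1) / Real.log 2 := ⟨_, rfl⟩
  have hC₁0 : 0 ≤ C₁ := by rw [hC₁]; positivity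
  have hC2 : 0 ≤ C₁ ^ (2 / 3 : ℝ) := Real.rpow_nonneg hC₁0 _
  refine ⟨2 * C₂ + 1 + 66 * C₁ ^ (2 / 3 : ℝ), by linarith, ?_⟩
  intro h k m
  obtain ⟨w, δ, hw0, hw1, hsum, hint, hδ, hbd⟩ := hS h k m
  obtain ⟨S, hSd⟩ : ∃ S : Finset (Site d), S = (boxF d k).filter fun y => w y ≠ 0 := ⟨_, rfl⟩
  have hSsub : S ⊆ boxF d k := by rw [hSd]; exact Finset.filter_subset _ _
  have hg : ∀ η, gain d ρ β h m S w η = gain d ρ β h m (boxF d k) w η := by
    intro η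
    unfold gain
    congr 1
    refine Finset.sum_subset hSsub fun y hy hyS => ?_
    have : w y = 0 := by
      by_contra hne
      exact hyS (by rw [hSd]; exact Finset.mem_filter.2 ⟨hy, hne⟩)
    rw [this, zero_mul]
  have hSne : S.Nonempty := by
    rw [Finset.nonempty_iff_ne_empty]
    intro h0
    have h1 : ∑ y ∈ boxF d k, w y = ∑ y ∈ S, w y := by
      refine (Finset.sum_subset hSsub fun y hy hyS => ?_).symm
      by_contra hne
      exact hyS (by rw [hSd]; exact Finset.mem_filter.2 ⟨hy, hne⟩)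
    rw [h0, Finset.sum_empty, hsum] at h1
    exact one_ne_zero h1
  have hcard : S.card ≤ 2 ^ JJ d k := (Finset.card_le_card hSsub).trans (JJ_card d k)
  have hwS : ∀ y ∈ S, 0 < w y ∧ w y ≤ 1 := fun y hy => by
    rw [hSd, Finset.mem_filter] at hy
    exact ⟨lt_of_le_of_ne (hw0 y) (Ne.symm hy.2), hw1 y⟩
  obtain ⟨J, hJ⟩ : ∃ J : ℕ, J = JJ d k := ⟨_, rfl⟩
  have hJ1 : 1 ≤ J := by rw [hJ]; exact Nat.le_add_left 1 _
  have hJr : (1 : ℝ) ≤ J := by exact_mod_cast hJ1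
  obtain ⟨c, hc⟩ : ∃ c : ℝ, c = (J : ℝ) ^ (-(1 / 3 : ℝ)) := ⟨_, rfl⟩
  have hc0 : 0 < c := by rw [hc]; exact Real.rpow_pos_of_pos (by linarith) _
  have hc1 : c ≤ 1 := by rw [hc]; exact Real.rpow_le_one_of_one_le_of_nonpos hJr (by norm_num)
  obtain ⟨κ, hκ⟩ : ∃ κ : ℝ, κ = Ehr.Phi (-(4 + 4 / c)) := ⟨_, rfl⟩
  have hκ0 : 0 < κ := by rw [hκ]; exact Ehr.Phi_pos _
  have hκ1 : A84.cA * Real.exp (-(4 + 4 / c) ^ 2) ≤ κ := by
    rw [hκ]
    exact A84.Phi_lower (by positivity)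
  have f1 := Fn_nonneg (ρ := ρ) (β := β) h (k + m)
  obtain ⟨F, hF⟩ : ∃ F : ℝ, F = Fn ρ β h (k + m) := ⟨_, rfl⟩
  rw [← hF] at f1 hbd ⊢
  obtain ⟨B, hB⟩ : ∃ B : ℝ, B = 2 * F + 1 := ⟨_, rfl⟩
  have hB0 : 0 < B := by rw [hB]; linarith
  obtain ⟨a, ha⟩ : ∃ a : ℝ, a = 2 * B + B / κ := ⟨_, rfl⟩
  have ha0 : 0 ≤ a := by rw [ha]; positivity
  have hgi : Integrable (fun η => gain d ρ β h m (boxF d k) w η - δ) (law d ρ) :=
    hint.sub (integrable_const _)
  have main := hT h m S w J c a (δ - 2 * B) 0 hSne (hJ ▸ hcard) hwS hc0 hc1 ha0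
    (fun u hu => hM h m u hu) ?_ ?_
  · have hn := nums (J := J) hJ1 (G := 2 * F + 1) (B := B) (F := 0) hc hκ0 hκ1 (by linarith)
      (by rw [hB]) hB0.le (by linarith)
    rw [← ha, ← hC₂] at hn
    have h1 : δ ≤ C₂ * (2 * F + 1) * Real.exp (66 * (J : ℝ) ^ (2 / 3 : ℝ)) := by linarith
    have hL0 : 0 ≤ Real.log ((k : ℝ) + 2) := Real.log_nonneg (by
      have : (0 : ℝ) ≤ k := Nat.cast_nonneg k
      linarith)
    have h2 : (J : ℝ) ^ (2 / 3 : ℝ) ≤ C₁ ^ (2 / 3 : ℝ) * Real.log (k + 2) ^ (2 / 3 : ℝ) := by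
      rw [← Real.mul_rpow hC₁0 hL0]
      refine Real.rpow_le_rpow (by positivity) ?_ (by norm_num)
      rw [hJ, hC₁]
      exact JJ_le d k
    have hL2 : 0 ≤ Real.log ((k : ℝ) + 2) ^ (2 / 3 : ℝ) := Real.rpow_nonneg hL0 _
    obtain ⟨E, hE⟩ : ∃ E : ℝ, E = Real.exp ((2 * C₂ + 1 + 66 * C₁ ^ (2 / 3 : ℝ)) *
        Real.log (k + 2) ^ (2 / 3 : ℝ)) := ⟨_, rfl⟩
    have hE1 : 1 ≤ E := by
      rw [hE]
      refine Real.one_le_exp (mul_nonneg (by linarith) hL2)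
    have h3 : Real.exp (66 * (J : ℝ) ^ (2 / 3 : ℝ)) ≤ E := by
      rw [hE]
      refine Real.exp_le_exp.2 ?_
      have h4 : 0 ≤ (2 * C₂ + 1) * Real.log ((k : ℝ) + 2) ^ (2 / 3 : ℝ) :=
        mul_nonneg (by linarith) hL2
      nlinarith
    rw [← hE]
    have h5 : δ ≤ C₂ * (2 * F + 1) * E :=
      h1.trans (mul_le_mul_of_nonneg_left h3 (mul_nonneg (by linarith) (by linarith)))
    have h6 : 1 ≤ (F + 1) * E := by nlinarith
    have h7 : 0 ≤ (66 * C₁ ^ (2 / 3 : ℝ)) * ((F + 1) * E) := by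
      refine mul_nonneg (by linarith) (by linarith)
    have h8 : C₂ * (2 * F + 1) * E ≤ 2 * C₂ * ((F + 1) * E) := by
      have : 0 ≤ C₂ * E := mul_nonneg (by linarith) (by linarith)
      nlinarith
    calc A ρ β h (k + m) - A ρ β h k - A ρ β h m ≤ δ + 1 := by linarith
      _ ≤ 2 * C₂ * ((F + 1) * E) + 1 * ((F + 1) * E) := by linarith
      _ ≤ (2 * C₂ + 1 + 66 * C₁ ^ (2 / 3 : ℝ)) * (F + 1) * E := by linarith
  · have h1 := markov (P := law d ρ) hgi (B := 2 * F) hbd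
      (t := 2 * B) (by linarith)
    have h2 : 2 * F / (2 * B) ≤ 1 / 2 := by
      rw [div_le_iff₀ (by linarith)]
      linarith
    have hmeas : NullMeasurableSet {η | 2 * B ≤ |gain d ρ β h m (boxF d k) w η - δ|} (law d ρ) :=
      nullMeasurableSet_le aemeasurable_const hgi.abs.aestronglyMeasurable.aemeasurable
    have h3 : (law d ρ).real {η | 2 * B ≤ |gain d ρ β h m (boxF d k) w η - δ|}ᶜ =
        1 - (law d ρ).real {η | 2 * B ≤ |gain d ρ β h m (boxF d k) w η - δ|} :=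
      probReal_compl_eq_one_sub₀ hmeas
    have h4 : (law d ρ).real {η | 2 * B ≤ |gain d ρ β h m (boxF d k) w η - δ|}ᶜ ≤
        (law d ρ).real {η | δ - 2 * B ≤ gain d ρ β h m S w η} := by
      refine measureReal_mono fun η hη => ?_
      have hη' : ¬ (2 * B ≤ |gain d ρ β h m (boxF d k) w η - δ|) := hη
      push Not at hη'
      show δ - 2 * B ≤ gain d ρ β h m S w η
      rw [hg]
      have := (abs_lt.1 hη').1
      linarith
    linarith
  · have hpos : 0 < B / κ := by positivity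
    have h1 := markov (P := law d ρ) hgi (B := 2 * F) hbd
      (t := B / κ) hpos
    have h2 : 2 * F / (B / κ) < κ := by
      rw [div_lt_iff₀ hpos]
      have : κ * (B / κ) = B := by field_simp
      rw [this]
      linarith
    have h4 : (law d ρ).real {η | δ - 2 * B + a < gain d ρ β h m S w η} ≤
        (law d ρ).real {η | B / κ ≤ |gain d ρ β h m (boxF d k) w η - δ|} := by
      refine measureReal_mono fun η hη => ?_
      have hη' : δ - 2 * B + a < gain d ρ β h m S w η := hη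
      rw [hg, ha] at hη'
      show B / κ ≤ |gain d ρ β h m (boxF d k) w η - δ|
      exact le_trans (by linarith) (le_abs_self _)
    rw [← hκ]
    linarith

end Pool.Agent.W_7d29a1_QM
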