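import Pool.Agent.W_7d29a1_QM.GamU42
import Pool.Agent.W_7d29a1_KP.TwoT19

/-!
The wandering exponent of the problem against the exponent of the variance and any power bound of
the limiting free energy: every law, every tilt, every velocity, every real power.
-/

set_option autoImplicit false

namespace Pool.Agent.W_7d29a1_CV

open MeasureTheory ProbabilityTheory Filter Topology Pool.Agent.W_MP_7d29a1_pr
  Pool.Agent.W_7d29a1_h46 Pool.Agent.W_7d29a1_h46u Pool.Agent.W_7d29a1_D2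
  Pool.Agent.W_7d29a1_D2.B35 Pool.Agent.W_7d29a1_Q29 Pool.Agent.W_7d29a1_R34
  Pool.Agent.W_7d29a1_SP Pool.Agent.W_7d29a1_KL Pool.Agent.W_7d29a1_KP Pool.Agent.W_7d29a1_NR

variable {d : ℕ} {ρ : Measure ℝ} [IsProbabilityMeasure ρ] {β : ℝ} {Ω : Type*}
  [MeasurableSpace Ω] {μ : Measure Ω} [IsProbabilityMeasure μ] {ω : ℕ × Site d → Ω → ℝ}

/-- **Every tilt, every velocity, every power, the exponent `ν` of the problem**: if
`L (h + r) - L h - ⟨v, r⟩ ≤ C ‖r‖ ^ p` near `0` then `p ν ≤ 1 + (p - 1) χ'`. -/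
theorem upTA42 (hd : 0 < d) (hω : IID μ ρ ω) (hρ : EM ρ) (hnc : ∀ c : ℝ, ρ {c} ≠ 1)
    (hβ : 0 < β) (h v : Vec d) (p : ℝ) (hU : UpG (lam ρ β) h v p) :
    p * nuT μ β ω h v ≤ 1 + (p - 1) * chiV μ β ω h := by
  rcases le_or_gt 1 p with hp | hp
  · exact upTU42 hd hω hρ hnc hβ h v p hp hU
  · have h1 := nuT_le_one42 (μ := μ) (β := β) hd hω h v
    have h2 := chiV_le_half19 (μ := μ) (β := β) hd hω hρ h
    have h3 : 0 ≤ chiV μ β ω h := Real.sInf_nonneg fun b hb => hb.1.le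
    have h4 := two_chiV19 (μ := μ) (β := β) hd hω hρ h v
    have h5 := nuP_le_nuT19 (μ := μ) (β := β) (ρ := ρ) hd hω h v
    rcases le_or_gt 0 p with hp0 | hp0
    · have h6 : p * nuT μ β ω h v ≤ p * 1 := mul_le_mul_of_nonneg_left h1 hp0
      have h7 : (1 - p) * chiV μ β ω h ≤ (1 - p) * (1 / 2) :=
        mul_le_mul_of_nonneg_left h2 (by linarith)
      linarith
    · have h6 : p * nuT μ β ω h v ≤ p * (2 * chiV μ β ω h) :=
        mul_le_mul_of_nonpos_left (by linarith) hp0.le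
      have h7 : (p + 1) * chiV μ β ω h ≤ 1 * chiV μ β ω h :=
        mul_le_mul_of_nonneg_right (by linarith) h3
      linarith

end Pool.Agent.W_7d29a1_CV
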