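import Pool.Agent.W_7d29a1_QM.GamV42
import Pool.Agent.W_7d29a1_KP.FinQ16
import Pool.Agent.W_7d29a1_KP.RelO27

/-!
Theorem CURV for the wandering exponent of the problem: the growth of the limiting free energy at
the tilt bounds the wandering, at every tilt and every velocity.
-/

set_option autoImplicit false

namespace Pool.Agent.W_7d29a1_CV

open MeasureTheory ProbabilityTheory Filter Topology Pool.Agent.W_MP_7d29a1_pr
  Pool.Agent.W_7d29a1_h46 Pool.Agent.W_7d29a1_h46u Pool.Agent.W_7d29a1_D2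
  Pool.Agent.W_7d29a1_D2.B35 Pool.Agent.W_7d29a1_Q29 Pool.Agent.W_7d29a1_R34
  Pool.Agent.W_7d29a1_SP Pool.Agent.W_7d29a1_SD Pool.Agent.W_7d29a1_UC Pool.Agent.W_7d29a1_KZ
  Pool.Agent.W_7d29a1_KL Pool.Agent.W_7d29a1_KP Pool.Agent.W_7d29a1_NR
  Pool.Agent.W_7d29a1_D2.NuH99

variable {d : ℕ} {ρ : Measure ℝ} [IsProbabilityMeasure ρ] {β : ℝ}

/-- One block (after the text of helper16). -/
theorem blkT42 (hT : TubNQ d ρ β) {h v : Vec d}
    {p : ℝ} (hp : 1 < p) (hU : UpG (lam ρ β) h v p) {x a : ℝ} (hx : 0 < x) (ha1 : a < 1)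
    (hpa : 1 + (p - 1) * x < p * a)
    (hF : ∀ᶠ k : ℕ in atTop, Fn ρ β h k ≤ (k : ℝ) ^ x)
    (hEf : ∀ x' : ℝ, x < x' → ∀ᶠ k : ℕ in atTop, En ρ β h k ≤ (k : ℝ) ^ x') :
    ∃ q : ℝ, 0 < q ∧ ∀ᶠ N : ℕ in atTop,
      (law d ρ).real {η | ∃ n : ℕ, N ≤ n ∧ n ≤ 2 * N ∧
        1 / (N : ℝ) < 1 - PolT β h η (tube d n v ((N : ℝ) ^ a))} ≤ (N : ℝ) ^ (-q) := by
  obtain ⟨C, δ, hδ, hC⟩ := hU
  have hp0 : 0 < p := by linarith
  have hp1 : 0 < p - 1 := by linarith
  -- the room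
  obtain ⟨g, hg⟩ : ∃ g, g = (a - x) - (1 - a) / (p - 1) := ⟨_, rfl⟩
  have hg0 : 0 < g := by
    rw [hg, sub_pos, div_lt_iff₀ hp1]
    nlinarith
  obtain ⟨b, hb⟩ : ∃ b, b = (1 - a) / (p - 1) + g / 2 := ⟨_, rfl⟩
  have hb0 : 0 < b := by
    have : 0 < (1 - a) / (p - 1) := div_pos (by linarith) hp1
    rw [hb]
    linarith
  have hab : a - b = x + g / 2 := by
    rw [hb, hg]
    ring
  have hbp : 1 - b * p < a - b := by
    have h1 : b * (p - 1) = (1 - a) + g / 2 * (p - 1) := by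
      rw [hb, add_mul, div_mul_cancel₀ _ hp1.ne']
    have h2 : 0 < g / 2 * (p - 1) := by positivity
    nlinarith
  obtain ⟨x', hx'⟩ : ∃ x' : ℝ, x' = x + g / 8 := ⟨_, rfl⟩
  have hxx' : x < x' := by rw [hx']; linarith
  have hx'0 : 0 < x' := by linarith
  obtain ⟨L, hL, hTL⟩ := hT (g / 16) (by linarith)
  obtain ⟨q, hq⟩ : ∃ q : ℝ, q = g / (16 * (L + 1)) := ⟨_, rfl⟩
  have hq0 : 0 < q := by
    rw [hq]
    positivity
  have hLq : L * q ≤ g / 16 := by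
    rw [hq, mul_div_assoc', div_le_div_iff₀ (by positivity) (by norm_num)]
    nlinarith
  have hEe := hEf x' hxx'
  obtain ⟨k₁, hk₁⟩ := eventually_atTop.1 (hF.and hEe)
  obtain ⟨B, hB⟩ : ∃ B : ℝ, B = ∑ k ∈ Finset.range k₁, (|Fn ρ β h k| + |En ρ β h k|) := ⟨_, rfl⟩
  have hB0 : 0 ≤ B := by
    rw [hB]
    exact Finset.sum_nonneg fun k _ => add_nonneg (abs_nonneg _) (abs_nonneg _)
  obtain ⟨C', N₀, hC', htub⟩ := hTL q hq0
  obtain ⟨Q, hQ⟩ : ∃ Q : ℝ, Q = (1 + B) * 2 ^ x' := ⟨_, rfl⟩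
  have h2x : (1 : ℝ) ≤ 2 ^ x' := Real.one_le_rpow (by norm_num) hx'0.le
  have hQ1 : 1 ≤ Q := by
    rw [hQ]
    nlinarith
  -- the asymptotics
  have l1 : Tendsto (fun n : ℕ => (n : ℝ) ^ (-b)) atTop (𝓝 0) :=
    (tendsto_rpow_neg_atTop hb0).comp tendsto_natCast_atTop_atTop
  have l2 : Tendsto (fun n : ℕ => (n : ℝ) ^ (a - b - (1 - b * p))) atTop atTop :=
    (tendsto_rpow_atTop (by linarith)).comp tendsto_natCast_atTop_atTop
  have l3 : Tendsto (fun n : ℕ => (n : ℝ) ^ (g / 4)) atTop atTop :=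
    (tendsto_rpow_atTop (by linarith)).comp tendsto_natCast_atTop_atTop
  refine ⟨q, hq0, ?_⟩
  filter_upwards [eventually_ge_atTop 1, eventually_ge_atTop N₀, l1.eventually (gt_mem_nhds hδ),
    l2.eventually_gt_atTop (4 * |C|), l3.eventually_gt_atTop (2 * (C' * Q))] with
    N hN hNN₀ hn1 hn2 hn3
  by_contra hcon
  push Not at hcon
  have hN1 : (1 : ℝ) ≤ N := by exact_mod_cast hN
  have hN0 : (0 : ℝ) < N := by linarith
  obtain ⟨r, hr⟩ : ∃ r, r = (N : ℝ) ^ (-b) := ⟨_, rfl⟩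
  have hr0 : 0 < r := by
    rw [hr]
    positivity
  have hrδ : r ≤ δ := by
    rw [hr]
    exact hn1.le
  obtain ⟨P, hP⟩ : ∃ P : ℝ, P = Q * (N : ℝ) ^ x' := ⟨_, rfl⟩
  have hNx : 1 ≤ (N : ℝ) ^ x' := Real.one_le_rpow hN1 hx'0.le
  have hP1 : 1 ≤ P := by
    rw [hP]
    nlinarith
  have hPk : ∀ (c : ℝ) (k : ℕ), 0 ≤ c → c ≤ 1 + B → k ≤ 2 * N → c * (k : ℝ) ^ x' ≤ P := by
    intro c k hc0 hc hk
    have e1 : (k : ℝ) ^ x' ≤ (2 * (N : ℝ)) ^ x' :=
      Real.rpow_le_rpow (Nat.cast_nonneg _) (by exact_mod_cast hk) hx'0.le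
    rw [Real.mul_rpow (by norm_num) hN0.le] at e1
    rw [hP, hQ, mul_assoc]
    exact mul_le_mul hc e1 (Real.rpow_nonneg (Nat.cast_nonneg _) _) (hc0.trans hc)
  have hfl : ∀ k : ℕ, k ≤ 2 * N → Fn ρ β h k ≤ P ∧ En ρ β h k ≤ P := by
    intro k hk
    rcases lt_or_ge k k₁ with e | e
    · have e1 : |Fn ρ β h k| + |En ρ β h k| ≤ B := by
        rw [hB]
        exact Finset.single_le_sum (f := fun k => |Fn ρ β h k| + |En ρ β h k|)
          (fun i _ => add_nonneg (abs_nonneg _) (abs_nonneg _)) (Finset.mem_range.2 e)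
      have e2 : B ≤ P := by
        have e3 : B ≤ Q := by
          rw [hQ]
          nlinarith
        rw [hP]
        nlinarith
      have e3 := le_abs_self (Fn ρ β h k)
      have e4 := le_abs_self (En ρ β h k)
      have e5 := abs_nonneg (Fn ρ β h k)
      have e6 := abs_nonneg (En ρ β h k)
      exact ⟨by linarith, by linarith⟩
    · obtain ⟨e1, e2⟩ := hk₁ k e
      have e3 := hPk 1 k zero_le_one (by linarith) hk
      rw [one_mul] at e3
      refine ⟨?_, e2.trans e3⟩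
      rcases Nat.eq_zero_or_pos k with e4 | e4
      · rw [e4, Fn_zero15]
        linarith
      · refine e1.trans (le_trans ?_ e3)
        exact Real.rpow_le_rpow_of_exponent_le (by exact_mod_cast e4) hxx'.le
  have hcap : ∀ k : Vec d, ‖k‖ ≤ r →
      lam ρ β (h + k) ≤ lam ρ β h + inner ℝ v k + |C| * r ^ p := by
    intro k hk
    have h1 := hC k (hk.trans hrδ)
    unfold gap at h1
    have h2 : C * ‖k‖ ^ p ≤ |C| * r ^ p := by
      have h3 : ‖k‖ ^ p ≤ r ^ p := Real.rpow_le_rpow (norm_nonneg k) hk hp0.le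
      have h4 : 0 ≤ ‖k‖ ^ p := Real.rpow_nonneg (norm_nonneg k) p
      exact mul_le_mul (le_abs_self C) h3 h4 (abs_nonneg C)
    linarith
  have key := htub h v N P ((N : ℝ) ^ a) r (|C| * r ^ p) hNN₀ hP1 (by positivity) hr0
    (by positivity) hfl hcap hcon
  -- the powers of `N`
  have e1 : r * (N : ℝ) ^ a = (N : ℝ) ^ (a - b) := by
    rw [hr, ← Real.rpow_add hN0]
    congr 1
    ring
  have e2 : ((2 * N : ℕ) : ℝ) * (|C| * r ^ p) = 2 * |C| * (N : ℝ) ^ (1 - b * p) := by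
    have h1 : r ^ p = (N : ℝ) ^ (-(b * p)) := by
      rw [hr, ← Real.rpow_mul hN0.le]
      congr 1
      ring
    have h2 : (N : ℝ) ^ (1 - b * p) = N * (N : ℝ) ^ (-(b * p)) := by
      rw [show (1 - b * p) = 1 + -(b * p) by ring, Real.rpow_add hN0, Real.rpow_one]
    rw [h1, h2]
    push_cast
    ring
  have e3 : C' * (N : ℝ) ^ (g / 16 + L * q) * P ≤ C' * Q * (N : ℝ) ^ (x + g / 4) := by
    have h1 : (N : ℝ) ^ (g / 16 + L * q) ≤ (N : ℝ) ^ (g / 8) :=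
      Real.rpow_le_rpow_of_exponent_le hN1 (by linarith)
    have h2 : (N : ℝ) ^ (g / 8) * (N : ℝ) ^ x' = (N : ℝ) ^ (x + g / 4) := by
      rw [← Real.rpow_add hN0, hx']
      congr 1
      ring
    rw [← h2, hP]
    have h3 : 0 ≤ C' * Q * (N : ℝ) ^ x' := by positivity
    have h4 := mul_le_mul_of_nonneg_left h1 h3
    linarith [h4]
  have e4 : (N : ℝ) ^ (a - b) = (N : ℝ) ^ (1 - b * p) * (N : ℝ) ^ (a - b - (1 - b * p)) := by
    rw [← Real.rpow_add hN0]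
    congr 1
    ring
  have e5 : (N : ℝ) ^ (a - b) = (N : ℝ) ^ (x + g / 4) * (N : ℝ) ^ (g / 4) := by
    rw [← Real.rpow_add hN0, hab]
    congr 1
    ring
  rw [e1, e2] at key
  have h6 : 0 < (N : ℝ) ^ (1 - b * p) := Real.rpow_pos_of_pos hN0 _
  have h7 : 0 < (N : ℝ) ^ (x + g / 4) := Real.rpow_pos_of_pos hN0 _
  have h8 : 4 * |C| * (N : ℝ) ^ (1 - b * p) < (N : ℝ) ^ (a - b) := by
    rw [e4, mul_comm]
    exact mul_lt_mul_of_pos_left hn2 h6
  have h9 : 2 * (C' * Q) * (N : ℝ) ^ (x + g / 4) < (N : ℝ) ^ (a - b) := by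
    rw [e5, mul_comm]
    exact mul_lt_mul_of_pos_left hn3 h7
  linarith

/-- One tilt: almost surely the tube of radius `n ^ a` is typical at all large lengths, if
`1 + (p - 1) x < p a` and the variance is at most `n ^ (2 x)`. -/
theorem tubT42 (hd : 0 < d) (hρ : EM ρ) (hN : NrS d ρ β) (hT : TubNQ d ρ β) {h v : Vec d}
    {p : ℝ} (hp : 1 < p) (hU : UpG (lam ρ β) h v p) {x a : ℝ} (hx : 0 < x) (ha0 : 0 ≤ a)
    (ha1 : a < 1) (hpa : 1 + (p - 1) * x < p * a)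
    (hV : ∀ᶠ n : ℕ in atTop, Va ρ β h n ≤ (n : ℝ) ^ (2 * x)) :
    ∀ᵐ ξ ∂(law d ρ), ∀ᶠ n : ℕ in atTop,
      1 - PolT β h ξ (tube d n v ((n : ℝ) ^ a)) ≤ 2 / n := by
  obtain ⟨q, hq, hb⟩ := blkT42 hT hp hU hx ha1 hpa (fnS42 hd hρ h hV)
    (efS42 hd hρ hN h hx.le hV)
  have e : 1 / 2 + (a - 1 / 2) = a := by ring
  have h1 := bcO16 (ρ := ρ) (β := β) (h := h) (v := v) (δ := a - 1 / 2) (p := q)
    (by rw [e]; exact ha0) hq (by rw [e]; exact hb)
  rwa [e] at h1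

section Letters

variable {Ω : Type*} [MeasurableSpace Ω] {μ : Measure Ω} [IsProbabilityMeasure μ]
  {ω : ℕ × Site d → Ω → ℝ}

/-- The wandering exponent of the problem is at most one. -/
theorem nuT_le_one42 (hd : 0 < d) (hω : IID μ ρ ω) (h v : Vec d) : nuT μ β ω h v ≤ 1 := by
  refine le_of_forall_gt_imp_ge_of_dense fun a ha => ?_
  refine nuT_le27 hω (by linarith) (ae_of_all _ fun η => ?_)
  have hlim : Tendsto (fun n : ℕ => (n : ℝ) ^ (a - 1)) atTop atTop :=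
    (tendsto_rpow_atTop (by linarith)).comp tendsto_natCast_atTop_atTop
  filter_upwards [hlim.eventually_ge_atTop (1 + ‖v‖), eventually_ge_atTop 1] with n hn hn1
  have hn0 : (0 : ℝ) < n := by exact_mod_cast hn1
  have h1 : tube d n v ((n : ℝ) ^ a) = Set.univ := by
    refine tube_univ v ?_
    have h3 : (n : ℝ) ^ a = n * (n : ℝ) ^ (a - 1) := by
      rw [← Real.rpow_one_add' hn0.le (by linarith)]
      congr 1
      ring
    rw [h3]
    exact mul_le_mul_of_nonneg_left hn hn0.le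
  rw [h1, PolT_univ hd, sub_self]
  positivity

/-- **CURV for the exponent `ν` of the problem, every tilt and every velocity**: if
`L (h + r) - L h - ⟨v, r⟩ ≤ C ‖r‖ ^ p` near `0` then `p ν ≤ 1 + (p - 1) χ'`. -/
theorem upT42 (hd : 0 < d) (hω : IID μ ρ ω) (hρ : EM ρ) (hN : NrS d ρ β) (hT : TubNQ d ρ β)
    (h v : Vec d) {p : ℝ} (hp : 1 ≤ p) (hU : UpG (lam ρ β) h v p) :
    p * nuT μ β ω h v ≤ 1 + (p - 1) * chiV μ β ω h := by
  have hnu := nuT_le_one42 (μ := μ) (β := β) hd hω h v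
  have hc0 : 0 ≤ chiV μ β ω h := Real.sInf_nonneg fun b hb => hb.1.le
  rcases hp.eq_or_lt with h1 | hp1
  · rw [← h1]
    linarith
  by_contra hcon
  rw [not_le] at hcon
  have hp0 : 0 < p := by linarith
  -- an exponent `x > chiV` and a radius `a < nuT`
  obtain ⟨x, hx1, hx2⟩ : ∃ x, chiV μ β ω h < x ∧ 1 + (p - 1) * x < p * nuT μ β ω h v := by
    have h2 : 0 < p * nuT μ β ω h v - (1 + (p - 1) * chiV μ β ω h) := by
      linarith
    refine ⟨chiV μ β ω h + (p * nuT μ β ω h v - (1 + (p - 1) * chiV μ β ω h)) / (2 * (p - 1)),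
      ?_, ?_⟩
    · have : 0 < (p * nuT μ β ω h v - (1 + (p - 1) * chiV μ β ω h)) / (2 * (p - 1)) :=
        div_pos h2 (by linarith)
      linarith
    · have h3 : (p - 1) * ((p * nuT μ β ω h v - (1 + (p - 1) * chiV μ β ω h)) / (2 * (p - 1))) =
          (p * nuT μ β ω h v - (1 + (p - 1) * chiV μ β ω h)) / 2 := by
        have : p - 1 ≠ 0 := by linarith
        field_simp
      rw [mul_add, h3]
      linarith
  have hx0 : 0 < x := lt_of_le_of_lt hc0 hx1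
  obtain ⟨a, ha1, ha2⟩ : ∃ a, (1 + (p - 1) * x) / p < a ∧ a < nuT μ β ω h v := by
    refine exists_between ?_
    rw [div_lt_iff₀ hp0]
    linarith
  have hpa : 1 + (p - 1) * x < p * a := by
    rw [div_lt_iff₀ hp0] at ha1
    linarith
  have ha0 : 0 < a := by
    have h2 : 0 < (p - 1) * x := mul_pos (by linarith) hx0
    by_contra h3
    rw [not_lt] at h3
    have h4 : p * a ≤ 0 := mul_nonpos_of_nonneg_of_nonpos hp0.le h3
    linarith
  -- the variance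
  have hne : {x : ℝ | 0 < x ∧ ∀ᶠ n : ℕ in atTop,
      Var[fun y => Real.log (Zn β h (fun p => ω p y) n); μ] ≤ (n : ℝ) ^ (2 * x)}.Nonempty :=
    ⟨1, one_pos, var_half19 hd hω hρ h (by norm_num)⟩
  obtain ⟨b, hb, hbx⟩ := exists_lt_of_csInf_lt hne hx1
  have hV : ∀ᶠ k : ℕ in atTop, Va ρ β h k ≤ (k : ℝ) ^ (2 * x) := by
    filter_upwards [hb.2, eventually_ge_atTop 1] with k hk hk1
    rw [varV19 hd hω hρ] at hk
    have hk1' : (1 : ℝ) ≤ k := by exact_mod_cast hk1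
    exact hk.trans (Real.rpow_le_rpow_of_exponent_le hk1' (by linarith))
  have hmem : nuT μ β ω h v ≤ a :=
    nuT_le27 hω ha0 (tubT42 hd hρ hN hT hp1 hU hx0 ha0.le (by linarith) hpa hV)
  linarith

/-- **CURV at the growth exponent, for the exponent `ν` of the problem**: `G ν ≤ 1 + (G - 1) χ'`
at every tilt and every velocity. -/
theorem gamT42 (hd : 0 < d) (hω : IID μ ρ ω) (hρ : EM ρ) (hN : NrS d ρ β) (hT : TubNQ d ρ β)
    (h v : Vec d) : gam (lam ρ β) h v * nuT μ β ω h v ≤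
      1 + (gam (lam ρ β) h v - 1) * chiV μ β ω h := by
  have hc := chiV_le_half19 (μ := μ) (β := β) hd hω hρ h
  have h1 : gam (lam ρ β) h v * (nuT μ β ω h v - chiV μ β ω h) ≤ 1 - chiV μ β ω h := by
    refine sup42 (fun p hp => by linarith [hp.1]) (by linarith) fun p hp => ?_
    have h2 := upT42 hd hω hρ hN hT h v hp.1 hp.2
    linarith
  linarith

end Letters

end Pool.Agent.W_7d29a1_CV
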