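import Pool.Agent.W_7d29a1_QM.DefsCV
import Pool.Agent.W_7d29a1_KP.RelB19
import Pool.Agent.W_7d29a1_NR.Cor11
import Pool.Agent.W_7d29a1_D2.Gam46

/-!
Theorem CURV in the exponents of the variance and of the typical displacement: the growth of the
limiting free energy at the tilt bounds the displacement, at every tilt and every velocity.
-/

set_option autoImplicit false

namespace Pool.Agent.W_7d29a1_CV

open MeasureTheory ProbabilityTheory Filter Topology Pool.Agent.W_MP_7d29a1_pr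
  Pool.Agent.W_7d29a1_h46 Pool.Agent.W_7d29a1_h46u Pool.Agent.W_7d29a1_D2
  Pool.Agent.W_7d29a1_D2.B35 Pool.Agent.W_7d29a1_Q29 Pool.Agent.W_7d29a1_R34
  Pool.Agent.W_7d29a1_SP Pool.Agent.W_7d29a1_SD Pool.Agent.W_7d29a1_UC Pool.Agent.W_7d29a1_KZ
  Pool.Agent.W_7d29a1_KL Pool.Agent.W_7d29a1_KP Pool.Agent.W_7d29a1_NR
  Pool.Agent.W_7d29a1_D2.NuH99

variable {d : ℕ} {ρ : Measure ℝ} [IsProbabilityMeasure ρ] {β : ℝ}

/-- The nonrandom fluctuation against the variance. -/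
theorem efS42 (hd : 0 < d) (hρ : EM ρ) (hN : NrS d ρ β) (h : Vec d)
    {x : ℝ} (hx : 0 ≤ x) (hV : ∀ᶠ n : ℕ in atTop, Va ρ β h n ≤ (n : ℝ) ^ (2 * x)) :
    ∀ x' : ℝ, x < x' → ∀ᶠ n : ℕ in atTop, En ρ β h n ≤ (n : ℝ) ^ x' := by
  intro x' hx'
  have h1 := corX11 hd hρ hN h (x := 2 * x) (ε := 2 * (x' - x)) (by linarith) (by linarith) hV
  filter_upwards [h1] with n hn
  have hn0 : (0 : ℝ) ≤ n := Nat.cast_nonneg n
  have h2 : En ρ β h n ^ 2 ≤ ((n : ℝ) ^ x') ^ 2 := by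
    have h3 : 0 ≤ Va ρ β h n := Va_nonneg11 h n
    have h4 : ((n : ℝ) ^ x') ^ 2 = (n : ℝ) ^ (2 * x + 2 * (x' - x)) := by
      rw [← Real.rpow_natCast, ← Real.rpow_mul hn0]
      congr 1
      push_cast
      ring
    rw [h4]
    linarith
  exact le_of_sq_le_sq h2 (Real.rpow_nonneg hn0 _)

/-- The first moment against the variance. -/
lemma fnS42 (hd : 0 < d) (hρ : EM ρ) (h : Vec d) {x : ℝ}
    (hV : ∀ᶠ n : ℕ in atTop, Va ρ β h n ≤ (n : ℝ) ^ (2 * x)) :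
    ∀ᶠ k : ℕ in atTop, Fn ρ β h k ≤ (k : ℝ) ^ x := by
  filter_upwards [hV] with k hk
  have hk0 : (0 : ℝ) ≤ k := Nat.cast_nonneg k
  have h1 : Fn ρ β h k ^ 2 ≤ ((k : ℝ) ^ x) ^ 2 := by
    refine (fn_sq19 hd hρ h k).trans (hk.trans_eq ?_)
    rw [← Real.rpow_natCast ((k : ℝ) ^ x) 2, ← Real.rpow_mul hk0]
    congr 1
    push_cast
    ring
  exact le_of_sq_le_sq h1 (Real.rpow_nonneg hk0 x)

/-- One tilt: the mass outside of the tube of radius `n ^ a` tends to `0`, if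
`1 + (p - 1) x < p a` and the variance is at most `n ^ (2 x)`. -/
theorem tubS42 (hd : 0 < d) (hρ : EM ρ) (hN : NrS d ρ β) (hT : TubQ d ρ β) {h v : Vec d}
    {p : ℝ} (hp : 1 < p) (hU : UpG (lam ρ β) h v p) {x a : ℝ} (hx : 0 < x) (ha1 : a < 1)
    (hpa : 1 + (p - 1) * x < p * a)
    (hV : ∀ᶠ n : ℕ in atTop, Va ρ β h n ≤ (n : ℝ) ^ (2 * x)) :
    ∀ ε : ℝ, 0 < ε → ∀ᶠ n : ℕ in atTop,
      ∫ η, (1 - PolT β h η (tube d n v ((n : ℝ) ^ a))) ∂(law d ρ) ≤ ε := by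
  intro ε hε
  obtain ⟨C, δ, hδ, hC⟩ := hU
  have hp0 : 0 < p := by linarith
  have hp1 : 0 < p - 1 := by linarith
  -- the room
  obtain ⟨g, hg⟩ : ∃ g, g = (a - x) - (1 - a) / (p - 1) := ⟨_, rfl⟩
  have hg0 : 0 < g := by
    rw [hg, sub_pos, div_lt_iff₀ hp1]
    nlinarith
  obtain ⟨b, hb⟩ : ∃ b, b = (1 - a) / (p - 1) + g / 2 := ⟨_, rfl⟩
  have hb0 : 0 < b := by
    have : 0 < (1 - a) / (p - 1) := div_pos (by linarith) hp1
    rw [hb]
    linarith
  -- `a - b > x + g / 4 + g / 8` and `a - b > 1 - b p`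
  have hab : a - b = x + g / 2 := by
    rw [hb, hg]
    ring
  have hbp : 1 - b * p < a - b := by
    have h1 : b * (p - 1) = (1 - a) + g / 2 * (p - 1) := by
      rw [hb, add_mul, div_mul_cancel₀ _ hp1.ne']
    have h2 : 0 < g / 2 * (p - 1) := by positivity
    nlinarith
  obtain ⟨K, hK, hT'⟩ := hT ε (g / 8) hε (by linarith)
  have hF := fnS42 hd hρ h hV
  have hE := efS42 hd hρ hN h hx.le hV (x + g / 8) (by linarith)
  -- the limits
  have l1 : Tendsto (fun n : ℕ => (n : ℝ) ^ (-b)) atTop (𝓝 0) :=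
    (tendsto_rpow_neg_atTop hb0).comp tendsto_natCast_atTop_atTop
  have l2 : Tendsto (fun n : ℕ => (n : ℝ) ^ (a - b - (1 - b * p))) atTop atTop :=
    (tendsto_rpow_atTop (by linarith)).comp tendsto_natCast_atTop_atTop
  have l3 : Tendsto (fun n : ℕ => (n : ℝ) ^ (g / 4)) atTop atTop :=
    (tendsto_rpow_atTop (by linarith)).comp tendsto_natCast_atTop_atTop
  filter_upwards [hF, hE, l1.eventually (gt_mem_nhds hδ), l2.eventually_gt_atTop (2 * |C|),
    l3.eventually_gt_atTop (2 * K), eventually_ge_atTop 1] with n hFn hEn hn1 hn2 hn3 hn4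
  by_contra hcon
  rw [not_le] at hcon
  have hnR : (1 : ℝ) ≤ n := by exact_mod_cast hn4
  have hn0 : (0 : ℝ) < n := by linarith
  obtain ⟨r, hr⟩ : ∃ r, r = (n : ℝ) ^ (-b) := ⟨_, rfl⟩
  have hr0 : 0 < r := by
    rw [hr]
    positivity
  have hrδ : r ≤ δ := by
    rw [hr]
    exact hn1.le
  have hcap : Cap ρ β h v r (|C| * r ^ p) := by
    intro k hk
    have h1 := hC k (hk.trans hrδ)
    unfold gap at h1
    have h2 : C * ‖k‖ ^ p ≤ |C| * r ^ p := by
      have h3 : ‖k‖ ^ p ≤ r ^ p := Real.rpow_le_rpow (norm_nonneg k) hk hp0.le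
      have h4 : 0 ≤ ‖k‖ ^ p := Real.rpow_nonneg (norm_nonneg k) p
      exact mul_le_mul (le_abs_self C) h3 h4 (abs_nonneg C)
    linarith
  have hP1 : 1 ≤ (n : ℝ) ^ (x + g / 8) := Real.one_le_rpow hnR (by linarith)
  have hFn' : Fn ρ β h n ≤ (n : ℝ) ^ (x + g / 8) :=
    hFn.trans (Real.rpow_le_rpow_of_exponent_le hnR (by linarith))
  have hfin := hT' h v n ((n : ℝ) ^ (x + g / 8)) ((n : ℝ) ^ a) r (|C| * r ^ p) hn4 hP1 hr0.le
    (by positivity) (by positivity) hFn' hEn hcap hcon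
  -- the powers of `n`
  have e1 : r * (n : ℝ) ^ a = (n : ℝ) ^ (a - b) := by
    rw [hr, ← Real.rpow_add hn0]
    congr 1
    ring
  have e2 : (n : ℝ) * (|C| * r ^ p) = |C| * (n : ℝ) ^ (1 - b * p) := by
    have h1 : r ^ p = (n : ℝ) ^ (-(b * p)) := by
      rw [hr, ← Real.rpow_mul hn0.le]
      congr 1
      ring
    have h2 : (n : ℝ) ^ (1 - b * p) = n * (n : ℝ) ^ (-(b * p)) := by
      rw [show (1 - b * p) = 1 + -(b * p) by ring, Real.rpow_add hn0, Real.rpow_one]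
    rw [h1, h2]
    ring
  have e3 : K * (n : ℝ) ^ (g / 8) * (n : ℝ) ^ (x + g / 8) = K * (n : ℝ) ^ (x + g / 4) := by
    rw [mul_assoc, ← Real.rpow_add hn0]
    congr 2
    ring
  have e4 : (n : ℝ) ^ (a - b) = (n : ℝ) ^ (1 - b * p) * (n : ℝ) ^ (a - b - (1 - b * p)) := by
    rw [← Real.rpow_add hn0]
    congr 1
    ring
  have e5 : (n : ℝ) ^ (a - b) = (n : ℝ) ^ (x + g / 4) * (n : ℝ) ^ (g / 4) := by
    rw [← Real.rpow_add hn0, hab]
    congr 1
    ring
  rw [e1, e2, e3] at hfin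
  have h6 : 0 < (n : ℝ) ^ (1 - b * p) := Real.rpow_pos_of_pos hn0 _
  have h7 : 0 < (n : ℝ) ^ (x + g / 4) := Real.rpow_pos_of_pos hn0 _
  have h8 : 2 * |C| * (n : ℝ) ^ (1 - b * p) < (n : ℝ) ^ (a - b) := by
    rw [e4, mul_comm]
    exact mul_lt_mul_of_pos_left hn2 h6
  have h9 : 2 * K * (n : ℝ) ^ (x + g / 4) < (n : ℝ) ^ (a - b) := by
    rw [e5, mul_comm]
    exact mul_lt_mul_of_pos_left hn3 h7
  linarith

/-- A supremum of admissible powers is admissible. -/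
lemma sup42 {S : Set ℝ} {a b : ℝ} (hS : ∀ p ∈ S, 0 ≤ p) (hb : 0 ≤ b)
    (H : ∀ p ∈ S, p * a ≤ b) : sSup S * a ≤ b := by
  rcases le_or_gt a 0 with ha | ha
  · exact (mul_nonpos_of_nonneg_of_nonpos (Real.sSup_nonneg hS) ha).trans hb
  · rw [← le_div_iff₀ ha]
    exact Real.sSup_le (fun p hp => (le_div_iff₀ ha).2 (H p hp)) (by positivity)

section Letters

variable {Ω : Type*} [MeasurableSpace Ω] {μ : Measure Ω} [IsProbabilityMeasure μ]
  {ω : ℕ × Site d → Ω → ℝ}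

omit [IsProbabilityMeasure μ] in
/-- The exponent of the typical displacement is at most one. -/
theorem nuP_le_one42 (hd : 0 < d) (h v : Vec d) : nuP μ β ω h v ≤ 1 := by
  refine le_of_forall_gt_imp_ge_of_dense fun a ha => ?_
  refine csInf_le ⟨0, fun x hx => hx.1.le⟩ ⟨by linarith, ?_⟩
  have hlim : Tendsto (fun n : ℕ => (n : ℝ) ^ (a - 1)) atTop atTop :=
    (tendsto_rpow_atTop (by linarith)).comp tendsto_natCast_atTop_atTop
  refine (tendsto_congr' ?_).2 tendsto_const_nhds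
  filter_upwards [hlim.eventually_ge_atTop (1 + ‖v‖), eventually_ge_atTop 1] with n hn hn1
  have hn0 : (0 : ℝ) < n := by exact_mod_cast hn1
  have h1 : tube d n v ((n : ℝ) ^ a) = Set.univ := by
    refine tube_univ v ?_
    have h3 : (n : ℝ) ^ a = n * (n : ℝ) ^ (a - 1) := by
      rw [← Real.rpow_one_add' hn0.le (by linarith)]
      congr 1
      ring
    rw [h3]
    exact mul_le_mul_of_nonneg_left hn hn0.le
  rw [h1]
  simp only [PolT_univ hd, sub_self, integral_zero]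

/-- **CURV in exponents, every tilt and every velocity**: if
`L (h + r) - L h - ⟨v, r⟩ ≤ C ‖r‖ ^ p` near `0` then `p ν' ≤ 1 + (p - 1) χ'`. -/
theorem upV42 (hd : 0 < d) (hω : IID μ ρ ω) (hρ : EM ρ) (hN : NrS d ρ β) (hT : TubQ d ρ β)
    (h v : Vec d) {p : ℝ} (hp : 1 ≤ p) (hU : UpG (lam ρ β) h v p) :
    p * nuP μ β ω h v ≤ 1 + (p - 1) * chiV μ β ω h := by
  have hnu := nuP_le_one42 (μ := μ) (β := β) (ω := ω) hd h v
  have hc0 : 0 ≤ chiV μ β ω h := Real.sInf_nonneg fun b hb => hb.1.le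
  rcases hp.eq_or_lt with h1 | hp1
  · rw [← h1]
    linarith
  by_contra hcon
  rw [not_le] at hcon
  have hp0 : 0 < p := by linarith
  -- an exponent `x > chiV` and a radius `a < nuP`
  obtain ⟨x, hx1, hx2⟩ : ∃ x, chiV μ β ω h < x ∧ 1 + (p - 1) * x < p * nuP μ β ω h v := by
    have h2 : 0 < p * nuP μ β ω h v - (1 + (p - 1) * chiV μ β ω h) := by
      linarith
    refine ⟨chiV μ β ω h + (p * nuP μ β ω h v - (1 + (p - 1) * chiV μ β ω h)) / (2 * (p - 1)),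
      ?_, ?_⟩
    · have : 0 < (p * nuP μ β ω h v - (1 + (p - 1) * chiV μ β ω h)) / (2 * (p - 1)) :=
        div_pos h2 (by linarith)
      linarith
    · have h3 : (p - 1) * ((p * nuP μ β ω h v - (1 + (p - 1) * chiV μ β ω h)) / (2 * (p - 1))) =
          (p * nuP μ β ω h v - (1 + (p - 1) * chiV μ β ω h)) / 2 := by
        have : p - 1 ≠ 0 := by linarith
        field_simp
      rw [mul_add, h3]
      linarith
  have hx0 : 0 < x := lt_of_le_of_lt hc0 hx1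
  obtain ⟨a, ha1, ha2⟩ : ∃ a, (1 + (p - 1) * x) / p < a ∧ a < nuP μ β ω h v := by
    refine exists_between ?_
    rw [div_lt_iff₀ hp0]
    linarith
  have hpa : 1 + (p - 1) * x < p * a := by
    rw [div_lt_iff₀ hp0] at ha1
    linarith
  have ha0 : 0 < a := by
    have h2 : 0 < (p - 1) * x := mul_pos (by linarith) hx0
    by_contra h3
    rw [not_lt] at h3
    have h4 : p * a ≤ 0 := mul_nonpos_of_nonneg_of_nonpos hp0.le h3
    linarith
  -- the variance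
  have hne : {x : ℝ | 0 < x ∧ ∀ᶠ n : ℕ in atTop,
      Var[fun y => Real.log (Zn β h (fun p => ω p y) n); μ] ≤ (n : ℝ) ^ (2 * x)}.Nonempty :=
    ⟨1, one_pos, var_half19 hd hω hρ h (by norm_num)⟩
  obtain ⟨b, hb, hbx⟩ := exists_lt_of_csInf_lt hne hx1
  have hV : ∀ᶠ k : ℕ in atTop, Va ρ β h k ≤ (k : ℝ) ^ (2 * x) := by
    filter_upwards [hb.2, eventually_ge_atTop 1] with k hk hk1
    rw [varV19 hd hω hρ] at hk
    have hk1' : (1 : ℝ) ≤ k := by exact_mod_cast hk1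
    exact hk.trans (Real.rpow_le_rpow_of_exponent_le hk1' (by linarith))
  have H := tubS42 hd hρ hN hT hp1 hU hx0 (by linarith) hpa hV
  -- `a` is in the set
  have hmem : nuP μ β ω h v ≤ a := by
    refine csInf_le ⟨0, fun b hb => hb.1.le⟩ ⟨ha0, ?_⟩
    rw [Metric.tendsto_atTop]
    intro ε hε
    obtain ⟨n₀, hn₀⟩ := eventually_atTop.1 (H (ε / 2) (half_pos hε))
    refine ⟨n₀, fun n hn => ?_⟩
    have h1 := hn₀ n hn
    have e2 : ∫ x, (1 - PolT β h (fun p => ω p x) (tube d n v ((n : ℝ) ^ a))) ∂μ =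
        ∫ η, (1 - PolT β h η (tube d n v ((n : ℝ) ^ a))) ∂(law d ρ) :=
      StrA_int hω (F := fun η : Env d => 1 - PolT β h η (tube d n v ((n : ℝ) ^ a)))
        ((measurable_PolT β h _).const_sub 1)
    rw [Real.dist_eq, sub_zero, abs_of_nonneg (out_nonneg19 h v n _), e2]
    linarith
  linarith

/-- **CURV at the growth exponent**: `G ν' ≤ 1 + (G - 1) χ'` at every tilt and every velocity. -/
theorem gamV42 (hd : 0 < d) (hω : IID μ ρ ω) (hρ : EM ρ) (hN : NrS d ρ β) (hT : TubQ d ρ β)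
    (h v : Vec d) : gam (lam ρ β) h v * nuP μ β ω h v ≤
      1 + (gam (lam ρ β) h v - 1) * chiV μ β ω h := by
  have hc := chiV_le_half19 (μ := μ) (β := β) hd hω hρ h
  have h1 : gam (lam ρ β) h v * (nuP μ β ω h v - chiV μ β ω h) ≤ 1 - chiV μ β ω h := by
    refine sup42 (fun p hp => by linarith [hp.1]) (by linarith) fun p hp => ?_
    have h2 := upV42 hd hω hρ hN hT h v hp.1 hp.2
    linarith
  linarith

end Letters

end Pool.Agent.W_7d29a1_CV
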