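import Pool.Agent.W_7d29a1_NR.Law84
import Pool.Agent.W_7d29a1_h46u.ConcV

/-!
The median is at most the mean, for the laws of convex functions of a Gaussian variable (helper44).
-/

set_option autoImplicit false

namespace Pool.Agent.W_7d29a1_QM

open MeasureTheory ProbabilityTheory Filter Topology Set Pool.Agent.W_MP_7d29a1_pr
  Pool.Agent.W_7d29a1_h46 Pool.Agent.W_7d29a1_h46u Pool.Agent.W_7d29a1_SP
  Pool.Agent.W_7d29a1_SP.A84

/-- A point above which the mass is at least the mass below, at every distance, is below the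
mean. -/
lemma le_mean44 {Ω : Type*} [MeasurableSpace Ω] (P : Measure Ω) [IsProbabilityMeasure P]
    {Y : Ω → ℝ} (hY : Measurable Y) (hi : Integrable Y P) {s : ℝ}
    (h : ∀ y : ℝ, 0 < y → P.real {ω | Y ω ≤ s - y} ≤ P.real {ω | s + y < Y ω}) :
    s ≤ ∫ ω, Y ω ∂P := by
  have hs : Integrable (fun _ : Ω => s) P := integrable_const s
  have hf : Integrable (fun ω => max (s - Y ω) 0) P := (hs.sub hi).sup (integrable_zero _ _ _)
  have hg : Integrable (fun ω => max (Y ω - s) 0) P := (hi.sub hs).sup (integrable_zero _ _ _)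
  have h1 : ∫⁻ ω, ENNReal.ofReal (max (s - Y ω) 0) ∂P ≤
      ∫⁻ ω, ENNReal.ofReal (max (Y ω - s) 0) ∂P := by
    have mf : Measurable fun ω => max (s - Y ω) 0 := (measurable_const.sub hY).max measurable_const
    have mg : Measurable fun ω => max (Y ω - s) 0 := (hY.sub measurable_const).max measurable_const
    rw [lintegral_eq_lintegral_meas_le P (f := fun ω => max (s - Y ω) 0)
        (Eventually.of_forall fun ω => le_max_right _ _) mf.aemeasurable,
      lintegral_eq_lintegral_meas_lt P (f := fun ω => max (Y ω - s) 0)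
        (Eventually.of_forall fun ω => le_max_right _ _) mg.aemeasurable]
    refine setLIntegral_mono' measurableSet_Ioi fun t ht => ?_
    have ht0 : 0 < t := ht
    have e1 : {ω | t ≤ max (s - Y ω) 0} = {ω | Y ω ≤ s - t} := by
      ext ω
      simp only [mem_setOf_eq, le_max_iff]
      constructor
      · rintro (h2 | h2)
        · linarith
        · linarith
      · intro h2
        left
        linarith
    have e2 : {ω | t < max (Y ω - s) 0} = {ω | s + t < Y ω} := by
      ext ω
      simp only [mem_setOf_eq, lt_max_iff]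
      constructor
      · rintro (h2 | h2)
        · linarith
        · linarith
      · intro h2
        left
        linarith
    rw [e1, e2]
    have h3 := h t ht0
    rw [measureReal_def, measureReal_def] at h3
    exact (ENNReal.toReal_le_toReal (measure_ne_top _ _) (measure_ne_top _ _)).1 h3
  rw [← ofReal_integral_eq_lintegral_ofReal hf (Eventually.of_forall fun ω => le_max_right _ _),
    ← ofReal_integral_eq_lintegral_ofReal hg (Eventually.of_forall fun ω => le_max_right _ _)] at h1
  have h0' : 0 ≤ ∫ ω, max (Y ω - s) 0 ∂P := integral_nonneg fun ω => le_max_right (Y ω - s) 0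
  have h1' := (ENNReal.ofReal_le_ofReal_iff h0').1 h1
  have h2 : ∫ ω, (max (Y ω - s) 0 - max (s - Y ω) 0) ∂P = ∫ ω, (Y ω - s) ∂P := by
    refine integral_congr_ae (Eventually.of_forall fun ω => ?_)
    show max (Y ω - s) 0 - max (s - Y ω) 0 = Y ω - s
    rcases le_total (Y ω) s with h3 | h3
    · rw [max_eq_right (by linarith), max_eq_left (by linarith)]
      ring
    · rw [max_eq_left (by linarith), max_eq_right (by linarith)]
      ring
  rw [integral_sub hg hf, integral_sub hi hs, integral_const, probReal_univ, one_smul] at h2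
  linarith

/-- The abstract form: a random variable with the reflection inequality. -/
lemma med44 {Ω : Type*} [MeasurableSpace Ω] (P : Measure Ω) [IsProbabilityMeasure P]
    {Y : Ω → ℝ} (hY : Measurable Y) (hi : Integrable Y P)
    (hl : ∀ a s0 s1 : ℝ, Ehr.Phi a ≤ P.real {ω | Y ω ≤ s0} → P.real {ω | Y ω ≤ s1} ≤ Ehr.Phi 0 →
      P.real {ω | Y ω ≤ s1 + (s1 - s0)} ≤ Ehr.Phi (-a)) {u : ℝ} (hu : 0 < u) :
    P.real {ω | ∫ ω, Y ω ∂P + u ≤ Y ω} < 1 / 2 := by
  by_contra hcon
  push Not at hcon
  obtain ⟨A, hA⟩ : ∃ A : ℝ, A = ∫ ω, Y ω ∂P := ⟨_, rfl⟩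
  rw [← hA] at hcon
  have ms : ∀ s : ℝ, MeasurableSet {ω | Y ω ≤ s} := fun s => measurableSet_le hY measurable_const
  have hz : Ehr.Phi 0 = 1 / 2 := by
    have := Phi_add 0
    rw [neg_zero] at this
    linarith
  have h0 : P.real {ω | Y ω ≤ A + u / 2} ≤ Ehr.Phi 0 := by
    rw [hz]
    have h1 : {ω | Y ω ≤ A + u / 2} ⊆ {ω | A + u ≤ Y ω}ᶜ := by
      intro ω hω
      have hω' : Y ω ≤ A + u / 2 := hω
      show ¬ (A + u ≤ Y ω)
      push Not
      linarith
    have h2 := measureReal_mono (μ := P) h1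
    rw [probReal_compl_eq_one_sub (measurableSet_le measurable_const hY)] at h2
    linarith
  have h3 : A + u / 2 ≤ A := by
    conv_rhs => rw [hA]
    refine le_mean44 P hY hi fun y hy => ?_
    rcases (measureReal_nonneg (μ := P) (s := {ω | Y ω ≤ A + u / 2 - y})).eq_or_lt with h4 | h4
    · rw [← h4]
      exact measureReal_nonneg
    · have h5 : P.real {ω | Y ω ≤ A + u / 2 - y} < 1 := by
        have : P.real {ω | Y ω ≤ A + u / 2 - y} ≤ P.real {ω | Y ω ≤ A + u / 2} :=
          measureReal_mono fun ω hω => by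
            have hω' : Y ω ≤ A + u / 2 - y := hω
            show Y ω ≤ A + u / 2
            linarith
        linarith
      obtain ⟨a, ha⟩ := Ehr.exists_Phi h4 h5
      have h6 := hl a (A + u / 2 - y) (A + u / 2) ha.le h0
      rw [show A + u / 2 + (A + u / 2 - (A + u / 2 - y)) = A + u / 2 + y by ring] at h6
      have h7 : {ω | A + u / 2 + y < Y ω} = {ω | Y ω ≤ A + u / 2 + y}ᶜ := by
        ext ω
        simp
      rw [h7, probReal_compl_eq_one_sub (ms _)]
      have h8 := Phi_add a
      linarith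
  linarith

variable {d : ℕ} {ρ : Measure ℝ} {β : ℝ}

/-- The reflection inequality for the free energy. -/
lemma refl44 (hd : 0 < d) [IsProbabilityMeasure ρ] (hG : GC ρ) (hβ : 0 ≤ β) (h : Vec d) (m : ℕ)
    {a b s0 s1 t : ℝ} (ht : 0 ≤ t) (h0 : Ehr.Phi a ≤ (law d ρ).real {η | X β h η m ≤ s0})
    (h1 : (law d ρ).real {η | X β h η m ≤ s1} ≤ Ehr.Phi b) :
    (law d ρ).real {η | X β h η m ≤ s1 + t * (s1 - s0)} ≤ Ehr.Phi (b + t * (b - a)) := by
  classical
  have e : ∀ η : Env d, Pool.Agent.W_7d29a1_NR.L84.WD β h 0 m {0} (fun _ => 1) η = X β h η m := fun η => by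
    have e1 : sh 0 (0 : Site d) η = η := by
      unfold sh
      ext p
      simp
    unfold Pool.Agent.W_7d29a1_NR.L84.WD
    rw [Finset.sum_singleton, one_mul, Real.log_exp, e1]
  have key := Pool.Agent.W_7d29a1_NR.L84.luckW84 hd hG hβ h 0 m (D := {0}) (Finset.singleton_nonempty _)
    (w := fun _ => 1) (fun _ _ => one_pos) (a := a) (b := b) (s0 := s0) (s1 := s1) ht
  simp only [e] at key
  exact key h0 h1

/-- **The median of the free energy is at most its mean (strict form).** -/
theorem kw44 (hd : 0 < d) [IsProbabilityMeasure ρ] (hG : GC ρ) (hβ : 0 ≤ β) (h : Vec d) (m : ℕ)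
    (hi : Integrable (fun η => X β h η m) (law d ρ)) {u : ℝ} (hu : 0 < u) :
    (law d ρ).real {η | A ρ β h m + u ≤ X β h η m} < 1 / 2 := by
  refine med44 (law d ρ) (measurable_X β h m) hi (fun a s0 s1 h0 h1 => ?_) hu
  have := refl44 hd hG hβ h m (t := 1) (b := 0) zero_le_one h0 h1
  rw [one_mul, one_mul, zero_sub, zero_add] at this
  exact this

/-- The free energy is at most its mean plus `u` with probability at least one half. -/
theorem kwB44 (hd : 0 < d) [IsProbabilityMeasure ρ] (hG : GC ρ) (hβ : 0 ≤ β) (h : Vec d) (m : ℕ)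
    (hi : Integrable (fun η => X β h η m) (law d ρ)) {u : ℝ} (hu : 0 < u) :
    1 / 2 ≤ (law d ρ).real {η | X β h η m ≤ A ρ β h m + u} := by
  have h1 := kw44 hd hG hβ h m hi hu
  have h2 : {η | A ρ β h m + u ≤ X β h η m}ᶜ ⊆ {η | X β h η m ≤ A ρ β h m + u} := by
    intro η hη
    have hη' : ¬ (A ρ β h m + u ≤ X β h η m) := hη
    push Not at hη'
    exact hη'.le
  have h3 := measureReal_mono (μ := law d ρ) h2
  rw [probReal_compl_eq_one_sub (measurableSet_le measurable_const (measurable_X β h m))] at h3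
  linarith

/-- Both, from the exponential moments. -/
theorem kwE44 (hd : 0 < d) [IsProbabilityMeasure ρ] (hG : GC ρ) (hρ : EM ρ) (hβ : 0 ≤ β)
    (h : Vec d) (m : ℕ) {u : ℝ} (hu : 0 < u) :
    (law d ρ).real {η | A ρ β h m + u ≤ X β h η m} < 1 / 2 ∧
      1 / 2 ≤ (law d ρ).real {η | X β h η m ≤ A ρ β h m + u} :=
  ⟨kw44 hd hG hβ h m (concU hd hρ β h m).1 hu, kwB44 hd hG hβ h m (concU hd hρ β h m).1 hu⟩

end Pool.Agent.W_7d29a1_QM
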