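import Pool.Agent.W_7d29a1_OT.EhrU81
import Pool.Agent.W_7d29a1_KP.SinK95
import Pool.Agent.W_7d29a1_QM.DefsCV

/-!
Theorem CURV, every law (helper73, after helper81): a restricted free energy with a low mean is
rarely large, for a set of walks; the mean of the free energy of the walks at a far site.
-/

set_option autoImplicit false

namespace Pool.Agent.W_7d29a1_CV

open MeasureTheory ProbabilityTheory Filter Topology Pool.Agent.W_MP_7d29a1_pr
  Pool.Agent.W_7d29a1_h46 Pool.Agent.W_7d29a1_h46u Pool.Agent.W_7d29a1_D2.B35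
  Pool.Agent.W_7d29a1_Q29 Pool.Agent.W_7d29a1_R34 Pool.Agent.W_7d29a1_SP
  Pool.Agent.W_7d29a1_AM

namespace L73

variable {d : ℕ}

open Classical in
/-- The weights of the walks in `E`. -/
noncomputable def cE (h : Vec d) (m : ℕ) (E : Set (Fin m → Step d)) (s : Fin m → Step d) : ℝ :=
  if s ∈ E then U5.cw h m s else 0

/-- The free energy of the walks in `E`. -/
noncomputable def UE (β : ℝ) (h : Vec d) (m : ℕ) (E : Set (Fin m → Step d)) (η : Env d) : ℝ :=
  Real.log (ZT β h η E)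

lemma cE0 (h : Vec d) (m : ℕ) (E : Set (Fin m → Step d)) (s : Fin m → Step d) :
    0 ≤ cE h m E s := by
  unfold cE
  split_ifs
  · exact (Real.exp_pos _).le
  · exact le_rfl

lemma cE_le (h : Vec d) (m : ℕ) (E : Set (Fin m → Step d)) (s : Fin m → Step d) :
    cE h m E s ≤ U5.cw h m s := by
  unfold cE
  split_ifs
  · exact le_rfl
  · exact (Real.exp_pos _).le

lemma ZE_pr (β : ℝ) (h : Vec d) (m : ℕ) (E : Set (Fin m → Step d)) (η : Env d) :
    C5.Z β (cE h m E) U5.At (U5.pr d m η) = ZT β h η E := by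
  classical
  unfold C5.Z C5.T ZT wgt cE U5.cw
  refine Finset.sum_congr rfl fun s _ => ?_
  rw [U5.sum_At]
  by_cases hs : s ∈ E
  · rw [if_pos hs, if_pos hs, Real.exp_add]
  · rw [if_neg hs, if_neg hs, zero_mul]

lemma V_E (β : ℝ) (h : Vec d) (m : ℕ) (E : Set (Fin m → Step d)) (hE : E.Nonempty) (s₀ : ℝ)
    (η : Env d) :
    C5.V β (cE h m E) U5.At s₀ (U5.pr d m η) = Real.log (1 + Real.exp (UE β h m E η - s₀)) := by
  unfold C5.V C5.Dn
  rw [ZE_pr, sub_eq_add_neg, Real.exp_add]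
  unfold UE
  rw [Real.exp_log (ZT_pos β h η hE)]

lemma meas_UE (β : ℝ) (h : Vec d) (m : ℕ) (E : Set (Fin m → Step d)) :
    Measurable (UE β h m E) :=
  Real.measurable_log.comp (measurable_ZT β h _)

lemma UE_le (β : ℝ) (h : Vec d) (m : ℕ) (E : Set (Fin m → Step d)) (hE : E.Nonempty)
    (η : Env d) : UE β h m E η ≤ X β h η m := by
  refine Real.log_le_log (ZT_pos β h η hE) ?_
  rw [← ZE_pr, ← U5.Z_pr]
  unfold C5.Z C5.T
  exact Finset.sum_le_sum fun s _ => mul_le_mul_of_nonneg_right (cE_le h m E s) (Real.exp_pos _).le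

lemma int_UE (hd : 0 < d) {ρ : Measure ℝ} [IsProbabilityMeasure ρ] (hρ : EM ρ) (β : ℝ)
    (h : Vec d) (m : ℕ) (E : Set (Fin m → Step d)) (hE : E.Nonempty) :
    Integrable (UE β h m E) (law d ρ) := by
  obtain ⟨s, hs⟩ := hE
  have hX : Integrable (fun η => X β h η m) (law d ρ) := (concU hd hρ β h m).1
  have hE1 := (Pool.Agent.W_7d29a1_V.Conc42_energy (d := d) hρ s).1
  have hE2 : Integrable (fun η : Env d => inner ℝ h (emb (pos s m)) + β * energy η s)
      (law d ρ) := (integrable_const _).add (hE1.const_mul β)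
  refine Integrable.mono' (hX.abs.add hE2.abs) (meas_UE β h m E).aestronglyMeasurable
    (Eventually.of_forall fun η => ?_)
  have h1 := UE_le β h m E ⟨s, hs⟩ η
  have h2 : inner ℝ h (emb (pos s m)) + β * energy η s ≤ UE β h m E η := by
    unfold UE
    rw [Real.le_log_iff_exp_le (ZT_pos β h η ⟨s, hs⟩), ← ZE_pr]
    unfold C5.Z
    have h3 : Real.exp (inner ℝ h (emb (pos s m)) + β * energy η s) =
        C5.T β (cE h m E) U5.At s (U5.pr d m η) := by
      unfold C5.T cE U5.cw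
      rw [if_pos hs, U5.sum_At, Real.exp_add]
    rw [h3]
    refine Finset.single_le_sum (f := fun k => C5.T β (cE h m E) U5.At k (U5.pr d m η))
      (fun k _ => ?_) (Finset.mem_univ s)
    exact mul_nonneg (cE0 h m E k) (Real.exp_pos _).le
  rw [Real.norm_eq_abs]
  show |UE β h m E η| ≤ |X β h η m| + |inner ℝ h (emb (pos s m)) + β * energy η s|
  have a1 := le_abs_self (X β h η m)
  have a2 := neg_abs_le (inner ℝ h (emb (pos s m)) + β * energy η s)
  have a3 := abs_nonneg (X β h η m)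
  have a4 := abs_nonneg (inner ℝ h (emb (pos s m)) + β * energy η s)
  rw [abs_le]
  constructor <;> linarith

/-- The transfer of the law. -/
lemma lawE {ρ : Measure ℝ} [IsProbabilityMeasure ρ] {β : ℝ} (hβ : 0 ≤ β) (h : Vec d)
    (m : ℕ) (E : Set (Fin m → Step d)) (s₀ : ℝ)
    (hE : E.Nonempty) (T : Set ℝ) (hT : MeasurableSet T) :
    (PN ρ (U5.Nn d m)).real {y | C5.V β (cE h m E) U5.At s₀ y ∈ T} =
      (law d ρ).real {η | Real.log (1 + Real.exp (UE β h m E η - s₀)) ∈ T} := by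
  have mV := (cls5 hβ (cE0 h m E) U5.At s₀).meas
  have mS : MeasurableSet {y | C5.V β (cE h m E) U5.At s₀ y ∈ T} := mV hT
  rw [← U5.law_pr, map_measureReal_apply (U5.meas_pr m) mS]
  congr 1
  ext η
  show C5.V β (cE h m E) U5.At s₀ (U5.pr d m η) ∈ T ↔ _
  rw [V_E β h m E hE s₀ η]
  rfl

/-- Amplification of a restricted free energy, every law. -/
lemma ampE {ρ : Measure ℝ} [IsProbabilityMeasure ρ] {β : ℝ} (hβ : 0 ≤ β) (hA : AmpCN ρ β)
    (t : ℝ) (ht : 1 ≤ t) : ∃ C : ℝ, 1 ≤ C ∧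
  ∀ (h : Vec d) (m : ℕ) (E : Set (Fin m → Step d)) (s₀ s₁ q : ℝ),
    E.Nonempty → 0 < q → q ≤ 1 / 2 →
    C * (1 + Real.log (1 / q)) ≤ s₁ - s₀ → q ≤ (law d ρ).real {η | UE β h m E η ≤ s₀} →
    q ≤ (law d ρ).real {η | s₁ < UE β h m E η} →
      q ^ C ≤ (law d ρ).real {η | s₁ + t * (s₁ - s₀) < UE β h m E η} := by
  obtain ⟨C, hC1, hC⟩ := hA (t + 3) (by linarith)
  refine ⟨3 * C, by linarith, fun h m E s₀ s₁ q hE hq hq2 hs h0 h1 => ?_⟩
  set s := s₁ - s₀ with hs'
  have hlq : 0 ≤ Real.log (1 / q) := Real.log_nonneg (by rw [le_div_iff₀ hq]; linarith)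
  have hs3 : 3 ≤ s := by nlinarith
  have e0 := lawE (ρ := ρ) hβ h m E s₀ hE (Set.Iic (Real.log 2)) measurableSet_Iic
  have e1 := lawE (ρ := ρ) hβ h m E s₀ hE (Set.Ici s) measurableSet_Ici
  have e2 := lawE (ρ := ρ) hβ h m E s₀ hE (Set.Ici ((t + 3) * s)) measurableSet_Ici
  simp only [Set.mem_Iic, Set.mem_Ici] at e0 e1 e2
  have hCs : C * (1 + Real.log (1 / q)) ≤ s := by nlinarith
  have key := hC (U5.Nn d m) (C5.V β (cE h m E) U5.At s₀) (C5.P β (cE h m E) U5.At s₀)
    (cls5 hβ (cE0 h m E) U5.At s₀) q s hq hq2 hCs ?_ ?_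
  · have h2 : q ^ C ≤ (law d ρ).real {η | s₁ + t * s < UE β h m E η} := by
      refine key.trans ?_
      rw [e2]
      refine measureReal_mono fun η
        (hη : (t + 3) * s ≤ Real.log (1 + Real.exp (UE β h m E η - s₀))) => ?_
      show s₁ + t * s < UE β h m E η
      have h3 := U5.log_le (UE β h m E η - s₀)
      have h4 := Real.log_two_lt_d9
      have h5 : (t + 3) * s - 1 < max (UE β h m E η - s₀) 0 := by linarith
      rcases le_total (UE β h m E η - s₀) 0 with h6 | h6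
      · rw [max_eq_right h6] at h5
        nlinarith
      · rw [max_eq_left h6] at h5
        nlinarith
    refine le_trans ?_ h2
    exact Real.rpow_le_rpow_of_exponent_ge hq (by linarith) (by linarith)
  · rw [e0]
    refine h0.trans ?_
    refine measureReal_mono fun η (hη : UE β h m E η ≤ s₀) => ?_
    show Real.log (1 + Real.exp (UE β h m E η - s₀)) ≤ Real.log 2
    apply Real.log_le_log (by positivity)
    have : Real.exp (UE β h m E η - s₀) ≤ 1 := Real.exp_le_one_iff.2 (by linarith)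
    linarith
  · rw [e1]
    refine h1.trans ?_
    refine measureReal_mono fun η (hη : s₁ < UE β h m E η) => ?_
    show s ≤ Real.log (1 + Real.exp (UE β h m E η - s₀))
    rw [Real.le_log_iff_exp_le (by positivity)]
    have : Real.exp s ≤ Real.exp (UE β h m E η - s₀) := Real.exp_le_exp.2 (by rw [hs']; linarith)
    linarith

/-- The lower tail of a restricted free energy, every law. -/
lemma deepE {ρ : Measure ℝ} [IsProbabilityMeasure ρ] {β : ℝ} (hβ : 0 ≤ β) (hA : DeepC ρ β) :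
    ∃ C c : ℝ, 1 ≤ C ∧ 0 < c ∧ ∀ (h : Vec d) (m : ℕ)
      (E : Set (Fin m → Step d)) (s₀ s₁ a q : ℝ),
      E.Nonempty → 0 < q → q ≤ 1 → C ≤ a →
      q ≤ (law d ρ).real {η | UE β h m E η ≤ s₀} →
      1 / 4 ≤ (law d ρ).real {η | s₁ < UE β h m E η} →
      (law d ρ).real {η | s₁ + a < UE β h m E η} < c →
        s₁ - s₀ ≤ C * (a * Real.sqrt (1 + Real.log (1 / q)) + (1 + Real.log (1 / q))) := by
  obtain ⟨C, c, hC1, hc0, hC⟩ := hA
  refine ⟨2 * C, c, by linarith, hc0, fun h m E s₀ s₁ a q hE hq hq1 ha h0 h1 hcon => ?_⟩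
  obtain ⟨s, hs⟩ : ∃ s : ℝ, s = s₁ - s₀ := ⟨_, rfl⟩
  rw [← hs]
  have hlq : 0 ≤ Real.log (1 / q) := Real.log_nonneg (by rw [le_div_iff₀ hq]; linarith)
  have e0 := lawE (ρ := ρ) hβ h m E s₀ hE (Set.Iic (Real.log 2)) measurableSet_Iic
  have e1 := lawE (ρ := ρ) hβ h m E s₀ hE (Set.Ici s) measurableSet_Ici
  have e2 := lawE (ρ := ρ) hβ h m E s₀ hE (Set.Ioi (s + (a + 1))) measurableSet_Ioi
  simp only [Set.mem_Iic, Set.mem_Ici, Set.mem_Ioi] at e0 e1 e2
  have ha1 : 1 ≤ a := by linarith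
  by_cases hs0 : s < 0
  · have : 0 ≤ 2 * C * (a * Real.sqrt (1 + Real.log (1 / q)) + (1 + Real.log (1 / q))) := by
      positivity
    linarith
  rw [not_lt] at hs0
  have key := hC (U5.Nn d m) (C5.V β (cE h m E) U5.At s₀) (C5.P β (cE h m E) U5.At s₀)
    (cls5 hβ (cE0 h m E) U5.At s₀) q s (a + 1) hq hq1 (by linarith) ?_ ?_ ?_
  · refine key.trans ?_
    have h2 : 0 ≤ Real.sqrt (1 + Real.log (1 / q)) := Real.sqrt_nonneg _
    have h3 : (a + 1) * Real.sqrt (1 + Real.log (1 / q)) ≤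
        2 * a * Real.sqrt (1 + Real.log (1 / q)) := mul_le_mul_of_nonneg_right (by linarith) h2
    have h4 : 2 * C * (a * Real.sqrt (1 + Real.log (1 / q)) + (1 + Real.log (1 / q))) =
        C * (2 * a * Real.sqrt (1 + Real.log (1 / q)) + 2 * (1 + Real.log (1 / q))) := by ring
    rw [h4]
    exact mul_le_mul_of_nonneg_left (by linarith) (by linarith)
  · rw [e0]
    refine h0.trans ?_
    refine measureReal_mono fun η (hη : UE β h m E η ≤ s₀) => ?_
    show Real.log (1 + Real.exp (UE β h m E η - s₀)) ≤ Real.log 2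
    apply Real.log_le_log (by positivity)
    have : Real.exp (UE β h m E η - s₀) ≤ 1 := Real.exp_le_one_iff.2 (by linarith)
    linarith
  · rw [e1]
    refine h1.trans ?_
    refine measureReal_mono fun η (hη : s₁ < UE β h m E η) => ?_
    show s ≤ Real.log (1 + Real.exp (UE β h m E η - s₀))
    rw [Real.le_log_iff_exp_le (by positivity)]
    have : Real.exp s ≤ Real.exp (UE β h m E η - s₀) := Real.exp_le_exp.2 (by rw [hs]; linarith)
    linarith
  · rw [e2]
    refine le_trans (measureReal_mono fun η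
      (hη : s + (a + 1) < Real.log (1 + Real.exp (UE β h m E η - s₀))) => ?_) hcon.le
    show s₁ + a < UE β h m E η
    have h3 := U5.log_le (UE β h m E η - s₀)
    have h4 := Real.log_two_lt_d9
    have h5 : s + a < max (UE β h m E η - s₀) 0 := by linarith
    rcases le_total (UE β h m E η - s₀) 0 with h6 | h6
    · rw [max_eq_right h6] at h5
      linarith
    · rw [max_eq_left h6] at h5
      linarith

/-- Markov. -/
lemma mkX (hd : 0 < d) {ρ : Measure ℝ} [IsProbabilityMeasure ρ] (hρ : EM ρ) (β : ℝ) (h : Vec d)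
    (m : ℕ) {u : ℝ} (hu : 0 < u) :
    (law d ρ).real {η | A ρ β h m + u < X β h η m} ≤ Fn ρ β h m / u := by
  have hi : Integrable (fun η => X β h η m - A ρ β h m) (law d ρ) :=
    (concU hd hρ β h m).1.sub (integrable_const _)
  have h2 := mul_meas_ge_le_integral_of_nonneg (μ := law d ρ)
    (f := fun η => |X β h η m - A ρ β h m|) (Eventually.of_forall fun η => abs_nonneg _)
    hi.abs u
  have h3 : (law d ρ).real {η | A ρ β h m + u < X β h η m} ≤
      (law d ρ).real {η | u ≤ |X β h η m - A ρ β h m|} := by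
    refine measureReal_mono fun η (hη : A ρ β h m + u < X β h η m) => ?_
    show u ≤ |X β h η m - A ρ β h m|
    refine le_trans ?_ (le_abs_self _)
    linarith
  rw [le_div_iff₀ hu, mul_comm]
  exact (mul_le_mul_of_nonneg_left h3 hu.le).trans h2

/-- The median is low. -/
lemma low73 (hd : 0 < d) {ρ : Measure ℝ} [IsProbabilityMeasure ρ] (hρ : EM ρ) {β : ℝ}
    (hβ : 0 ≤ β) (hA : AmpCN ρ β) (hD : DeepC ρ β) : ∃ C : ℝ, 1 ≤ C ∧
  ∀ (h : Vec d) (m : ℕ) (E : Set (Fin m → Step d)) (K l : ℝ),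
    1 ≤ K → C * K ≤ l → Fn ρ β h m ≤ K → E.Nonempty →
    ∫ η, UE β h m E η ∂(law d ρ) ≤ A ρ β h m - l →
      1 / 4 ≤ (law d ρ).real {η | UE β h m E η ≤ A ρ β h m - l / 4} := by
  obtain ⟨D, c, hD1, hc, hdeep⟩ := deepE (d := d) (ρ := ρ) hβ hD
  obtain ⟨ε, hε⟩ : ∃ ε : ℝ, ε = 1 / (64 * D) := ⟨_, rfl⟩
  have hε0 : 0 < ε := by rw [hε]; positivity
  obtain ⟨q₀, hq₀⟩ : ∃ q₀ : ℝ, q₀ = min (c / 2) (1 / 2) := ⟨_, rfl⟩
  have hq0 : 0 < q₀ := by rw [hq₀]; exact lt_min (by linarith) (by norm_num)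
  have hq2 : q₀ ≤ 1 / 2 := by rw [hq₀]; exact min_le_right _ _
  have hqc : q₀ < c := by rw [hq₀]; exact lt_of_le_of_lt (min_le_left _ _) (by linarith)
  obtain ⟨C1, hC1, hamp⟩ := ampE (d := d) (ρ := ρ) hβ hA (64 * D) (by linarith)
  have hlq : 0 ≤ Real.log (1 / q₀) := Real.log_nonneg (by rw [le_div_iff₀ hq0]; linarith)
  have hqC : 0 < q₀ ^ C1 := Real.rpow_pos_of_pos hq0 _
  obtain ⟨L0, hL0⟩ : ∃ L0 : ℝ, L0 = C1 * (1 + Real.log (1 / q₀)) := ⟨_, rfl⟩
  have hL00 : 0 ≤ L0 := by rw [hL0]; positivity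
  obtain ⟨W, hW⟩ : ∃ W : ℝ, W = 16 / q₀ ^ C1 := ⟨_, rfl⟩
  have hW0 : 0 < W := by rw [hW]; positivity
  refine ⟨64 * D * D + 128 * D + 128 * D * L0 + W + 65, by nlinarith, ?_⟩
  intro h m E K l hK hlK hV hne hE
  have hDD : 0 ≤ D * D := by positivity
  have hDL : 0 ≤ D * L0 := by positivity
  have hl' : 64 * D * D + 128 * D + 128 * D * L0 + W + 65 ≤ l := by
    refine le_trans ?_ hlK
    refine le_mul_of_one_le_right (by nlinarith) hK
  have hWK : W * K < l := by
    refine lt_of_lt_of_le ?_ hlK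
    refine mul_lt_mul_of_pos_right ?_ (by linarith)
    nlinarith
  have hl65 : 65 ≤ l := by nlinarith
  have hεl : ε * l = l / (64 * D) := by rw [hε]; ring
  have h64 : 64 * D * (ε * l) = l := by rw [hεl]; field_simp
  by_contra hcon
  push Not at hcon
  obtain ⟨M, hM1, hM2, hM3⟩ := Pool.Agent.W_7d29a1_UC.median31 (law d ρ) (meas_UE β h m E)
    (s₀ := A ρ β h m - l / 4) (by linarith)
  -- the upper side
  have hside : 1 / 4 ≤ (law d ρ).real {η | M - 1 < UE β h m E η} := by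
    have h1 := hM3 (M - 1) (by linarith)
    have h2 : {η | M - 1 < UE β h m E η} = {η | UE β h m E η ≤ M - 1}ᶜ := by
      ext η
      simp
    rw [h2, probReal_compl_eq_one_sub (measurableSet_le (meas_UE β h m E) measurable_const)]
    linarith
  -- the upper tail
  have hεl1 : 2 * L0 ≤ ε * l ∧ D ≤ ε * l ∧ 2 ≤ ε * l := by
    have h1 : 64 * D * D ≤ 64 * D * (ε * l) := by rw [h64]; nlinarith
    have h2 : 64 * D * (2 * L0) ≤ 64 * D * (ε * l) := by rw [h64]; nlinarith
    have h3 : 64 * D * 2 ≤ 64 * D * (ε * l) := by rw [h64]; nlinarith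
    have h4 : 0 < 64 * D := by linarith
    exact ⟨le_of_mul_le_mul_left h2 h4, le_of_mul_le_mul_left h1 h4, le_of_mul_le_mul_left h3 h4⟩
  obtain ⟨g1, g2, g3⟩ := hεl1
  have hup : (law d ρ).real {η | M - 1 + ε * l < UE β h m E η} < c := by
    refine lt_of_le_of_lt (b := q₀) ?_ hqc
    by_contra hq
    push Not at hq
    have h1 : q₀ ≤ (law d ρ).real {η | M + ε * l / 2 < UE β h m E η} := by
      refine hq.le.trans (measureReal_mono fun η (hη : M - 1 + ε * l < UE β h m E η) => ?_)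
      show M + ε * l / 2 < UE β h m E η
      linarith
    have h2 := hamp h m E M (M + ε * l / 2) q₀ hne hq0 hq2 (by rw [← hL0]; linarith)
      (by linarith) h1
    have h3 : M + ε * l / 2 + 64 * D * (M + ε * l / 2 - M) = M + ε * l / 2 + l / 2 := by
      have : 64 * D * (M + ε * l / 2 - M) = (64 * D * (ε * l)) / 2 := by ring
      rw [this, h64]
    rw [h3] at h2
    have h4 : (law d ρ).real {η | M + ε * l / 2 + l / 2 < UE β h m E η} ≤
        (law d ρ).real {η | A ρ β h m + l / 4 < X β h η m} := by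
      refine measureReal_mono fun η (hη : M + ε * l / 2 + l / 2 < UE β h m E η) => ?_
      show A ρ β h m + l / 4 < X β h η m
      have := UE_le β h m E hne η
      linarith
    have h5 := mkX hd hρ β h m (u := l / 4) (by linarith)
    have h6 : Fn ρ β h m / (l / 4) ≤ 16 * K / l := by
      rw [div_le_div_iff₀ (by positivity) (by linarith)]
      nlinarith
    have h7 : 16 * K / l < q₀ ^ C1 := by
      rw [div_lt_iff₀ (by linarith)]
      have h9 : q₀ ^ C1 * W = 16 := by rw [hW]; field_simp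
      have h10 : q₀ ^ C1 * (W * K) < q₀ ^ C1 * l := mul_lt_mul_of_pos_left hWK hqC
      have h11 : q₀ ^ C1 * (W * K) = 16 * K := by rw [← mul_assoc, h9]
      linarith
    linarith
  -- the lower tail
  obtain ⟨B, hB⟩ : ∃ B : ℝ, B = D * (ε * l + 1) := ⟨_, rfl⟩
  have hB0 : 0 < B := by rw [hB]; positivity
  have htail : ∀ t : ℝ, 0 < t → (law d ρ).real {η | UE β h m E η ≤ M - 1 - t} ≤
      Real.exp (1 - t / B) := by
    intro t ht
    obtain ⟨q, hq⟩ : ∃ q : ℝ, q = (law d ρ).real {η | UE β h m E η ≤ M - 1 - t} := ⟨_, rfl⟩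
    rw [← hq]
    rcases le_or_gt q 0 with h0 | h0
    · exact h0.trans (Real.exp_pos _).le
    have hq1 : q ≤ 1 := by rw [hq]; exact measureReal_le_one
    have h1 := hdeep h m E (M - 1 - t) (M - 1) (ε * l) q hne h0 hq1 g2 hq.le hside hup
    have hlq1 : 0 ≤ Real.log (1 / q) := Real.log_nonneg (by rw [le_div_iff₀ h0]; linarith)
    have h2 : Real.sqrt (1 + Real.log (1 / q)) ≤ 1 + Real.log (1 / q) := by
      rw [Real.sqrt_le_left (by linarith)]
      nlinarith
    have h3 : M - 1 - (M - 1 - t) = t := by ring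
    rw [h3] at h1
    have h4 : t ≤ B * (1 + Real.log (1 / q)) := by
      refine h1.trans ?_
      rw [hB]
      have h5 := mul_le_mul_of_nonneg_left h2 (show 0 ≤ ε * l by linarith)
      have h6 := mul_le_mul_of_nonneg_left h5 (show 0 ≤ D by linarith)
      nlinarith
    have h5 : t / B ≤ 1 + Real.log (1 / q) := by
      rw [div_le_iff₀ hB0]
      linarith
    have h6 : Real.log (1 / q) = - Real.log q := by rw [one_div, Real.log_inv]
    rw [← Real.exp_log h0]
    apply Real.exp_le_exp.2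
    linarith
  have hmean := W_7d29a1_OT.E81.exc81 (law d ρ) (int_UE hd hρ β h m E hne) hB0 htail
  have hB3 : 3 * B ≤ l / 8 := by
    have h1 : D * (ε * l) = l / 64 := by linarith
    have h2 : B = l / 64 + D := by rw [hB]; linarith
    rw [h2]
    nlinarith
  linarith

/-- A restricted free energy with a low mean is rarely large, every law. -/
lemma rare73 (hd : 0 < d) {ρ : Measure ℝ} [IsProbabilityMeasure ρ] (hρ : EM ρ) {β : ℝ}
    (hβ : 0 ≤ β) (hA : AmpCN ρ β) (hD : DeepC ρ β) : ∃ C : ℝ, 1 ≤ C ∧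
  ∀ (h : Vec d) (m : ℕ) (E : Set (Fin m → Step d)) (K l : ℝ),
    1 ≤ K → C * K ≤ l → Fn ρ β h m ≤ K → E.Nonempty →
    ∫ η, Real.log (ZT β h η E) ∂(law d ρ) ≤ A ρ β h m - l →
      (law d ρ).real {η | A ρ β h m - l / 8 < Real.log (ZT β h η E)} < 1 / 4 := by
  obtain ⟨C2, hC2, hlow⟩ := low73 (d := d) hd hρ hβ hA hD
  obtain ⟨C3, hC3, hamp⟩ := ampE (d := d) (ρ := ρ) hβ hA 3 (by norm_num)
  have hq : (0 : ℝ) < (1 / 4) ^ C3 := Real.rpow_pos_of_pos (by norm_num) _
  obtain ⟨W, hW⟩ : ∃ W : ℝ, W = 4 / (1 / 4) ^ C3 := ⟨_, rfl⟩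
  have hW0 : 0 < W := by rw [hW]; positivity
  have hl4 : 0 ≤ Real.log (1 / (1 / 4 : ℝ)) := Real.log_nonneg (by norm_num)
  obtain ⟨L4, hL4⟩ : ∃ L4 : ℝ, L4 = C3 * (1 + Real.log (1 / (1 / 4 : ℝ))) := ⟨_, rfl⟩
  have hL40 : 0 ≤ L4 := by rw [hL4]; positivity
  refine ⟨C2 + 8 * L4 + W + 1, by linarith, ?_⟩
  intro h m E K l hK hl hF hne hE
  have hK0 : 0 < K := by linarith
  have k1 : C2 * K ≤ l := le_trans (mul_le_mul_of_nonneg_right (by linarith) hK0.le) hl
  have k2 : 8 * L4 ≤ l := by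
    refine le_trans ?_ hl
    refine le_trans (b := (C2 + 8 * L4 + W + 1) * 1) (by linarith) ?_
    exact mul_le_mul_of_nonneg_left hK (by linarith)
  have k3 : W * K < l := by
    refine lt_of_lt_of_le ?_ hl
    exact mul_lt_mul_of_pos_right (by linarith) hK0
  have hl0 : 0 < l := lt_trans (by positivity) k3
  have h1 := hlow h m E K l hK k1 hF hne hE
  by_contra hcon
  push Not at hcon
  have h2 := hamp h m E (A ρ β h m - l / 4) (A ρ β h m - l / 8) (1 / 4) hne (by norm_num)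
    (by norm_num) (by rw [← hL4]; linarith) h1 hcon
  have h3 : (law d ρ).real {η | A ρ β h m - l / 8 + 3 * (A ρ β h m - l / 8 -
      (A ρ β h m - l / 4)) < UE β h m E η} ≤ (law d ρ).real {η | A ρ β h m + l / 4 < X β h η m} := by
    refine measureReal_mono fun η (hη : A ρ β h m - l / 8 + 3 * (A ρ β h m - l / 8 -
      (A ρ β h m - l / 4)) < UE β h m E η) => ?_
    show A ρ β h m + l / 4 < X β h η m
    have := UE_le β h m E hne η
    linarith
  have h5 := mkX hd hρ β h m (u := l / 4) (by linarith)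
  have h6 : Fn ρ β h m / (l / 4) ≤ 4 * K / l := by
    rw [div_le_div_iff₀ (by positivity) (by linarith)]
    nlinarith
  have h7 : 4 * K / l < (1 / 4) ^ C3 := by
    rw [div_lt_iff₀ hl0]
    have h9 : (1 / 4 : ℝ) ^ C3 * W = 4 := by rw [hW]; field_simp
    have h10 : (1 / 4 : ℝ) ^ C3 * (W * K) < (1 / 4) ^ C3 * l := mul_lt_mul_of_pos_left k3 hq
    have h11 : (1 / 4 : ℝ) ^ C3 * (W * K) = 4 * K := by rw [← mul_assoc, h9]
    linarith
  linarith

/-- The mean of the free energy of the walks at a far site. -/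
lemma mean73 (hd : 0 < d) {ρ : Measure ℝ} [IsProbabilityMeasure ρ] (hρ : EM ρ) (β : ℝ)
    {h v : Vec d} {n i : ℕ} {R r W : ℝ} {y : Site d} {E : Set (Fin n → Step d)} (hr : 0 ≤ r)
    (hR : 0 ≤ R) (hC : Cap ρ β h v r W) (hi : i ≤ n) (hne : E.Nonempty)
    (hE : ∀ s ∈ E, pos s i = y) (hy : R < ‖emb y - (i : ℝ) • v‖) :
    ∫ η, Real.log (ZT β h η E) ∂(law d ρ) ≤ n * lam ρ β h - (r * R - n * W) := by
  have hW : 0 ≤ W := by
    have := hC 0 (by rw [norm_zero]; exact hr)
    rw [add_zero, inner_zero_right, add_zero] at this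
    linarith
  obtain ⟨w, hw⟩ : ∃ w : Vec d, w = emb y - (i : ℝ) • v := ⟨_, rfl⟩
  rw [← hw] at hy
  have hw0 : 0 < ‖w‖ := lt_of_le_of_lt hR hy
  obtain ⟨z, hz⟩ : ∃ z : Vec d, z = (r / ‖w‖) • w := ⟨_, rfl⟩
  have hzn : ‖z‖ = r := by
    rw [hz, norm_smul, Real.norm_eq_abs, abs_of_nonneg (by positivity)]
    field_simp
  have hzw : inner ℝ z w = r * ‖w‖ := by
    rw [hz, real_inner_smul_left, real_inner_self_eq_norm_sq]
    field_simp
  have hcap := hC z hzn.le
  have iX : ∀ (g : Vec d) (k : ℕ), Integrable (fun η => X β g η k) (law d ρ) :=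
    fun g k => (concU hd hρ β g k).1
  have iS : Integrable (fun η => X β h (sh i y η) (n - i)) (law d ρ) :=
    (mp_sh (ρ := ρ) i y).integrable_comp_of_integrable (iX h (n - i))
  have hpt : ∀ η : Env d, Real.log (ZT β h η E) ≤
      X β (h + z) η i - inner ℝ z (emb y) + X β h (sh i y η) (n - i) := by
    intro η
    have h0 := W_7d29a1_KP.at95 β h η hi hE
    have h4 : PP β h η i y ≤ Real.exp (X β (h + z) η i - inner ℝ z (emb y)) := by
      have h5 : PP β (h + z) η i y ≤ Z β (h + z) η i := PP_le_Z _ _ _ _ _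
      rw [PP_tilt, TubV_exp hd β (h + z) η i] at h5
      have h6 : PP β h η i y = Real.exp (-inner ℝ z (emb y)) *
          (Real.exp (inner ℝ z (emb y)) * PP β h η i y) := by
        rw [← mul_assoc, ← Real.exp_add]
        simp
      rw [h6]
      calc Real.exp (-inner ℝ z (emb y)) * (Real.exp (inner ℝ z (emb y)) * PP β h η i y) ≤
          Real.exp (-inner ℝ z (emb y)) * Real.exp (X β (h + z) η i) :=
            mul_le_mul_of_nonneg_left h5 (Real.exp_pos _).le
        _ = Real.exp (X β (h + z) η i - inner ℝ z (emb y)) := by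
            rw [← Real.exp_add]
            ring_nf
    have h5 : Z β h (sh i y η) (n - i) = Real.exp (X β h (sh i y η) (n - i)) :=
      TubV_exp hd β h (sh i y η) (n - i)
    have h6 : PP β h η i y * Z β h (sh i y η) (n - i) ≤
        Real.exp (X β (h + z) η i - inner ℝ z (emb y) + X β h (sh i y η) (n - i)) := by
      rw [Real.exp_add, h5]
      exact mul_le_mul_of_nonneg_right h4 (Real.exp_pos _).le
    rw [Real.log_le_iff_le_exp (ZT_pos β h η hne)]
    exact h0.trans h6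
  have h1 : ∫ η, Real.log (ZT β h η E) ∂(law d ρ) ≤
      ∫ η, (X β (h + z) η i - inner ℝ z (emb y) + X β h (sh i y η) (n - i)) ∂(law d ρ) :=
    integral_mono (int_UE hd hρ β h n E hne)
      (((iX (h + z) i).sub (integrable_const _)).add iS) hpt
  have h2 : ∫ η, (X β (h + z) η i - inner ℝ z (emb y) + X β h (sh i y η) (n - i)) ∂(law d ρ) =
      A ρ β (h + z) i - inner ℝ z (emb y) + A ρ β h (n - i) := by
    rw [integral_add (f := fun η => X β (h + z) η i - inner ℝ z (emb y))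
      (g := fun η => X β h (sh i y η) (n - i)) ((iX (h + z) i).sub (integrable_const _)) iS,
      integral_sub (f := fun η => X β (h + z) η i) (g := fun _ => inner ℝ z (emb y))
      (iX (h + z) i) (integrable_const _), integral_const, probReal_univ, one_smul,
      integral_sh i y (measurable_X β h (n - i))]
    rfl
  have h3 := A_le_lam hd hρ β (h + z) i
  have h4 := A_le_lam hd hρ β h (n - i)
  rw [Nat.cast_sub hi] at h4
  have h5 : (i : ℝ) * lam ρ β (h + z) ≤ i * (lam ρ β h + inner ℝ v z + W) :=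
    mul_le_mul_of_nonneg_left hcap (Nat.cast_nonneg i)
  have h6 : inner ℝ z (emb y) = r * ‖w‖ + i * inner ℝ v z := by
    have h7 : emb y = w + (i : ℝ) • v := by rw [hw]; abel
    rw [h7, inner_add_right, hzw, inner_smul_right, real_inner_comm]
  have h7 : (i : ℝ) * W ≤ n * W := mul_le_mul_of_nonneg_right (by exact_mod_cast hi) hW
  have h8 : r * R ≤ r * ‖w‖ := mul_le_mul_of_nonneg_left hy.le hr
  linarith

end L73

end Pool.Agent.W_7d29a1_CV
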