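import Pool.Agent.W_7d29a1_PL.CorL63
import Pool.Agent.W_7d29a1_QM.BdD21
import Pool.Agent.W_7d29a1_QM.DefsOW
import Pool.Agent.W_7d29a1_SW.WZero98

/-!
Theorem OWN, leaf ONED (helper21): the core at one tilt and one scale in every dimension. Small
fluctuations up to `4 n` force the polymer of length `n` out of every tube of radius
`n ^ (1 / d + c)`.
-/

set_option autoImplicit false

namespace Pool.Agent.W_7d29a1_OW

open MeasureTheory ProbabilityTheory Filter Topology Pool.Agent.W_MP_7d29a1_pr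
  Pool.Agent.W_7d29a1_h46 Pool.Agent.W_7d29a1_h46u Pool.Agent.W_7d29a1_D2.B35
  Pool.Agent.W_7d29a1_Q29 Pool.Agent.W_7d29a1_R34 Pool.Agent.W_7d29a1_SP Pool.Agent.W_7d29a1_V
  Pool.Agent.W_7d29a1_SW Pool.Agent.W_7d29a1_PL Pool.Agent.W_7d29a1_QM

/-- **Leaf ONED.** -/
theorem oneD21 {d : ℕ} {ρ : Measure ℝ} [IsProbabilityMeasure ρ] (hd : 0 < d) {β : ℝ}
    (hNP : NPB d ρ β) (hCor : CorL d ρ β) : OneD d ρ β := by
  obtain ⟨C₀, hC₀, hNP⟩ := hNP
  intro g hg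
  obtain ⟨c₁, hc₁, hcor⟩ := hCor g 1 hg zero_le_one
  have hdR : (0 : ℝ) < d := by exact_mod_cast hd
  obtain ⟨c, hc⟩ : ∃ c : ℝ, c = c₁ / (4 * (d + 1)) := ⟨_, rfl⟩
  have hc0 : 0 < c := by
    rw [hc]
    positivity
  have hc4 : c ≤ c₁ / 4 := by
    rw [hc]
    exact div_le_div_of_nonneg_left hc₁.le (by norm_num) (by nlinarith)
  have hcd : c * d ≤ c₁ / 4 := by
    rw [hc, div_mul_eq_mul_div, div_le_div_iff₀ (by positivity) (by norm_num)]
    nlinarith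
  refine ⟨c, hc0, fun h hgap => ?_⟩
  obtain ⟨n₁, hn₁⟩ := hcor h hgap
  have hl : Tendsto (fun n : ℕ => Real.log n) atTop atTop :=
    Real.tendsto_log_atTop.comp tendsto_natCast_atTop_atTop
  obtain ⟨C₁, hC₁⟩ : ∃ C₁ : ℝ, C₁ = 2 * Real.log 2 + Real.log (3 ^ d * (200 * (C₀ + 1))) :=
    ⟨_, rfl⟩
  obtain ⟨n₂, hn₂⟩ := eventually_atTop.1 (hl.eventually_ge_atTop (C₁ / (c₁ / 2)))
  refine ⟨max n₁ (max n₂ 10), fun n hn hV v => ?_⟩
  have hn1 : n₁ ≤ n := (le_max_left _ _).trans hn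
  have hn2 : n₂ ≤ n := (le_max_left _ _).trans ((le_max_right _ _).trans hn)
  have hn10 : 10 ≤ n := (le_max_right _ _).trans ((le_max_right _ _).trans hn)
  have hn0 : (1 : ℝ) ≤ n := by exact_mod_cast (by omega : 1 ≤ n)
  have hnp : (0 : ℝ) < n := by linarith
  by_contra hcon
  push Not at hcon
  obtain ⟨w, hw⟩ : ∃ w : ℝ, w = (n : ℝ) ^ (1 / (d : ℝ) + c) := ⟨_, rfl⟩
  rw [← hw] at hcon
  have hw1 : 1 ≤ w := by
    rw [hw]
    exact Real.one_le_rpow hn0 (by positivity)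
  have hwd : w ^ d = (n : ℝ) ^ (1 + c * d) := by
    rw [hw, ← Real.rpow_natCast, ← Real.rpow_mul hnp.le]
    congr 1
    field_simp
  have hK : 1 ≤ (n : ℝ) ^ (c₁ / 4) := Real.one_le_rpow hn0 (by positivity)
  have hwn : w ^ d ≤ (n : ℝ) ^ (c₁ / 4) * n := by
    have h1 : (n : ℝ) ^ (c₁ / 4) * n = (n : ℝ) ^ (1 + c₁ / 4) := by
      rw [Real.rpow_add hnp, Real.rpow_one, mul_comm]
    rw [hwd, h1]
    exact Real.rpow_le_rpow_of_exponent_le hn0 (by linarith)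
  have hVn : Va ρ β h n ≤ (n : ℝ) ^ (c₁ / 4) :=
    (hV n (by omega)).1.trans (Real.rpow_le_rpow_of_exponent_le hn0 hc4)
  have hloc : ∀ t : ℕ, t ≤ n →
      ∫ η, (1 - ∑ y ∈ bal v t w, Qt β h n t y η) ∂(law d ρ) ≤ 1 / 8 := by
    intro t ht
    refine (integral_mono ?_ ?_ fun η => W098.bal_tube98 ht β h v le_rfl η).trans hcon
    · have h5 : (fun η : Env d => 1 - ∑ y ∈ bal v t w, Qt β h n t y η) =
          fun η => 1 - PolT β h η {s : Fin n → Step d | pos s t ∈ bal v t w} := by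
        funext η
        rw [sum_Qt ht]
      rw [h5]
      exact (integrable_const 1).sub (integrable_PolT72 β h _)
    · exact (integrable_const 1).sub (integrable_PolT72 β h _)
  have h1 := bdD21 (ρ := ρ) hd (β := β) hC₀ (h := h) (v := v) (n := n) hn10 hK hw1 (hNP h n)
    hloc hVn hwn
  have h2 := hn₂ n hn2
  rw [div_le_iff₀ (by positivity)] at h2
  have h3 : (n : ℝ) ^ c ≤ (n : ℝ) ^ c₁ :=
    Real.rpow_le_rpow_of_exponent_le hn0 (by linarith)
  refine hn₁ n hn1 (fun k hk => ⟨(hV k hk).1.trans h3, (hV k hk).2.trans h3⟩) ?_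
  intro I B θ D hB hD hJ
  refine (h1 I B θ D hB hD hJ).trans ?_
  rw [Real.log_rpow hnp, ← hC₁]
  linarith

end Pool.Agent.W_7d29a1_OW
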