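import Pool.Agent.W_7d29a1_QM.DefsOW
import Pool.Agent.W_7d29a1_QM.BdD21
import Pool.Agent.W_7d29a1_SW.WZero98
import Pool.Agent.W_7d29a1_PL.DefsPL

/-!
Leaf ONED of theorem OWN (helper74): the tube at one scale from the core of the power law.
-/

set_option autoImplicit false

namespace Pool.Agent.W_7d29a1_OW

open MeasureTheory ProbabilityTheory Filter Topology Pool.Agent.W_MP_7d29a1_pr
  Pool.Agent.W_7d29a1_h46 Pool.Agent.W_7d29a1_h46u Pool.Agent.W_7d29a1_D2.B35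
  Pool.Agent.W_7d29a1_Q29 Pool.Agent.W_7d29a1_R34 Pool.Agent.W_7d29a1_SP Pool.Agent.W_7d29a1_SD
  Pool.Agent.W_7d29a1_SW Pool.Agent.W_7d29a1_PL

/-- **ONED.** -/
theorem oneD74 {d : ℕ} {ρ : Measure ℝ} [IsProbabilityMeasure ρ] (hd : 0 < d) {β : ℝ}
    (hNP : NPB d ρ β) (hCor : ∀ g C₀ : ℝ, 0 < g → 0 ≤ C₀ → ∃ c : ℝ, 0 < c ∧ ∀ h : Vec d,
      lam ρ β h + g ≤ Real.log (Phi h) + Real.log (∫ t, Real.exp (β * t) ∂ρ) →
        ∃ n₀ : ℕ, ∀ n : ℕ, n₀ ≤ n →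
          (∀ k : ℕ, k ≤ 4 * n → Va ρ β h k ≤ (n : ℝ) ^ c ∧ En ρ β h k ≤ (n : ℝ) ^ c) →
            ¬ Bd ρ β h n (c * Real.log n) C₀) : OneD d ρ β := by
  obtain ⟨C₀, hC₀, hNP⟩ := hNP
  intro g hg
  obtain ⟨c₁, hc₁, hcor⟩ := hCor g 1 hg zero_le_one
  have hdR : (1 : ℝ) ≤ d := by exact_mod_cast hd
  have hd0 : (0 : ℝ) < d := by linarith
  obtain ⟨c, hc⟩ : ∃ c : ℝ, c = c₁ / (4 * d) := ⟨_, rfl⟩
  have hc0 : 0 < c := by
    rw [hc]
    positivity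
  have hcd : c * d = c₁ / 4 := by
    rw [hc]
    field_simp
  have hcc : c ≤ c₁ := by nlinarith
  refine ⟨c, hc0, fun h hgap => ?_⟩
  obtain ⟨n₁, hn₁⟩ := hcor h hgap
  obtain ⟨D, hD⟩ : ∃ D : ℝ, D = 2 * Real.log 2 + Real.log (3 ^ d * (200 * (C₀ + 1))) := ⟨_, rfl⟩
  have hl : Tendsto (fun n : ℕ => Real.log n) atTop atTop :=
    Real.tendsto_log_atTop.comp tendsto_natCast_atTop_atTop
  obtain ⟨n₂, hn₂⟩ := eventually_atTop.1 (hl.eventually_ge_atTop (D / (c₁ / 2)))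
  refine ⟨max n₁ (max n₂ 10), fun n hn hV v => ?_⟩
  have hn1 : n₁ ≤ n := (le_max_left _ _).trans hn
  have hn2 : n₂ ≤ n := (le_max_left _ _).trans ((le_max_right _ _).trans hn)
  have hn10 : 10 ≤ n := (le_max_right _ _).trans ((le_max_right _ _).trans hn)
  have hn0 : (1 : ℝ) ≤ n := by exact_mod_cast (by omega : 1 ≤ n)
  have hnp : (0 : ℝ) < n := by linarith
  by_contra hcon
  push Not at hcon
  obtain ⟨w, hw⟩ : ∃ w : ℝ, w = (n : ℝ) ^ (1 / (d : ℝ) + c) := ⟨_, rfl⟩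
  rw [← hw] at hcon
  have hw1 : 1 ≤ w := by
    rw [hw]
    exact Real.one_le_rpow hn0 (by positivity)
  obtain ⟨K, hK⟩ : ∃ K : ℝ, K = (n : ℝ) ^ (c * d) := ⟨_, rfl⟩
  have hK1 : 1 ≤ K := by
    rw [hK]
    exact Real.one_le_rpow hn0 (by positivity)
  have hwn : w ^ d ≤ K * n := by
    rw [hw, hK, ← Real.rpow_natCast, ← Real.rpow_mul hnp.le]
    have e1 : (1 / (d : ℝ) + c) * ((d : ℕ) : ℝ) = c * d + 1 := by
      field_simp
      ring
    rw [e1, Real.rpow_add hnp, Real.rpow_one]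
  have hcK : (n : ℝ) ^ c ≤ K := by
    rw [hK]
    exact Real.rpow_le_rpow_of_exponent_le hn0 (by nlinarith)
  have hloc : ∀ t : ℕ, t ≤ n →
      ∫ η, (1 - ∑ y ∈ bal v t w, Qt β h n t y η) ∂(law d ρ) ≤ 1 / 8 := by
    intro t ht
    refine le_trans (integral_mono ?_ ?_ fun η => W098.bal_tube98 ht β h v le_rfl η) hcon
    · have h5 : (fun η : Env d => 1 - ∑ y ∈ bal v t w, Qt β h n t y η) =
          fun η => 1 - PolT β h η {s : Fin n → Step d | pos s t ∈ bal v t w} := by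
        funext η
        rw [sum_Qt ht]
      rw [h5]
      exact (integrable_const 1).sub (integrable_PolT72 β h _)
    · exact (integrable_const 1).sub (integrable_PolT72 β h _)
  have h1 := Pool.Agent.W_7d29a1_QM.bdD21 (ρ := ρ) hd (β := β) hC₀ (h := h) (v := v) hn10 hK1 hw1
    (hNP h n) hloc ((hV n (by omega)).1.trans hcK) hwn
  rw [← hD] at h1
  have h2 := hn₂ n hn2
  rw [div_le_iff₀ (by positivity)] at h2
  have h3 : (n : ℝ) ^ c ≤ (n : ℝ) ^ c₁ := Real.rpow_le_rpow_of_exponent_le hn0 hcc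
  refine hn₁ n hn1 (fun k hk => ⟨(hV k hk).1.trans h3, (hV k hk).2.trans h3⟩) ?_
  intro I B θ D' hB hD' hJ
  refine (h1 I B θ D' hB hD' hJ).trans ?_
  have h4 : Real.log K = c₁ / 4 * Real.log n := by
    rw [hK, Real.log_rpow hnp, hcd]
  rw [h4]
  linarith

end Pool.Agent.W_7d29a1_OW
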