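import Pool.Agent.W_7d29a1_QM.Del44
import Pool.Agent.W_7d29a1_QM.Kw44
import Pool.Agent.W_7d29a1_NR.SplC45
import Pool.Agent.W_7d29a1_NR.Tra11
import Pool.Agent.W_7d29a1_SW.NgW48

/-!
Theorem QM (helper74), second text (helper44): the random fluctuation at a short length is at most
the one of EVERY longer length, up to a subpolynomial factor of the SHORT one.
-/

set_option autoImplicit false

namespace Pool.Agent.W_7d29a1_QM

open MeasureTheory ProbabilityTheory Filter Topology Pool.Agent.W_MP_7d29a1_pr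
  Pool.Agent.W_7d29a1_h46 Pool.Agent.W_7d29a1_h46u Pool.Agent.W_7d29a1_D2.B35
  Pool.Agent.W_7d29a1_Q29 Pool.Agent.W_7d29a1_R34 Pool.Agent.W_7d29a1_SP
  Pool.Agent.W_7d29a1_NR

variable {d : ℕ} {ρ : Measure ℝ} {β : ℝ}

/-- The integral over the resampled future and the past is the integral. -/
lemma int_spl44 [IsProbabilityMeasure ρ] (k : ℕ) {F : Env d → ℝ} (hF : Integrable F (law d ρ))
    (mF : Measurable F) : ∫ η, ∫ ξ, F (spl (Pa d k) η ξ) ∂(law d ρ) ∂(law d ρ) =
      ∫ η, F η ∂(law d ρ) := by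
  have i1 : Integrable (fun w : Env d × Env d => F (spl (Pa d k) w.1 w.2))
      ((law d ρ).prod (law d ρ)) := (mp_spl (ρ := ρ) (Pa d k)).integrable_comp_of_integrable hF
  rw [integral_integral i1]
  conv_rhs => rw [← (mp_spl (ρ := ρ) (Pa d k)).map_eq]
  rw [integral_map (mp_spl (ρ := ρ) (Pa d k)).aemeasurable]
  rw [(mp_spl (ρ := ρ) (Pa d k)).map_eq]
  exact mF.aestronglyMeasurable

/-- The split, with a past at which `X_k` is at most its mean plus one. -/
theorem splQ44 [IsProbabilityMeasure ρ] (hd : 0 < d) (hρ : EM ρ)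
    (hK : ∀ (h : Vec d) (k : ℕ), 1 / 2 ≤ (law d ρ).real {η | X β h η k ≤ A ρ β h k + 1}) :
    SplQ44 d ρ β := by
  intro h k m
  have hX : ∀ k, Integrable (fun η => X β h η k) (law d ρ) := fun k => (concU hd hρ β h k).1
  have mX := measurable_X (d := d) β h
  obtain ⟨a, ha⟩ : ∃ a : ℝ, a = A ρ β h (k + m) := ⟨_, rfl⟩
  have iF : Integrable (fun η => |X β h η (k + m) - a|) (law d ρ) :=
    ((hX (k + m)).sub (integrable_const a)).abs
  have mF : Measurable (fun η => |X β h η (k + m) - a|) := ((mX (k + m)).sub_const a).abs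
  have iP : Integrable (fun w : Env d × Env d => |X β h (spl (Pa d k) w.1 w.2) (k + m) - a|)
      ((law d ρ).prod (law d ρ)) := (mp_spl (ρ := ρ) (Pa d k)).integrable_comp_of_integrable iF
  obtain ⟨f, hf⟩ : ∃ f : Env d → ℝ,
    f = fun η => ∫ ξ, |X β h (spl (Pa d k) η ξ) (k + m) - a| ∂(law d ρ) := ⟨_, rfl⟩
  have iL : Integrable f (law d ρ) := by
    rw [hf]
    exact iP.integral_prod_left
  have e1 : ∫ η, f η ∂(law d ρ) = Fn ρ β h (k + m) := by
    rw [hf, int_spl44 k iF mF, ha]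
    rfl
  have iG := (GK_integrable45 (ρ := ρ) hd hρ β h k m).prod_right_ae
  obtain ⟨s, hs⟩ : ∃ s : Set (Env d), s = {η | X β h η k ≤ A ρ β h k + 1} := ⟨_, rfl⟩
  have ms : MeasurableSet s := by
    rw [hs]
    exact measurableSet_le (mX k) measurable_const
  have hs1 : 1 / 2 ≤ (law d ρ).real s := by
    rw [hs]
    exact hK h k
  have hs0 : (law d ρ) s ≠ 0 := by
    intro h0
    rw [measureReal_def, h0] at hs1
    norm_num at hs1
  have hpos := measure_le_setAverage_pos (μ := law d ρ) hs0 (measure_ne_top _ _) iL.integrableOn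
  have hae : ∀ᵐ η ∂(law d ρ), Integrable (fun ξ => GK ρ β h k m η ξ) (law d ρ) := iG
  obtain ⟨η, ⟨hη1, hη2⟩, hη3⟩ : ∃ η, (η ∈ s ∧ f η ≤ ⨍ a in s, f a ∂(law d ρ)) ∧
      Integrable (fun ξ => GK ρ β h k m η ξ) (law d ρ) := by
    by_contra hcon
    push Not at hcon
    have h1 : (law d ρ) {η | η ∈ s ∧ f η ≤ ⨍ a in s, f a ∂(law d ρ)} = 0 := by
      refine measure_mono_null (fun η hη => ?_) (ae_iff.1 hae)
      exact hcon η hη
    exact hpos.ne' h1
  have hav : ⨍ a in s, f a ∂(law d ρ) ≤ 2 * Fn ρ β h (k + m) := by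
    rw [setAverage_eq, smul_eq_mul, ← e1]
    have h1 : ∫ η in s, f η ∂(law d ρ) ≤ ∫ η, f η ∂(law d ρ) :=
      setIntegral_le_integral iL (Eventually.of_forall fun η => by
        rw [hf]
        exact integral_nonneg fun _ => abs_nonneg _)
    have h2 : 0 ≤ ∫ η in s, f η ∂(law d ρ) := setIntegral_nonneg ms fun η _ => by
      rw [hf]
      exact integral_nonneg fun _ => abs_nonneg _
    have h3 : ((law d ρ).real s)⁻¹ ≤ 2 := by
      rw [inv_le_comm₀ (by linarith) (by norm_num)]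
      linarith
    calc ((law d ρ).real s)⁻¹ * ∫ η in s, f η ∂(law d ρ) ≤ 2 * ∫ η in s, f η ∂(law d ρ) :=
          mul_le_mul_of_nonneg_right h3 h2
      _ ≤ 2 * ∫ η, f η ∂(law d ρ) := by linarith
  refine ⟨muK β h k η, a - X β h η k - A ρ β h m, muK_nonneg45 hd β h k η,
    muK_le_one45 hd β h k η, muK_sum45 hd β h k η, hη3, ?_, ?_⟩
  · rw [hs] at hη1
    have hη1' : X β h η k ≤ A ρ β h k + 1 := hη1
    rw [ha]
    linarith
  · have h1 := GK_int45 (ρ := ρ) hd β h k m η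
      (f := fun x => |x - (a - X β h η k - A ρ β h m)|) (by fun_prop)
    have h2 : ∫ ξ, |gain d ρ β h m (boxF d k) (muK β h k η) ξ -
        (a - X β h η k - A ρ β h m)| ∂(law d ρ) = f η := by
      rw [hf]
      refine h1.trans ?_
      refine integral_congr_ae (Eventually.of_forall fun ξ => ?_)
      show |_| = |_|
      congr 1
      ring
    rw [h2]
    exact hη2.trans hav

/-- Superadditivity and the comparison of the random fluctuations. -/
theorem comp44 [IsProbabilityMeasure ρ] (hd : 0 < d) (hρ : EM ρ) (h : Vec d) (k m : ℕ) :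
    A ρ β h k + A ρ β h m ≤ A ρ β h (k + m) ∧
    Fn ρ β h k ≤ Fn ρ β h (k + m) +
      2 * (A ρ β h (k + m) - A ρ β h k - A ρ β h m) := by
  have hX : ∀ k, Integrable (fun η => X β h η k) (law d ρ) := fun k => (concU hd hρ β h k).1
  have mX := measurable_X (d := d) β h
  obtain ⟨a, ha⟩ : ∃ a : ℝ, a = A ρ β h (k + m) := ⟨_, rfl⟩
  have jen := Pool.Agent.W_7d29a1_SW.N48.jen48 (ρ := ρ) hd hρ β h k m
  obtain ⟨g, hg⟩ : ∃ g : Env d → ℝ, g = fun η => ∫ ξ, (X β h (spl (Pa d k) η ξ) (k + m) - a)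
    ∂(law d ρ) := ⟨_, rfl⟩
  have iX' : Integrable (fun η => X β h η (k + m) - a) (law d ρ) :=
    (hX (k + m)).sub (integrable_const a)
  have iP : Integrable (fun w : Env d × Env d => X β h (spl (Pa d k) w.1 w.2) (k + m) - a)
      ((law d ρ).prod (law d ρ)) := (mp_spl (ρ := ρ) (Pa d k)).integrable_comp_of_integrable iX'
  have ig : Integrable g (law d ρ) := by
    rw [hg]
    exact iP.integral_prod_left
  have eg : ∫ η, g η ∂(law d ρ) = 0 := by
    rw [hg, int_spl44 k iX' ((mX (k + m)).sub_const a), integral_sub (hX (k + m))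
      (integrable_const _), integral_const, probReal_univ, one_smul, ha]
    exact sub_self _
  have eF : ∫ η, |g η| ∂(law d ρ) ≤ Fn ρ β h (k + m) := by
    have h1 : Fn ρ β h (k + m) = ∫ η, ∫ ξ, |X β h (spl (Pa d k) η ξ) (k + m) - a|
        ∂(law d ρ) ∂(law d ρ) := by
      rw [int_spl44 (F := fun η => |X β h η (k + m) - a|) k iX'.abs
        ((mX (k + m)).sub_const a).abs, ha]
      rfl
    rw [h1]
    refine integral_mono ig.abs iP.abs.integral_prod_left fun η => ?_
    rw [hg]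
    exact abs_integral_le_integral_abs
  have hle : ∀ᵐ η ∂(law d ρ), X β h η k - A ρ β h k ≤ g η + (a - A ρ β h k - A ρ β h m) := by
    have p1 := ((mp_spl (ρ := ρ) (Pa d k)).integrable_comp_of_integrable
      (hX (k + m))).prod_right_ae
    filter_upwards [jen, p1] with η h1 h2
    have h3 : g η = cE ρ (Pa d k) (fun ζ => X β h ζ (k + m)) η - a := by
      rw [hg]
      have h2' : Integrable (fun ξ => X β h (spl (Pa d k) η ξ) (k + m)) (law d ρ) := h2
      show ∫ ξ, (X β h (spl (Pa d k) η ξ) (k + m) - a) ∂(law d ρ) = _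
      rw [integral_sub h2' (integrable_const _), integral_const, probReal_univ, one_smul]
      rfl
    rw [h3]
    linarith
  have if' : Integrable (fun η => X β h η k - A ρ β h k) (law d ρ) :=
    (hX k).sub (integrable_const _)
  have ef : ∫ η, (X β h η k - A ρ β h k) ∂(law d ρ) = 0 := by
    rw [integral_sub (hX k) (integrable_const _), integral_const, probReal_univ, one_smul]
    exact sub_self _
  obtain ⟨δ, hδ⟩ : ∃ δ : ℝ, δ = a - A ρ β h k - A ρ β h m := ⟨_, rfl⟩
  rw [← hδ] at hle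
  have hδ0 : 0 ≤ δ := by
    have h1 : ∫ η, (X β h η k - A ρ β h k) ∂(law d ρ) ≤ ∫ η, (g η + δ) ∂(law d ρ) :=
      integral_mono_ae if' (ig.add (integrable_const δ)) hle
    rw [integral_add ig (integrable_const _), ef, eg, integral_const, probReal_univ, one_smul,
      zero_add] at h1
    exact h1
  rw [← ha, ← hδ]
  refine ⟨by linarith, ?_⟩
  have h2 : Fn ρ β h k ≤ ∫ η, (|g η| + g η + 2 * δ - (X β h η k - A ρ β h k)) ∂(law d ρ) := by
    refine integral_mono_ae if'.abs (((ig.abs.add ig).add (integrable_const _)).sub if') ?_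
    filter_upwards [hle] with η h1
    show |X β h η k - A ρ β h k| ≤ |g η| + g η + 2 * δ - (X β h η k - A ρ β h k)
    have h3 := le_abs_self (g η)
    have h4 := neg_abs_le (g η)
    rcases abs_cases (X β h η k - A ρ β h k) with ⟨h5, _⟩ | ⟨h5, _⟩
    · rw [h5]
      linarith
    · rw [h5]
      linarith
  have i1 : Integrable (fun η => |g η| + g η) (law d ρ) := ig.abs.add ig
  have i2 : Integrable (fun η => |g η| + g η + 2 * δ) (law d ρ) := i1.add (integrable_const _)
  rw [integral_sub i2 if', integral_add i1 (integrable_const _), integral_add ig.abs ig, eg, ef,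
    integral_const, probReal_univ, one_smul] at h2
  linarith

/-- **THEOREM QM**, with the median below the mean and TRA as hypotheses. -/
theorem qmT44 [IsProbabilityMeasure ρ] (hd : 0 < d) (hρ : EM ρ)
    (hM : ∀ (h : Vec d) (m : ℕ) (u : ℝ), 0 < u →
      (law d ρ).real {η | A ρ β h m + u ≤ X β h η m} < 1 / 2)
    (hK : ∀ (h : Vec d) (k : ℕ), 1 / 2 ≤ (law d ρ).real {η | X β h η k ≤ A ρ β h k + 1})
    (hT : TraP d ρ β) : ∃ C : ℝ, 1 ≤ C ∧ ∀ (h : Vec d) (k m : ℕ),
      A ρ β h (k + m) - A ρ β h k - A ρ β h m ≤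
        C * (Fn ρ β h (k + m) + 1) * Real.exp (C * Real.log (k + 2) ^ (2 / 3 : ℝ)) ∧
      Fn ρ β h k ≤
        C * (Fn ρ β h (k + m) + 1) * Real.exp (C * Real.log (k + 2) ^ (2 / 3 : ℝ)) := by
  obtain ⟨C, hC, hh⟩ := delQ44 hM hT (splQ44 hd hρ hK)
  refine ⟨1 + 2 * C, by linarith, fun h k m => ?_⟩
  have h1 := hh h k m
  obtain ⟨h2, h3⟩ := comp44 (ρ := ρ) (β := β) hd hρ h k m
  obtain ⟨F, hF⟩ : ∃ F : ℝ, F = Fn ρ β h (k + m) := ⟨_, rfl⟩
  have hF0 : 0 ≤ F := by rw [hF]; exact Del11.Fn_nonneg h _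
  rw [← hF] at h1 h3 ⊢
  have hL0 : 0 ≤ Real.log ((k : ℝ) + 2) := Real.log_nonneg (by
    have : (0 : ℝ) ≤ k := Nat.cast_nonneg k
    linarith)
  have hL2 : 0 ≤ Real.log ((k : ℝ) + 2) ^ (2 / 3 : ℝ) := Real.rpow_nonneg hL0 _
  obtain ⟨E, hE⟩ : ∃ E : ℝ, E = Real.exp ((1 + 2 * C) * Real.log (k + 2) ^ (2 / 3 : ℝ)) := ⟨_, rfl⟩
  have hE1 : 1 ≤ E := by
    rw [hE]
    exact Real.one_le_exp (mul_nonneg (by linarith) hL2)
  have h4 : Real.exp (C * Real.log (k + 2) ^ (2 / 3 : ℝ)) ≤ E := by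
    rw [hE]
    refine Real.exp_le_exp.2 ?_
    have : 0 ≤ (1 + C) * Real.log ((k : ℝ) + 2) ^ (2 / 3 : ℝ) := mul_nonneg (by linarith) hL2
    nlinarith
  have h5 : A ρ β h (k + m) - A ρ β h k - A ρ β h m ≤ C * (F + 1) * E :=
    h1.trans (mul_le_mul_of_nonneg_left h4 (mul_nonneg (by linarith) (by linarith)))
  have h6 : F + 1 ≤ (F + 1) * E := le_mul_of_one_le_right (by linarith) hE1
  rw [← hE]
  have h7 : (1 + 2 * C) * (F + 1) * E = (F + 1) * E + 2 * (C * (F + 1) * E) := by ring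
  have h8 : 0 ≤ C * (F + 1) * E :=
    mul_nonneg (mul_nonneg (by linarith) (by linarith)) (by linarith)
  rw [h7]
  constructor
  · linarith
  · linarith

/-- **THEOREM QM** for the laws of convex functions of a Gaussian variable. -/
theorem qm44 [IsProbabilityMeasure ρ] (hd : 0 < d) (hρ : EM ρ) (hG : GC ρ) (hβ : 0 ≤ β) :
    ∃ C : ℝ, 1 ≤ C ∧ ∀ (h : Vec d) (k m : ℕ),
      A ρ β h (k + m) - A ρ β h k - A ρ β h m ≤
        C * (Fn ρ β h (k + m) + 1) * Real.exp (C * Real.log (k + 2) ^ (2 / 3 : ℝ)) ∧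
      Fn ρ β h k ≤
        C * (Fn ρ β h (k + m) + 1) * Real.exp (C * Real.log (k + 2) ^ (2 / 3 : ℝ)) :=
  qmT44 hd hρ (fun h m u hu => (kwE44 hd hG hρ hβ h m hu).1)
    (fun h k => (kwE44 hd hG hρ hβ h k one_pos).2) (tra11 hd hG hβ)

end Pool.Agent.W_7d29a1_QM
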