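import Pool.Agent.W_7d29a1_NR.Tra11
import Pool.Agent.W_7d29a1_NR.Del11
import Pool.Agent.W_7d29a1_SW.NgW48
import Pool.Agent.W_7d29a1_QM.Kw74

/-!
Theorem QM (helper74): the random fluctuation and the gain of a concatenation at a short length
`k` against the random fluctuation at any ONE longer length `n` (laws in `GC`).
-/

namespace Pool.Agent.W_7d29a1_QM

open MeasureTheory ProbabilityTheory Filter Topology Pool.Agent.W_MP_7d29a1_pr
  Pool.Agent.W_7d29a1_h46 Pool.Agent.W_7d29a1_h46u Pool.Agent.W_7d29a1_D2.B35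
  Pool.Agent.W_7d29a1_Q29 Pool.Agent.W_7d29a1_R34 Pool.Agent.W_7d29a1_SP Pool.Agent.W_7d29a1_NR
  Pool.Agent.W_7d29a1_NR.Del11

/-- The split with a past whose free energy is at most its mean plus one. -/
def SplQ (d : ℕ) (ρ : Measure ℝ) (β : ℝ) : Prop := ∀ (h : Vec d) (k m : ℕ),
  1 / 2 ≤ (law d ρ).real {η | X β h η k ≤ A ρ β h k + 1} →
  ∃ (w : Site d → ℝ) (δ : ℝ), (∀ y, 0 ≤ w y) ∧ (∀ y, w y ≤ 1) ∧ ∑ y ∈ boxF d k, w y = 1 ∧
    Integrable (gain d ρ β h m (boxF d k) w) (law d ρ) ∧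
    A ρ β h (k + m) - A ρ β h k - A ρ β h m - 1 ≤ δ ∧
    ∫ η, |gain d ρ β h m (boxF d k) w η - δ| ∂(law d ρ) ≤ 2 * Fn ρ β h (k + m)

/-- QM1: the gain of a concatenation. -/
def Qm1 (d : ℕ) (ρ : Measure ℝ) (β : ℝ) : Prop := ∃ C : ℝ, 1 ≤ C ∧ ∀ (h : Vec d) (k m : ℕ),
  A ρ β h (k + m) - A ρ β h k - A ρ β h m ≤
    C * (Fn ρ β h (k + m) + 1) * Real.exp (C * Real.log (k + 2) ^ (2 / 3 : ℝ))

/-- QM2: the random fluctuations are almost increasing. -/
def Qm2 (d : ℕ) (ρ : Measure ℝ) (β : ℝ) : Prop := ∃ C : ℝ, 1 ≤ C ∧ ∀ (h : Vec d) (k n : ℕ),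
  k ≤ n → Fn ρ β h k ≤ C * (Fn ρ β h n + 1) * Real.exp (C * Real.log (k + 2) ^ (2 / 3 : ℝ))

/-- **QM1.** -/
theorem qm1_74 {d : ℕ} {ρ : Measure ℝ} [IsProbabilityMeasure ρ] {β : ℝ}
    (hK : ∀ (h : Vec d) (m : ℕ) (u : ℝ), 0 < u →
      (law d ρ).real {η | A ρ β h m + u ≤ X β h η m} < 1 / 2)
    (hK' : ∀ (h : Vec d) (k : ℕ), 1 / 2 ≤ (law d ρ).real {η | X β h η k ≤ A ρ β h k + 1})
    (hT : TraP d ρ β) (hS : SplQ d ρ β) : Qm1 d ρ β := by
  classical
  have hA := A84.cA_pos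
  have l2 : 0 < Real.log 2 := Real.log_pos (by norm_num)
  refine ⟨2 * (9 + 1 / A84.cA) + 66 * ((3 * d + 1) / Real.log 2) ^ (2 / 3 : ℝ), ?_, ?_⟩
  · have h1 : 0 ≤ 1 / A84.cA := by positivity
    have h2 : 0 ≤ 66 * (((3 * d + 1) / Real.log 2) ^ (2 / 3 : ℝ) : ℝ) := by positivity
    linarith
  intro h k m
  obtain ⟨w, δ, hw0, hw1, hsum, hint, hδ, hbd⟩ := hS h k m (hK' h k)
  obtain ⟨S, hSd⟩ : ∃ S : Finset (Site d), S = (boxF d k).filter fun y => w y ≠ 0 := ⟨_, rfl⟩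
  have hSsub : S ⊆ boxF d k := by rw [hSd]; exact Finset.filter_subset _ _
  have hg : ∀ η, gain d ρ β h m S w η = gain d ρ β h m (boxF d k) w η := by
    intro η
    unfold gain
    congr 1
    refine Finset.sum_subset hSsub fun y hy hyS => ?_
    have : w y = 0 := by
      by_contra hne
      exact hyS (by rw [hSd]; exact Finset.mem_filter.2 ⟨hy, hne⟩)
    rw [this, zero_mul]
  have hSne : S.Nonempty := by
    rw [Finset.nonempty_iff_ne_empty]
    intro h0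
    have h1 : ∑ y ∈ boxF d k, w y = ∑ y ∈ S, w y := by
      refine (Finset.sum_subset hSsub fun y hy hyS => ?_).symm
      by_contra hne
      exact hyS (by rw [hSd]; exact Finset.mem_filter.2 ⟨hy, hne⟩)
    rw [h0, Finset.sum_empty, hsum] at h1
    exact one_ne_zero h1
  have hcard : S.card ≤ 2 ^ JJ d k := (Finset.card_le_card hSsub).trans (JJ_card d k)
  have hwS : ∀ y ∈ S, 0 < w y ∧ w y ≤ 1 := fun y hy => by
    rw [hSd, Finset.mem_filter] at hy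
    exact ⟨lt_of_le_of_ne (hw0 y) (Ne.symm hy.2), hw1 y⟩
  obtain ⟨J, hJ⟩ : ∃ J : ℕ, J = JJ d k := ⟨_, rfl⟩
  have hJ1 : 1 ≤ J := by rw [hJ]; exact Nat.le_add_left 1 _
  have hJr : (1 : ℝ) ≤ J := by exact_mod_cast hJ1
  obtain ⟨c, hc⟩ : ∃ c : ℝ, c = (J : ℝ) ^ (-(1 / 3 : ℝ)) := ⟨_, rfl⟩
  have hc0 : 0 < c := by rw [hc]; exact Real.rpow_pos_of_pos (by linarith) _
  have hc1 : c ≤ 1 := by rw [hc]; exact Real.rpow_le_one_of_one_le_of_nonpos hJr (by norm_num)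
  obtain ⟨κ, hκ⟩ : ∃ κ : ℝ, κ = Ehr.Phi (-(4 + 4 / c)) := ⟨_, rfl⟩
  have hκ0 : 0 < κ := by rw [hκ]; exact Ehr.Phi_pos _
  have hκ1 : A84.cA * Real.exp (-(4 + 4 / c) ^ 2) ≤ κ := by
    rw [hκ]
    exact A84.Phi_lower (by positivity)
  have f1 := Fn_nonneg (ρ := ρ) (β := β) h (k + m)
  obtain ⟨B, hB⟩ : ∃ B : ℝ, B = 2 * Fn ρ β h (k + m) + 1 := ⟨_, rfl⟩
  have hB0 : 0 < B := by rw [hB]; linarith
  obtain ⟨a, ha⟩ : ∃ a : ℝ, a = 2 * B + B / κ := ⟨_, rfl⟩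
  have ha0 : 0 ≤ a := by rw [ha]; positivity
  have hgi : Integrable (fun η => gain d ρ β h m (boxF d k) w η - δ) (law d ρ) :=
    hint.sub (integrable_const _)
  have main := hT h m S w J c a (δ - 2 * B) 0 hSne (hJ ▸ hcard) hwS hc0 hc1 ha0
    ?_ ?_ ?_
  · have hn := nums (J := J) hJ1 (G := 2 * Fn ρ β h (k + m) + 1) (B := B)
      (F := 0) hc hκ0 hκ1 (by linarith) (by rw [hB]) hB0.le (by linarith)
    rw [← ha] at hn
    obtain ⟨G, hG⟩ : ∃ G : ℝ, G = 2 * Fn ρ β h (k + m) + 1 := ⟨_, rfl⟩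
    rw [← hG] at hn
    have hG1 : 1 ≤ G := by rw [hG]; linarith
    have h1 : δ ≤ (9 + 1 / A84.cA) * G * Real.exp (66 * (J : ℝ) ^ (2 / 3 : ℝ)) := by linarith
    have hA1 : 0 ≤ 1 / A84.cA := by positivity
    have hE1 : 1 ≤ Real.exp (66 * (J : ℝ) ^ (2 / 3 : ℝ)) := Real.one_le_exp (by positivity)
    have h1' : A ρ β h (k + m) - A ρ β h k - A ρ β h m ≤
        2 * (9 + 1 / A84.cA) * (Fn ρ β h (k + m) + 1) *
          Real.exp (66 * (J : ℝ) ^ (2 / 3 : ℝ)) := by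
      have h5 : (1 : ℝ) ≤ (9 + 1 / A84.cA) * Real.exp (66 * (J : ℝ) ^ (2 / 3 : ℝ)) := by
        nlinarith
      have h6 : 2 * (9 + 1 / A84.cA) * (Fn ρ β h (k + m) + 1) *
          Real.exp (66 * (J : ℝ) ^ (2 / 3 : ℝ)) =
          (9 + 1 / A84.cA) * G * Real.exp (66 * (J : ℝ) ^ (2 / 3 : ℝ)) +
            (9 + 1 / A84.cA) * Real.exp (66 * (J : ℝ) ^ (2 / 3 : ℝ)) := by
        rw [hG]
        ring
      linarith
    obtain ⟨C₁, hC₁⟩ : ∃ C₁ : ℝ, C₁ = (3 * d + 1) / Real.log 2 := ⟨_, rfl⟩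
    have hC₁0 : 0 ≤ C₁ := by rw [hC₁]; positivity
    rw [← hC₁]
    have hL0 : 0 ≤ Real.log ((k : ℝ) + 2) := Real.log_nonneg (by
      have : (0 : ℝ) ≤ k := Nat.cast_nonneg k
      linarith)
    have h2 : (J : ℝ) ^ (2 / 3 : ℝ) ≤ C₁ ^ (2 / 3 : ℝ) * Real.log (k + 2) ^ (2 / 3 : ℝ) := by
      rw [← Real.mul_rpow hC₁0 hL0]
      refine Real.rpow_le_rpow (by positivity) ?_ (by norm_num)
      rw [hJ, hC₁]
      exact JJ_le d k
    have hC2 : 0 ≤ C₁ ^ (2 / 3 : ℝ) := Real.rpow_nonneg hC₁0 _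
    have hL2 : 0 ≤ Real.log ((k : ℝ) + 2) ^ (2 / 3 : ℝ) := Real.rpow_nonneg hL0 _
    have h3 : Real.exp (66 * (J : ℝ) ^ (2 / 3 : ℝ)) ≤
        Real.exp ((2 * (9 + 1 / A84.cA) + 66 * C₁ ^ (2 / 3 : ℝ)) *
          Real.log (k + 2) ^ (2 / 3 : ℝ)) := by
      refine Real.exp_le_exp.2 ?_
      have h4 : 0 ≤ 2 * (9 + 1 / A84.cA) * Real.log ((k : ℝ) + 2) ^ (2 / 3 : ℝ) := by positivity
      nlinarith
    refine h1'.trans ?_
    refine mul_le_mul ?_ h3 (Real.exp_pos _).le (by positivity)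
    refine mul_le_mul_of_nonneg_right ?_ (by linarith)
    linarith
  · intro u hu
    exact hK h m u hu
  · have h1 := markov (P := law d ρ) hgi (B := 2 * Fn ρ β h (k + m)) hbd
      (t := 2 * B) (by linarith)
    have h2 : (2 * Fn ρ β h (k + m)) / (2 * B) ≤ 1 / 2 := by
      rw [div_le_iff₀ (by linarith)]
      linarith
    have hmeas : NullMeasurableSet {η | 2 * B ≤ |gain d ρ β h m (boxF d k) w η - δ|} (law d ρ) :=
      nullMeasurableSet_le aemeasurable_const hgi.abs.aestronglyMeasurable.aemeasurable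
    have h3 : (law d ρ).real {η | 2 * B ≤ |gain d ρ β h m (boxF d k) w η - δ|}ᶜ =
        1 - (law d ρ).real {η | 2 * B ≤ |gain d ρ β h m (boxF d k) w η - δ|} :=
      probReal_compl_eq_one_sub₀ hmeas
    have h4 : (law d ρ).real {η | 2 * B ≤ |gain d ρ β h m (boxF d k) w η - δ|}ᶜ ≤
        (law d ρ).real {η | δ - 2 * B ≤ gain d ρ β h m S w η} := by
      refine measureReal_mono fun η hη => ?_
      have hη' : ¬ (2 * B ≤ |gain d ρ β h m (boxF d k) w η - δ|) := hη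
      push Not at hη'
      show δ - 2 * B ≤ gain d ρ β h m S w η
      rw [hg]
      have := (abs_lt.1 hη').1
      linarith
    linarith
  · have hpos : 0 < B / κ := by positivity
    have h1 := markov (P := law d ρ) hgi (B := 2 * Fn ρ β h (k + m)) hbd
      (t := B / κ) hpos
    have h2 : (2 * Fn ρ β h (k + m)) / (B / κ) < κ := by
      rw [div_lt_iff₀ hpos]
      have : κ * (B / κ) = B := by field_simp
      rw [this]
      linarith
    have h4 : (law d ρ).real {η | δ - 2 * B + a < gain d ρ β h m S w η} ≤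
        (law d ρ).real {η | B / κ ≤ |gain d ρ β h m (boxF d k) w η - δ|} := by
      refine measureReal_mono fun η hη => ?_
      have hη' : δ - 2 * B + a < gain d ρ β h m S w η := hη
      rw [hg, ha] at hη'
      show B / κ ≤ |gain d ρ β h m (boxF d k) w η - δ|
      exact le_trans (by linarith) (le_abs_self _)
    rw [← hκ]
    linarith

/-- Jensen: the fluctuation of the short length. -/
lemma fk74 {d : ℕ} {ρ : Measure ℝ} [IsProbabilityMeasure ρ] (hd : 0 < d) (hρ : EM ρ) (β : ℝ)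
    (h : Vec d) (k m : ℕ) : 0 ≤ A ρ β h (k + m) - A ρ β h k - A ρ β h m ∧ Fn ρ β h k ≤
      Fn ρ β h (k + m) + 2 * (A ρ β h (k + m) - A ρ β h k - A ρ β h m) := by
  obtain ⟨U, hU⟩ : ∃ U : Env d → ℝ, U = cE ρ (Pa d k) (fun ζ => X β h ζ (k + m)) := ⟨_, rfl⟩
  have hX : ∀ k, Integrable (fun η => X β h η k) (law d ρ) := fun k => (concU hd hρ β h k).1
  have p1 := (mp_spl (ρ := ρ) (Pa d k)).integrable_comp_of_integrable (hX (k + m))
  have hUe : ∀ η, U η = ∫ ξ, X β h (spl (Pa d k) η ξ) (k + m) ∂(law d ρ) := fun η => by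
    rw [hU]
    rfl
  have iU : Integrable U (law d ρ) := by
    have := p1.integral_prod_left
    rw [hU]
    exact this
  have eU : ∫ η, U η ∂(law d ρ) = A ρ β h (k + m) := by
    rw [hU]
    exact int_cE (ρ := ρ) (Pa d k) (hX (k + m))
  have hj : ∀ᵐ η ∂(law d ρ), X β h η k + A ρ β h m ≤ U η := by
    rw [hU]
    exact Pool.Agent.W_7d29a1_SW.N48.jen48 (ρ := ρ) hd hρ β h k m
  have hδ : 0 ≤ A ρ β h (k + m) - A ρ β h k - A ρ β h m := by
    have iS : Integrable (fun η => X β h η k + A ρ β h m) (law d ρ) :=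
      (hX k).add (integrable_const (A ρ β h m))
    have h1 : ∫ η, (X β h η k + A ρ β h m) ∂(law d ρ) ≤ ∫ η, U η ∂(law d ρ) :=
      integral_mono_ae iS iU hj
    have h2 : ∫ η, (X β h η k + A ρ β h m) ∂(law d ρ) = A ρ β h k + A ρ β h m := by
      rw [integral_add (hX k) (integrable_const _)]
      simp [A]
    rw [eU, h2] at h1
    linarith
  refine ⟨hδ, ?_⟩
  obtain ⟨δ, hδd⟩ : ∃ δ : ℝ, δ = A ρ β h (k + m) - A ρ β h k - A ρ β h m := ⟨_, rfl⟩
  rw [← hδd] at hδ ⊢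
  have hpt : ∀ᵐ η ∂(law d ρ), |X β h η k - A ρ β h k| + (X β h η k - A ρ β h k) ≤
      |U η - A ρ β h (k + m)| + (U η - A ρ β h (k + m)) + 2 * δ := by
    filter_upwards [hj] with η hη
    rcases le_total (X β h η k - A ρ β h k) 0 with h1 | h1
    · rw [abs_of_nonpos h1]
      have := neg_abs_le (U η - A ρ β h (k + m))
      linarith
    · rw [abs_of_nonneg h1]
      have := le_abs_self (U η - A ρ β h (k + m))
      linarith
  have i1 : Integrable (fun η => X β h η k - A ρ β h k) (law d ρ) :=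
    (hX k).sub (integrable_const _)
  have i2 : Integrable (fun η => U η - A ρ β h (k + m)) (law d ρ) := iU.sub (integrable_const _)
  have j1 : Integrable (fun η => |X β h η k - A ρ β h k| + (X β h η k - A ρ β h k))
    (law d ρ) := i1.abs.add i1
  have j2 : Integrable (fun η => |U η - A ρ β h (k + m)| + (U η - A ρ β h (k + m)))
    (law d ρ) := i2.abs.add i2
  have j3 : Integrable (fun η => |U η - A ρ β h (k + m)| + (U η - A ρ β h (k + m)) + 2 * δ)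
    (law d ρ) := j2.add (integrable_const (2 * δ))
  have h5 : ∫ η, (|X β h η k - A ρ β h k| + (X β h η k - A ρ β h k)) ∂(law d ρ) ≤
      ∫ η, (|U η - A ρ β h (k + m)| + (U η - A ρ β h (k + m)) + 2 * δ) ∂(law d ρ) :=
    integral_mono_ae j1 j3 hpt
  have h6 : ∫ η, (|X β h η k - A ρ β h k| + (X β h η k - A ρ β h k)) ∂(law d ρ) =
      Fn ρ β h k := by
    rw [integral_add i1.abs i1, integral_sub (hX k) (integrable_const _)]
    simp [A, Fn]
  have h7 : ∫ η, (|U η - A ρ β h (k + m)| + (U η - A ρ β h (k + m)) + 2 * δ) ∂(law d ρ) =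
      ∫ η, |U η - A ρ β h (k + m)| ∂(law d ρ) + 2 * δ := by
    rw [integral_add j2 (integrable_const _), integral_add i2.abs i2,
      integral_sub iU (integrable_const _), eU]
    simp
  have h8 : ∫ η, |U η - A ρ β h (k + m)| ∂(law d ρ) ≤ Fn ρ β h (k + m) := by
    have iF : Integrable (fun w : Env d × Env d => |X β h (spl (Pa d k) w.1 w.2) (k + m) -
        A ρ β h (k + m)|) ((law d ρ).prod (law d ρ)) := (p1.sub (integrable_const _)).abs
    have e1 : ∫ w, |X β h (spl (Pa d k) w.1 w.2) (k + m) - A ρ β h (k + m)|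
        ∂((law d ρ).prod (law d ρ)) = Fn ρ β h (k + m) := by
      unfold Fn
      rw [← (mp_spl (ρ := ρ) (Pa d k)).map_eq, integral_map (mp_spl (ρ := ρ) (Pa d k)).aemeasurable]
      rw [(mp_spl (ρ := ρ) (Pa d k)).map_eq]
      exact ((measurable_X β h (k + m)).sub_const _).abs.aestronglyMeasurable
    rw [← e1, integral_prod _ iF]
    refine integral_mono_ae i2.abs iF.integral_prod_left ?_
    filter_upwards [p1.prod_right_ae] with η h1
    show |U η - A ρ β h (k + m)| ≤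
      ∫ ξ, |X β h (spl (Pa d k) η ξ) (k + m) - A ρ β h (k + m)| ∂(law d ρ)
    have h1' : Integrable (fun ξ => X β h (spl (Pa d k) η ξ) (k + m)) (law d ρ) := h1
    have h3 : U η - A ρ β h (k + m) =
        ∫ ξ, (X β h (spl (Pa d k) η ξ) (k + m) - A ρ β h (k + m)) ∂(law d ρ) := by
      rw [integral_sub h1' (integrable_const _), hUe]
      simp
    rw [h3]
    exact abs_integral_le_integral_abs
  linarith

/-- **QM2** from QM1. -/
theorem qm2_74 {d : ℕ} {ρ : Measure ℝ} [IsProbabilityMeasure ρ] (hd : 0 < d) (hρ : EM ρ)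
    {β : ℝ} (hQ : Qm1 d ρ β) : Qm2 d ρ β := by
  obtain ⟨C, hC, hq⟩ := hQ
  refine ⟨2 * C + 1, by linarith, fun h k n hkn => ?_⟩
  obtain ⟨m, rfl⟩ := Nat.exists_eq_add_of_le hkn
  have h1 := (fk74 (ρ := ρ) hd hρ β h k m).2
  have h2 := hq h k m
  have f := Fn_nonneg (ρ := ρ) (β := β) h (k + m)
  have hL0 : 0 ≤ Real.log ((k : ℝ) + 2) := Real.log_nonneg (by
    have : (0 : ℝ) ≤ k := Nat.cast_nonneg k
    linarith)
  have hL2 : 0 ≤ Real.log ((k : ℝ) + 2) ^ (2 / 3 : ℝ) := Real.rpow_nonneg hL0 _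
  have h3 : Real.exp (C * Real.log (k + 2) ^ (2 / 3 : ℝ)) ≤
      Real.exp ((2 * C + 1) * Real.log (k + 2) ^ (2 / 3 : ℝ)) := by
    refine Real.exp_le_exp.2 (mul_le_mul_of_nonneg_right ?_ hL2)
    linarith
  have h4 : 1 ≤ Real.exp ((2 * C + 1) * Real.log (k + 2) ^ (2 / 3 : ℝ)) :=
    Real.one_le_exp (by positivity)
  have h5 : C * (Fn ρ β h (k + m) + 1) * Real.exp (C * Real.log (k + 2) ^ (2 / 3 : ℝ)) ≤
      C * (Fn ρ β h (k + m) + 1) * Real.exp ((2 * C + 1) * Real.log (k + 2) ^ (2 / 3 : ℝ)) :=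
    mul_le_mul_of_nonneg_left h3 (by positivity)
  have h6 : Fn ρ β h (k + m) ≤
      (Fn ρ β h (k + m) + 1) * Real.exp ((2 * C + 1) * Real.log (k + 2) ^ (2 / 3 : ℝ)) := by
    nlinarith
  have h7 : (2 * C + 1) * (Fn ρ β h (k + m) + 1) *
      Real.exp ((2 * C + 1) * Real.log (k + 2) ^ (2 / 3 : ℝ)) =
      (Fn ρ β h (k + m) + 1) * Real.exp ((2 * C + 1) * Real.log (k + 2) ^ (2 / 3 : ℝ)) +
      2 * (C * (Fn ρ β h (k + m) + 1) *
        Real.exp ((2 * C + 1) * Real.log (k + 2) ^ (2 / 3 : ℝ))) := by ring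
  linarith

/-- **Theorem QM**, with the split as hypothesis. -/
theorem qm74 {d : ℕ} {ρ : Measure ℝ} [IsProbabilityMeasure ρ] (hd : 0 < d) (hG : GC ρ)
    (hρ : EM ρ) {β : ℝ} (hβ : 0 ≤ β) (hS : SplQ d ρ β) : Qm1 d ρ β ∧ Qm2 d ρ β := by
  have h1 : Qm1 d ρ β := qm1_74 (fun h m u hu => Kw74.kw74 hd hG hρ hβ h m hu)
    (fun h k => Kw74.kw74' hd hG hρ hβ h k one_pos) (tra11 hd hG hβ) hS
  exact ⟨h1, qm2_74 hd hρ h1⟩

end Pool.Agent.W_7d29a1_QM
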