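import Pool.Agent.W_7d29a1_QM.DefsCV
import Pool.Agent.W_7d29a1_KP.SinK95

/-!
Theorem CURV, leaf SINQ (helper88): the mean of the free energy of the walks through one far site.
-/

namespace Pool.Agent.W_7d29a1_QM.S88

open MeasureTheory ProbabilityTheory Filter Topology Pool.Agent.W_MP_7d29a1_pr
  Pool.Agent.W_7d29a1_h46 Pool.Agent.W_7d29a1_h46u Pool.Agent.W_7d29a1_D2.B35
  Pool.Agent.W_7d29a1_Q29 Pool.Agent.W_7d29a1_R34 Pool.Agent.W_7d29a1_SP Pool.Agent.W_7d29a1_KP

variable {d n : ℕ} {ρ : Measure ℝ} [IsProbabilityMeasure ρ] {β : ℝ}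

lemma site88 (hρ : EM ρ) (p : ℕ × Site d) :
    Integrable (fun η : Env d => η p) (law d ρ) := by
  have h1 : MeasurePreserving (fun η : Env d => η p) (law d ρ) ρ :=
    ⟨measurable_pi_apply p, Measure.infinitePi_map_eval _ p⟩
  have h2 : Integrable (fun t : ℝ => t) ρ := by simpa using s39_int_id hρ 0
  exact h1.integrable_comp_of_integrable h2

lemma energy88 (hρ : EM ρ) (s : Fin n → Step d) :
    Integrable (fun η : Env d => energy η s) (law d ρ) := by
  unfold energy
  exact integrable_finsetSum _ fun i _ => site88 hρ _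

lemma int88 (hd : 0 < d) (hρ : EM ρ) (β : ℝ) (h : Vec d) {E : Set (Fin n → Step d)}
    (hE : E.Nonempty) : Integrable (fun η : Env d => Real.log (ZT β h η E)) (law d ρ) := by
  classical
  obtain ⟨s, hs⟩ := hE
  have h1 : Integrable (fun η : Env d =>
      |inner ℝ h (emb (pos s n)) + β * energy η s| + |X β h η n|) (law d ρ) :=
    ((integrable_const _).add ((energy88 hρ s).const_mul β)).abs.add (concU hd hρ β h n).1.abs
  refine h1.mono' (Real.measurable_log.comp (measurable_ZT β h E)).aestronglyMeasurable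
    (Eventually.of_forall fun η => ?_)
  have h2 : wgt β h η s ≤ ZT β h η E := by
    unfold ZT
    have h3 := Finset.single_le_sum (f := fun s => if s ∈ E then wgt β h η s else 0)
      (fun t _ => by
        split_ifs
        · exact (wgt_pos _ _ _ _).le
        · exact le_rfl) (Finset.mem_univ s)
    simp only [if_pos hs] at h3
    exact h3
  have h4 : Real.log (wgt β h η s) = inner ℝ h (emb (pos s n)) + β * energy η s := by
    unfold wgt
    rw [Real.log_exp]
  have h5 := Real.log_le_log (wgt_pos β h η s) h2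
  have h6 : Real.log (ZT β h η E) ≤ X β h η n :=
    Real.log_le_log (ZT_pos β h η ⟨s, hs⟩) (ZT_mono β h η (Set.subset_univ E))
  rw [h4] at h5
  rw [Real.norm_eq_abs, abs_le]
  have h7 := neg_abs_le (inner ℝ h (emb (pos s n)) + β * energy η s)
  have h8 := le_abs_self (X β h η n)
  have h9 := abs_nonneg (inner ℝ h (emb (pos s n)) + β * energy η s)
  have h10 := abs_nonneg (X β h η n)
  constructor <;> linarith

/-- The mean of the free energy of the walks which are at `y` at the time `i`. -/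
lemma mean88 (hd : 0 < d) (hρ : EM ρ) {h v k : Vec d} {W : ℝ} {i : ℕ} {y : Site d}
    {E : Set (Fin n → Step d)} (hi : i ≤ n) (hne : E.Nonempty) (hE : ∀ s ∈ E, pos s i = y)
    (hW : 0 ≤ W) (hk : lam ρ β (h + k) ≤ lam ρ β h + inner ℝ v k + W) :
    ∫ η, Real.log (ZT β h η E) ∂(law d ρ) ≤
      n * lam ρ β h + n * W - inner ℝ k (emb y - (i : ℝ) • v) := by
  have h1 : ∀ η : Env d, Real.log (ZT β h η E) ≤
      (X β (h + k) η i - inner ℝ k (emb y)) + X β h (sh i y η) (n - i) := by
    intro η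
    have h2 := at95 β h η hi hE
    have h4 : PP β h η i y ≤ Real.exp (X β (h + k) η i - inner ℝ k (emb y)) := by
      have h5 : PP β (h + k) η i y ≤ Z β (h + k) η i := PP_le_Z _ _ _ _ _
      rw [PP_tilt, TubV_exp hd β (h + k) η i] at h5
      have h6 : PP β h η i y = Real.exp (-inner ℝ k (emb y)) *
          (Real.exp (inner ℝ k (emb y)) * PP β h η i y) := by
        rw [← mul_assoc, ← Real.exp_add]
        simp
      rw [h6]
      calc Real.exp (-inner ℝ k (emb y)) * (Real.exp (inner ℝ k (emb y)) * PP β h η i y) ≤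
          Real.exp (-inner ℝ k (emb y)) * Real.exp (X β (h + k) η i) :=
            mul_le_mul_of_nonneg_left h5 (Real.exp_pos _).le
        _ = Real.exp (X β (h + k) η i - inner ℝ k (emb y)) := by
            rw [← Real.exp_add]
            ring_nf
    have h5 : Z β h (sh i y η) (n - i) = Real.exp (X β h (sh i y η) (n - i)) :=
      TubV_exp hd β h (sh i y η) (n - i)
    have h6 : ZT β h η E ≤
        Real.exp ((X β (h + k) η i - inner ℝ k (emb y)) + X β h (sh i y η) (n - i)) := by
      refine h2.trans ?_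
      rw [Real.exp_add, h5]
      exact mul_le_mul_of_nonneg_right h4 (Real.exp_pos _).le
    have h7 := Real.log_le_log (ZT_pos β h η hne) h6
    rwa [Real.log_exp] at h7
  have i1 : Integrable (fun η : Env d => X β (h + k) η i) (law d ρ) := (concU hd hρ β (h + k) i).1
  have i2 : Integrable (fun η : Env d => X β h (sh i y η) (n - i)) (law d ρ) :=
    (mp_sh (ρ := ρ) i y).integrable_comp_of_integrable (concU hd hρ β h (n - i)).1
  have e1 : ∫ η, X β h (sh i y η) (n - i) ∂(law d ρ) = A ρ β h (n - i) := by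
    unfold A
    have mp := mp_sh (d := d) (ρ := ρ) i y
    conv_rhs => rw [← mp.map_eq]
    rw [integral_map mp.aemeasurable]
    rw [mp.map_eq]
    exact (measurable_X β h (n - i)).aestronglyMeasurable
  have h8 : ∫ η, Real.log (ZT β h η E) ∂(law d ρ) ≤
      A ρ β (h + k) i - inner ℝ k (emb y) + A ρ β h (n - i) := by
    refine (integral_mono (int88 hd hρ β h hne) ((i1.sub (integrable_const _)).add i2) h1).trans
      (le_of_eq ?_)
    have e2 : ∫ η, ((X β (h + k) η i - inner ℝ k (emb y)) + X β h (sh i y η) (n - i))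
        ∂(law d ρ) = (∫ η, (X β (h + k) η i - inner ℝ k (emb y)) ∂(law d ρ)) +
          ∫ η, X β h (sh i y η) (n - i) ∂(law d ρ) :=
      integral_add (i1.sub (integrable_const _)) i2
    have e3 : ∫ η, (X β (h + k) η i - inner ℝ k (emb y)) ∂(law d ρ) =
        A ρ β (h + k) i - inner ℝ k (emb y) := by
      rw [integral_sub i1 (integrable_const _)]
      simp [A]
    exact e2.trans (by rw [e3, e1])
  have h9 := A_le_lam hd hρ β (h + k) i
  have h10 := A_le_lam hd hρ β h (n - i)
  rw [Nat.cast_sub hi] at h10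
  have h11 : (i : ℝ) * lam ρ β (h + k) ≤ i * (lam ρ β h + inner ℝ v k + W) :=
    mul_le_mul_of_nonneg_left hk (Nat.cast_nonneg i)
  have h12 : (i : ℝ) * W ≤ n * W := mul_le_mul_of_nonneg_right (by exact_mod_cast hi) hW
  have h13 : inner ℝ k (emb y - (i : ℝ) • v) = inner ℝ k (emb y) - i * inner ℝ v k := by
    rw [inner_sub_right, inner_smul_right, real_inner_comm v k]
  rw [h13]
  linarith

/-- The same for the direction of the site. -/
lemma far88 (hd : 0 < d) (hρ : EM ρ) {h v : Vec d} {W r R : ℝ} {i : ℕ} {y : Site d}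
    {E : Set (Fin n → Step d)} (hi : i ≤ n) (hne : E.Nonempty) (hE : ∀ s ∈ E, pos s i = y)
    (hW : 0 ≤ W) (hr : 0 ≤ r) (hR : 0 ≤ R) (hy : R < ‖emb y - (i : ℝ) • v‖)
    (hk : ∀ k : Vec d, ‖k‖ ≤ r → lam ρ β (h + k) ≤ lam ρ β h + inner ℝ v k + W) :
    ∫ η, Real.log (ZT β h η E) ∂(law d ρ) ≤ n * lam ρ β h - (r * R - n * W) := by
  obtain ⟨w, hw⟩ : ∃ w : Vec d, w = emb y - (i : ℝ) • v := ⟨_, rfl⟩
  rw [← hw] at hy
  have hw0 : 0 < ‖w‖ := lt_of_le_of_lt hR hy
  have h1 : ‖(r / ‖w‖) • w‖ ≤ r := by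
    rw [norm_smul, Real.norm_eq_abs, abs_of_nonneg (by positivity)]
    exact (div_mul_cancel₀ _ hw0.ne').le
  have h2 := mean88 hd hρ hi hne hE hW (hk _ h1)
  rw [← hw] at h2
  have h3 : inner ℝ ((r / ‖w‖) • w) w = r * ‖w‖ := by
    rw [inner_smul_left, real_inner_self_eq_norm_sq]
    simp only [conj_trivial]
    field_simp
  rw [h3] at h2
  have h4 : r * R ≤ r * ‖w‖ := mul_le_mul_of_nonneg_left hy.le hr
  linarith

/-- **Leaf SINQ.** -/
theorem sinQ88 (hd : 0 < d) (hρ : EM ρ) (hK : Pool.Agent.W_7d29a1_CV.KwE d ρ β) :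
    Pool.Agent.W_7d29a1_CV.SinQ d ρ β := by
  intro h v n R r W hr hR hC i y E hi hne hE hy u hu
  have hW : 0 ≤ W := by
    have h1 := hC 0 (by simpa using hr)
    rw [add_zero, inner_zero_right] at h1
    linarith
  exact (hK h n E hne).2 u ((far88 hd hρ hi hne hE hW hr hR hy hC).trans_lt hu)

end Pool.Agent.W_7d29a1_QM.S88
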