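import Pool.Agent.W_7d29a1_QM.LowCV73
import Pool.Agent.W_7d29a1_KP.Tub30
import Pool.Agent.W_7d29a1_KP.HalEU30

/-!
Theorem CURV, every law (helper73, after helper30): the tube at one tilt and one length.
-/

set_option autoImplicit false

namespace Pool.Agent.W_7d29a1_CV

open MeasureTheory ProbabilityTheory Filter Topology Pool.Agent.W_MP_7d29a1_pr
  Pool.Agent.W_7d29a1_h46 Pool.Agent.W_7d29a1_h46u Pool.Agent.W_7d29a1_D2.B35
  Pool.Agent.W_7d29a1_Q29 Pool.Agent.W_7d29a1_R34 Pool.Agent.W_7d29a1_SP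
  Pool.Agent.W_7d29a1_AM

open W_7d29a1_KP W_7d29a1_KP.T30 in
/-- **TUBQ**, from the rarity of large restricted free energies and the halving lemma. -/
theorem tubQ73 {d : ℕ} (hd : 0 < d) {ρ : Measure ℝ} [IsProbabilityMeasure ρ] (hρ : EM ρ) {β : ℝ}
    (hH : HalE d ρ β) (hrare : ∃ C : ℝ, 1 ≤ C ∧
      ∀ (h : Vec d) (m : ℕ) (E : Set (Fin m → Step d)) (K l : ℝ),
        1 ≤ K → C * K ≤ l → Fn ρ β h m ≤ K → E.Nonempty →
        ∫ η, Real.log (ZT β h η E) ∂(law d ρ) ≤ A ρ β h m - l →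
          (law d ρ).real {η | A ρ β h m - l / 8 < Real.log (ZT β h η E)} < 1 / 4) :
    TubQ d ρ β := by
  classical
  intro ε η₀ hε hη
  have hη2 : 0 < η₀ / 2 := by positivity
  obtain ⟨CL, hCL1, hrare⟩ := hrare
  obtain ⟨c, hc, hc1, hpow⟩ := W_7d29a1_KZ.G30.pow30 (d + 1) hη2
  obtain ⟨κ, b, hκ, hb, hH⟩ := hH c (min (ε / 4) (1 / 2)) hc hc1
    (lt_min (by positivity) (by norm_num)) (min_le_right _ _)
  have hd0 : (0 : ℝ) < d := by exact_mod_cast hd
  obtain ⟨l, hl⟩ : ∃ l : ℝ, l = |Real.log (ε / 2)| := ⟨_, rfl⟩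
  have hl0 : 0 ≤ l := by rw [hl]; exact abs_nonneg _
  obtain ⟨K, hK⟩ : ∃ K : ℝ, K = 1 + 4 / ε + l + (1 + 4 / ε + l + 2 / κ + b +
      2 ^ (η₀ / 2) / (η₀ / 2)) * (3 / c) * 3 ^ (η₀ / 2) := ⟨_, rfl⟩
  refine ⟨max 1 (8 * K + 1 + CL), le_max_left _ _, ?_⟩
  intro h v n P R r W hn hP hr hR hW hFn hEn hcap hex
  have hn1 : (1 : ℝ) ≤ n := by exact_mod_cast hn
  have hn0 : (0 : ℝ) < n := by linarith
  have hP0 : 0 < P := by linarith
  have hpη : (1 : ℝ) ≤ (n : ℝ) ^ η₀ := Real.one_le_rpow hn1 hη.le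
  have hPη : P ≤ (n : ℝ) ^ η₀ * P := le_mul_of_one_le_left hP0.le hpη
  have hnPη : 0 ≤ (n : ℝ) ^ η₀ * P := by positivity
  -- the level
  obtain ⟨L, hL⟩ : ∃ L : ℝ, L = r * R - n * W - P := ⟨_, rfl⟩
  have hκ0 : 0 < κ := hκ
  have hB00 : (0 : ℝ) ≤ 2 ^ (η₀ / 2) / (η₀ / 2) := by positivity
  have hK0 : 0 ≤ K := by
    rw [hK]
    positivity
  by_cases hsmall : L < CL * P
  · have h1 : (CL + 1) * P ≤ (CL + 1) * ((n : ℝ) ^ η₀ * P) :=
      mul_le_mul_of_nonneg_left hPη (by linarith)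
    have h2 : (CL + 1) * ((n : ℝ) ^ η₀ * P) ≤ max 1 (8 * K + 1 + CL) * ((n : ℝ) ^ η₀ * P) :=
      mul_le_mul_of_nonneg_right (le_trans (by linarith) (le_max_right _ _)) hnPη
    have h3 : max 1 (8 * K + 1 + CL) * (n : ℝ) ^ η₀ * P =
        max 1 (8 * K + 1 + CL) * ((n : ℝ) ^ η₀ * P) := by ring
    rw [h3]
    linarith
  rw [not_lt] at hsmall
  -- the polymer probability of an exit
  obtain ⟨p0, hp0⟩ : ∃ p0 : Env d → ℝ, p0 = fun η => 1 - PolT β h η (tube d n v R) := ⟨_, rfl⟩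
  have hp1 : ∀ η, p0 η * Z β h η n ≤ ZT β h η (tube d n v R)ᶜ := by
    intro η
    have hZ := ZT_univ_pos (n := n) hd β h η
    have h1 : ZT β h η (tube d n v R) + ZT β h η (tube d n v R)ᶜ =
        ZT β h η (Set.univ : Set (Fin n → Step d)) := by
      unfold ZT
      rw [← Finset.sum_add_distrib]
      refine Finset.sum_congr rfl fun s _ => ?_
      rw [if_pos (Set.mem_univ s)]
      by_cases hs : s ∈ tube d n v R
      · rw [if_pos hs, if_neg (fun hcon : s ∈ (tube d n v R)ᶜ => hcon hs), add_zero]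
      · rw [if_neg hs, if_pos (show s ∈ (tube d n v R)ᶜ from hs), zero_add]
    rw [hp0]
    show (1 - PolT β h η (tube d n v R)) * ZT β h η (Set.univ : Set (Fin n → Step d)) ≤ _
    unfold PolT
    rw [sub_mul, one_mul, div_mul_cancel₀ _ hZ.ne']
    linarith
  have mp0 : Measurable p0 := by
    rw [hp0]
    exact measurable_const.sub (measurable_PolT β h _)
  have hrev := revM30 (P := law d ρ) mp0
    (fun η => by rw [hp0]; show 0 ≤ 1 - _; linarith [PolT_le_one β h η (tube d n v R)])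
    (fun η => by rw [hp0]; show 1 - _ ≤ (1 : ℝ); linarith [PolT_nonneg β h η (tube d n v R)])
    hε (by rw [hp0]; exact hex)
  have hFn' := hFn
  have hEn0 : 0 ≤ En ρ β h n := En_nonneg15 hd hρ β h n
  unfold En at hEn hEn0
  have iX : Integrable (fun η => X β h η n - A ρ β h n) (law d ρ) :=
    (concU hd hρ β h n).1.sub (integrable_const _)
  have hmk : ∀ t : ℝ, 0 < t → (law d ρ).real {η | t ≤ |X β h η n - A ρ β h n|} ≤ P / t :=
    fun t ht => W_7d29a1_NR.Del11.markov iX hFn ht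
  -- the classes
  have hYn : (Yx n v R).Nonempty := by
    by_contra hcon
    rw [Finset.not_nonempty_iff_eq_empty] at hcon
    have h1 : ∀ η, p0 η ≤ 0 := by
      intro η
      have h2 := (hp1 η).trans (lower30 β h v R η)
      rw [hcon, Finset.sum_empty] at h2
      have hZ : 0 < Z β h η n := ZT_univ_pos (n := n) hd β h η
      by_contra h3
      push Not at h3
      have := mul_pos h3 hZ
      linarith
    have h2 : {η | ε / 2 ≤ p0 η} = ∅ := by
      refine Set.eq_empty_of_forall_notMem fun η hη => ?_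
      have h3 : ε / 2 ≤ p0 η := hη
      have := h1 η
      linarith
    rw [h2] at hrev
    simp at hrev
    linarith
  have hYE : ∀ p ∈ Yx n v R, (At n p).Nonempty := fun p hp => (Finset.mem_filter.1 hp).2.1
  obtain ⟨T, hT⟩ : ∃ T : ℝ, T = n * lam ρ β h - P - 4 * P / ε - l := ⟨_, rfl⟩
  obtain ⟨a, ha⟩ : ∃ a : ℝ, a = P + 4 * P / ε + l + Real.log (n + 1) + 2 / κ * P := ⟨_, rfl⟩
  have hlog0 : 0 ≤ Real.log ((n : ℝ) + 1) := Real.log_nonneg (by linarith)
  have hPe : 0 < 4 * P / ε := by positivity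
  have ha0 : 0 ≤ a := by
    rw [ha]
    positivity
  have hlow : min (ε / 4) (1 / 2) ≤ (law d ρ).real
      {η | T ≤ Real.log (∑ p ∈ Yx n v R, ZT β h η (At n p))} := by
    have h1 := hmk (4 * P / ε) hPe
    have h2 : P / (4 * P / ε) = ε / 4 := by field_simp
    rw [h2] at h1
    have h3 : (law d ρ).real {η | ε / 2 ≤ p0 η} ≤
        (law d ρ).real {η | T ≤ Real.log (∑ p ∈ Yx n v R, ZT β h η (At n p))} +
        (law d ρ).real {η | 4 * P / ε ≤ |X β h η n - A ρ β h n|} := by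
      refine (measureReal_mono fun η hη => ?_).trans (measureReal_union_le _ _)
      have hη' : ε / 2 ≤ p0 η := hη
      by_cases h4 : 4 * P / ε ≤ |X β h η n - A ρ β h n|
      · exact Or.inr h4
      · left
        push Not at h4
        have h5 := (abs_lt.1 h4).1
        show T ≤ Real.log (∑ p ∈ Yx n v R, ZT β h η (At n p))
        have hZ : 0 < Z β h η n := ZT_univ_pos (n := n) hd β h η
        have h6 : ε / 2 * Z β h η n ≤ ∑ p ∈ Yx n v R, ZT β h η (At n p) :=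
          (mul_le_mul_of_nonneg_right hη' hZ.le).trans ((hp1 η).trans (lower30 β h v R η))
        have h7 := Real.log_le_log (mul_pos (by positivity) hZ) h6
        rw [Real.log_mul (by positivity) hZ.ne'] at h7
        have h8 : Real.log (Z β h η n) = X β h η n := rfl
        rw [h8] at h7
        have h9 : -l ≤ Real.log (ε / 2) := by
          rw [hl]
          exact neg_abs_le _
        rw [hT]
        linarith
    have h4 : min (ε / 4) (1 / 2) ≤ ε / 4 := min_le_left _ _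
    linarith
  have hupp : (law d ρ).real {η | T + a < Real.log (∑ p ∈ Yx n v R, ZT β h η (At n p))} < κ := by
    have hPk : 0 < 2 / κ * P := by positivity
    have h1 := hmk (2 / κ * P) hPk
    have h2 : P / (2 / κ * P) = κ / 2 := by field_simp
    rw [h2] at h1
    refine lt_of_le_of_lt ((measureReal_mono fun η hη => ?_).trans h1) (by linarith)
    have hη' : T + a < Real.log (∑ p ∈ Yx n v R, ZT β h η (At n p)) := hη
    have hZ : 0 < Z β h η n := ZT_univ_pos (n := n) hd β h η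
    have h3 : 0 < ∑ p ∈ Yx n v R, ZT β h η (At n p) :=
      Finset.sum_pos (fun p hp => ztPos30 β h η (hYE p hp)) hYn
    have h4 := Real.log_le_log h3 (upper30 β h v R η)
    rw [Real.log_mul (by positivity) hZ.ne'] at h4
    have h8 : Real.log (Z β h η n) = X β h η n := rfl
    rw [h8] at h4
    show 2 / κ * P ≤ |X β h η n - A ρ β h n|
    refine le_trans ?_ (le_abs_self _)
    rw [hT, ha] at hη'
    linarith
  have hu : ∀ p ∈ Yx n v R, ∀ u : ℝ, A ρ β h n - L / 8 < u →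
      (law d ρ).real {η | u ≤ Real.log (ZT β h η (At n p))} < 1 / 2 := by
    intro p hp u hu
    have h1 := Finset.mem_filter.1 hp
    have h2 := (Finset.mem_product.1 h1.1).1
    have h3 := L73.mean73 hd hρ β (h := h) (v := v) (n := n) (i := p.1) (R := R) (r := r) (W := W)
      (y := p.2) (E := At n p) hr hR hcap (by have := Finset.mem_range.1 h2; omega) h1.2.1
      (fun s hs => hs) h1.2.2
    have h4 := hrare h n (At n p) P L hP hsmall hFn' h1.2.1 (by rw [hL]; linarith)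
    have h5 : (law d ρ).real {η | u ≤ Real.log (ZT β h η (At n p))} ≤
        (law d ρ).real {η | A ρ β h n - L / 8 < Real.log (ZT β h η (At n p))} :=
      measureReal_mono (fun η hη => lt_of_lt_of_le hu hη) (measure_ne_top _ _)
    linarith
  have key := hH h n (ℕ × Site d) (Yx n v R) (At n) (W_7d29a1_NR.Del11.JJ (d + 1) n) a T
    (A ρ β h n - L / 8) hYn hYE (card30 n v R) ha0 hu hlow hupp
  -- the numbers
  obtain ⟨x, hx⟩ : ∃ x : ℝ, x = (n : ℝ) ^ (η₀ / 2) := ⟨_, rfl⟩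
  have hx1 : 1 ≤ x := by
    rw [hx]
    exact Real.one_le_rpow hn1 hη2.le
  have hpw := hpow n hn
  rw [← hx] at hpw
  have hlogx : Real.log ((n : ℝ) + 1) ≤ 2 ^ (η₀ / 2) / (η₀ / 2) * x := by
    have h1 := Real.log_le_rpow_div (show (0 : ℝ) ≤ (n : ℝ) + 1 by linarith) hη2
    have h2 : ((n : ℝ) + 1) ^ (η₀ / 2) ≤ (2 * n) ^ (η₀ / 2) :=
      Real.rpow_le_rpow (by linarith) (by linarith) hη2.le
    rw [Real.mul_rpow (by norm_num) hn0.le, ← hx] at h2
    calc Real.log ((n : ℝ) + 1) ≤ ((n : ℝ) + 1) ^ (η₀ / 2) / (η₀ / 2) := h1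
      _ ≤ (2 ^ (η₀ / 2) * x) / (η₀ / 2) := div_le_div_of_nonneg_right h2 hη2.le
      _ = _ := by ring
  have hxx : x * x = (n : ℝ) ^ η₀ := by
    rw [hx, ← Real.rpow_add hn0]
    congr 1
    ring
  obtain ⟨B, hB⟩ : ∃ B : ℝ, B = 2 ^ (η₀ / 2) / (η₀ / 2) := ⟨_, rfl⟩
  have hB0 : 0 ≤ B := by rw [hB]; positivity
  rw [← hB] at hlogx hK
  have h3e : (0 : ℝ) < 3 ^ (η₀ / 2) := by positivity
  have h4e : 0 < 4 / ε := by positivity
  have h2k : 0 < 2 / κ := by positivity
  have e4 : 4 * P / ε = 4 / ε * P := by ring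
  have hab : a + b ≤ P * (1 + 4 / ε + l + 2 / κ + b + B) * x := by
    have h1 : a + b ≤ P * (1 + 4 / ε + l + 2 / κ + b) + B * x := by
      rw [ha, e4]
      have h2 : l ≤ P * l := le_mul_of_one_le_left hl0 hP
      have h3 : b ≤ P * b := le_mul_of_one_le_left hb hP
      nlinarith
    have h2 : P * (1 + 4 / ε + l + 2 / κ + b) ≤ P * (1 + 4 / ε + l + 2 / κ + b) * x :=
      le_mul_of_one_le_right (by positivity) hx1
    have h3 : B * x ≤ P * (B * x) := le_mul_of_one_le_left (by positivity) hP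
    have h4 : P * (1 + 4 / ε + l + 2 / κ + b + B) * x =
        P * (1 + 4 / ε + l + 2 / κ + b) * x + P * (B * x) := by ring
    rw [h4]
    linarith
  have hmain : L / 8 ≤ K * (P * (x * x)) := by
    have h1 : (a + b) * (3 / c) * (1 + c) ^ W_7d29a1_NR.Del11.JJ (d + 1) n ≤
        P * (1 + 4 / ε + l + 2 / κ + b + B) * x * (3 / c) * (3 ^ (η₀ / 2) * x) := by
      refine mul_le_mul (mul_le_mul_of_nonneg_right hab (by positivity)) hpw (by positivity)
        (by positivity)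
    have h2 : P + 4 * P / ε + l ≤ (1 + 4 / ε + l) * (P * (x * x)) := by
      have hxx1 : 1 ≤ x * x := one_le_mul_of_one_le_of_one_le hx1 hx1
      have h3 : P + 4 * P / ε + l ≤ (1 + 4 / ε + l) * P := by
        rw [e4]
        have h2 : l ≤ l * P := le_mul_of_one_le_right hl0 hP
        nlinarith
      have h4 : (1 + 4 / ε + l) * P ≤ (1 + 4 / ε + l) * P * (x * x) :=
        le_mul_of_one_le_right (by positivity) hxx1
      calc _ ≤ _ := h3
        _ ≤ _ := h4
        _ = _ := by ring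
    have h3 : K * (P * (x * x)) = (1 + 4 / ε + l) * (P * (x * x)) +
        P * (1 + 4 / ε + l + 2 / κ + b + B) * x * (3 / c) * (3 ^ (η₀ / 2) * x) := by
      rw [hK]
      ring
    rw [h3]
    rw [hT] at key
    linarith
  rw [hxx] at hmain
  have h9 : r * R ≤ n * W + P + 8 * (K * (P * (n : ℝ) ^ η₀)) := by
    rw [hL] at hmain
    linarith
  have h10 : P + 8 * (K * (P * (n : ℝ) ^ η₀)) ≤ (8 * K + 1 + CL) * ((n : ℝ) ^ η₀ * P) := by
    have h11 : 0 ≤ CL * ((n : ℝ) ^ η₀ * P) := by positivity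
    have h12 : (8 * K + 1 + CL) * ((n : ℝ) ^ η₀ * P) = 8 * (K * (P * (n : ℝ) ^ η₀)) +
        (n : ℝ) ^ η₀ * P + CL * ((n : ℝ) ^ η₀ * P) := by ring
    rw [h12]
    linarith
  have h11 : (8 * K + 1 + CL) * ((n : ℝ) ^ η₀ * P) ≤
      max 1 (8 * K + 1 + CL) * ((n : ℝ) ^ η₀ * P) :=
    mul_le_mul_of_nonneg_right (le_max_right _ _) hnPη
  have h12 : max 1 (8 * K + 1 + CL) * (n : ℝ) ^ η₀ * P =
      max 1 (8 * K + 1 + CL) * ((n : ℝ) ^ η₀ * P) := by ring
  rw [h12]
  linarith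

/-- **TUBQ for every law**, no hypothesis left. -/
theorem tubQU73 {d : ℕ} (hd : 0 < d) {ρ : Measure ℝ} [IsProbabilityMeasure ρ] (hρ : EM ρ)
    (hnc : ∀ c : ℝ, ρ {c} ≠ 1) {β : ℝ} (hβ : 0 < β) : TubQ d ρ β :=
  tubQ73 hd hρ (W_7d29a1_KP.halEU30 hρ hnc hβ)
    (L73.rare73 hd hρ hβ.le (ampCNAll5 hρ hnc hβ) (deepCAll5 hρ hnc hβ))

end Pool.Agent.W_7d29a1_CV
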