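import Pool.Agent.W_7d29a1_QM.DefsCV
import Pool.Agent.W_7d29a1_KP.TubE30

/-!
Theorem CURV, leaf TUBQ, from the single exit point and the halving lemma for sets of walks.
-/

set_option autoImplicit false

namespace Pool.Agent.W_7d29a1_CV

open MeasureTheory ProbabilityTheory Filter Topology Pool.Agent.W_MP_7d29a1_pr
  Pool.Agent.W_7d29a1_h46 Pool.Agent.W_7d29a1_h46u Pool.Agent.W_7d29a1_D2.B35
  Pool.Agent.W_7d29a1_Q29 Pool.Agent.W_7d29a1_R34 Pool.Agent.W_7d29a1_SP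

/-- **Leaf TUBQ.** -/
theorem tubQ30 {d : ℕ} (hd : 0 < d) {ρ : Measure ℝ} [IsProbabilityMeasure ρ] (hρ : EM ρ) {β : ℝ}
    (hH : W_7d29a1_KP.HalE d ρ β) (hS : SinQ d ρ β) : TubQ d ρ β := by
  intro ε η hε hη
  obtain ⟨C, hC, H⟩ := W_7d29a1_KP.tubE30 hd hρ hH hε hη
  refine ⟨C, hC, ?_⟩
  intro h v n P R r W hn hP hr hR _ hF hE hcap hex
  have h1 := H h v n P R (r * R - n * W) hn hP hF hE
    (fun i y E hi hE' hy hRy u hu => hS h v n R r W hr hR hcap i y E hi hE' hy hRy u hu) hex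
  linarith

end Pool.Agent.W_7d29a1_CV
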